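import Mathlib.Data.Set.Card
import Mathlib.Data.Real.Basic

namespace Pool.Agent.MP_01c7b3_an

/-- The affine form `c 0 + c 1 * x (n-1) + ... + c k * x (n-k)`. -/
noncomputable def form (k : ℕ) (c : Fin (k + 1) → ℝ) (x : ℤ → ℝ) (n : ℤ) : ℝ :=
  c 0 + ∑ i : Fin k, c i.succ * x (n - (((i : ℕ) : ℤ) + 1))

/-- The coefficients are positive on `P` and zero off `P`. -/
def Supp (k : ℕ) (P : Finset (Fin (k + 1))) (c : Fin (k + 1) → ℝ) : Prop :=
  ∀ i, (i ∈ P → 0 < c i) ∧ (i ∉ P → c i = 0)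

/-- Every solution of the special case `(P, Q)` is bounded. -/
def ESB (k : ℕ) (P Q : Finset (Fin (k + 1))) : Prop :=
  ∀ b B : Fin (k + 1) → ℝ, Supp k P b → Supp k Q B →
    ∀ x : ℤ → ℝ, (∀ n : ℤ, -(k : ℤ) ≤ n → n < 0 → 0 ≤ x n) →
      (∀ n : ℤ, 0 ≤ n → 0 < form k B x n ∧ x n = form k b x n / form k B x n) →
      ∃ C : ℝ, ∀ n : ℤ, 0 ≤ n → |x n| ≤ C

/-- The number of special cases of order `k` of type ESB. -/
noncomputable def numESB (k : ℕ) : ℕ :=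
  Set.ncard {p : Finset (Fin (k + 1)) × Finset (Fin (k + 1)) |
    p.1.Nonempty ∧ p.2.Nonempty ∧ ESB k p.1 p.2}

end Pool.Agent.MP_01c7b3_an
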