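import Mathlib.Topology.Sheaves.Presheaf
import Mathlib.Tactic.Monotonicity.Lemmas
import Mathlib.Data.Int.Star
import Mathlib.Algebra.Order.Ring.Star
import Mathlib.Algebra.Order.Star.Real
import Mathlib.Analysis.Complex.ExponentialBounds
import Mathlib.Combinatorics.SimpleGraph.Basic
import Mathlib.Order.Interval.Finset.Box
import Mathlib.RingTheory.PiTensorProduct
import Mathlib.Tactic.Algebra.Basic
import Pool.Agent.MP_01c7b3_an.Defs

-- ======== part 0: formerly Pool.Agent.MP_01c7b3_an.Basic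
section MrgPart0

namespace Pool.Agent.MP_01c7b3_an
open Finset

/-- affine form with coefficients indexed by naturals -/
noncomputable def lf (k : ℕ) (c : ℕ → ℝ) (x : ℤ → ℝ) (n : ℤ) : ℝ :=
  c 0 + ∑ d ∈ Icc 1 k, c d * x (n - d)

lemma sum_Icc_eq (k : ℕ) (f : ℕ → ℝ) : ∑ d ∈ Icc 1 k, f d = ∑ i ∈ range k, f (i + 1) := by
  induction k with
  | zero => simp
  | succ k ih => rw [Finset.sum_Icc_succ_top (by omega), ih, Finset.sum_range_succ]

lemma form_eq_lf (k : ℕ) (c : ℕ → ℝ) (x : ℤ → ℝ) (n : ℤ) :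
    form k (fun i => c i) x n = lf k c x n := by
  unfold form lf
  rw [sum_Icc_eq]
  congr 1
  rw [← Fin.sum_univ_eq_sum_range (fun i => c (i + 1) * x (n - ((i + 1 : ℕ) : ℤ))) k]
  refine Finset.sum_congr rfl fun i _ => ?_
  simp

lemma lf_le (k : ℕ) (c : ℕ → ℝ) (x : ℤ → ℝ) (n : ℤ) (d1 d2 : ℕ) (e Y : ℝ)
    (h0 : c 0 ≤ e) (hY : 0 ≤ Y) (h1 : 0 ≤ c d1 * x (n - d1)) (h2 : 0 ≤ c d2 * x (n - d2))
    (h : ∀ d ∈ Icc 1 k, d ≠ d1 → d ≠ d2 → c d * x (n - d) ≤ Y) :
    lf k c x n ≤ e + c d1 * x (n - d1) + c d2 * x (n - d2) + k * Y := by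
  unfold lf
  have : ∑ d ∈ Icc 1 k, c d * x (n - d) ≤ ∑ d ∈ Icc 1 k,
      ((if d = d1 then c d1 * x (n - d1) else 0) + (if d = d2 then c d2 * x (n - d2) else 0)
        + Y) := by
    refine Finset.sum_le_sum fun d hd => ?_
    by_cases e1 : d = d1
    · subst e1
      simp only [if_true]
      split_ifs <;> linarith
    · by_cases e2 : d = d2
      · subst e2
        simp only [if_true, e1, if_false]
        linarith
      · simp only [e1, e2, if_false]
        have := h d hd e1 e2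
        linarith
  rw [Finset.sum_add_distrib, Finset.sum_add_distrib, Finset.sum_ite_eq', Finset.sum_ite_eq']
    at this
  simp only [Finset.sum_const, Nat.card_Icc, nsmul_eq_mul, Nat.add_sub_cancel] at this
  have a1 : (if d1 ∈ Icc 1 k then c d1 * x (n - d1) else 0) ≤ c d1 * x (n - d1) := by
    split_ifs <;> linarith
  have a2 : (if d2 ∈ Icc 1 k then c d2 * x (n - d2) else 0) ≤ c d2 * x (n - d2) := by
    split_ifs <;> linarith
  linarith

lemma le_lf_two (k : ℕ) (c : ℕ → ℝ) (x : ℤ → ℝ) (n : ℤ) (d1 d2 : ℕ) (hne : d1 ≠ d2)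
    (hd1 : d1 ∈ Icc 1 k) (hd2 : d2 ∈ Icc 1 k) (h0 : 0 ≤ c 0)
    (h : ∀ d ∈ Icc 1 k, 0 ≤ c d * x (n - d)) :
    c d1 * x (n - d1) + c d2 * x (n - d2) ≤ lf k c x n := by
  unfold lf
  have hs : ({d1, d2} : Finset ℕ) ⊆ Icc 1 k := by
    intro d hd
    simp only [Finset.mem_insert, Finset.mem_singleton] at hd
    rcases hd with rfl | rfl <;> assumption
  have := Finset.sum_le_sum_of_subset_of_nonneg (f := fun d : ℕ => c d * x (n - d)) hs
    (fun d hd _ => h d hd)
  rw [Finset.sum_pair hne] at this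
  linarith

lemma le_lf_one (k : ℕ) (c : ℕ → ℝ) (x : ℤ → ℝ) (n : ℤ) (d1 : ℕ)
    (hd1 : d1 ∈ Icc 1 k) (h0 : 0 ≤ c 0)
    (h : ∀ d ∈ Icc 1 k, 0 ≤ c d * x (n - d)) :
    c d1 * x (n - d1) ≤ lf k c x n := by
  unfold lf
  have := Finset.single_le_sum (f := fun d : ℕ => c d * x (n - d)) h hd1
  linarith

lemma lf_congr (k : ℕ) (c : ℕ → ℝ) (x y : ℤ → ℝ) (n : ℤ) (h : ∀ u < n, x u = y u) :
    lf k c x n = lf k c y n := by
  unfold lf
  congr 1
  refine Finset.sum_congr rfl fun d hd => ?_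
  rw [h]
  have := (Finset.mem_Icc.mp hd).1
  omega

/-- solutions exist for every past -/
lemma exists_sol (F : (ℤ → ℝ) → ℤ → ℝ)
    (hF : ∀ x y n, (∀ u < n, x u = y u) → F x n = F y n) (init : ℤ → ℝ) :
    ∃ x : ℤ → ℝ, (∀ n < 0, x n = init n) ∧ ∀ n, 0 ≤ n → x n = F x n := by
  let X : ℕ → ℤ → ℝ := fun t => Nat.rec init
    (fun t y => Function.update y (t : ℤ) (F y t)) t
  have X0 : X 0 = init := rfl
  have XS : ∀ t, X (t + 1) = Function.update (X t) (t : ℤ) (F (X t) t) := fun t => rfl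
  have stab : ∀ t s : ℕ, t ≤ s → ∀ u : ℤ, u < t → X s u = X t u := by
    intro t s hts u hu
    induction s, hts using Nat.le_induction with
    | base => rfl
    | succ s hs ih =>
      rw [XS, Function.update_of_ne (by omega), ih]
  refine ⟨fun n => X (n.toNat + 1) n, fun n hn => ?_, fun n hn => ?_⟩
  · show X (n.toNat + 1) n = init n
    rw [stab 0 (n.toNat + 1) (by omega) n (by simpa using hn), X0]
  · obtain ⟨t, rfl⟩ := Int.eq_ofNat_of_zero_le hn
    show X ((t : ℤ).toNat + 1) t = F _ t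
    rw [Int.toNat_natCast, XS, Function.update_self]
    apply hF
    intro u hu
    by_cases h : u.toNat + 1 ≤ t
    · exact stab _ _ h u (by omega)
    · have : u < 0 := by omega
      rw [stab 0 t (by omega) u (by simpa using this),
        stab 0 (u.toNat + 1) (by omega) u (by simpa using this)]

end Pool.Agent.MP_01c7b3_an

end MrgPart0

-- ======== part 1: formerly Pool.Agent.MP_01c7b3_an.Dyn
section MrgPart1

namespace Pool.Agent.MP_01c7b3_an
open Finset

/-- `n` is congruent to `t * a` modulo `m` -/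
def Cl (m a : ℕ) (t n : ℤ) : Prop := (m : ℤ) ∣ n - t * a

lemma Cl.uniq {m a : ℕ} (ha : 1 ≤ a) (ham : 8 * a < m) {t t' n : ℤ} (h : Cl m a t n)
    (h' : Cl m a t' n) (h1 : t - t' ≤ 8) (h2 : t' - t ≤ 8) : t = t' := by
  by_contra hne
  have hd : (m : ℤ) ∣ (t - t') * a := by
    have := dvd_sub h' h
    have e : n - t' * a - (n - t * a) = (t - t') * a := by ring
    rwa [e] at this
  have ha' : (1 : ℤ) ≤ a := by exact_mod_cast ha
  have ham' : (8 : ℤ) * a < m := by exact_mod_cast ham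
  have hne0 : (t - t') * (a : ℤ) ≠ 0 := mul_ne_zero (sub_ne_zero.mpr hne) (by omega)
  have := Int.le_of_dvd (abs_pos.mpr hne0) ((dvd_abs _ _).mpr hd)
  rw [abs_mul, abs_of_nonneg (by omega : (0 : ℤ) ≤ a)] at this
  have h3 : |t - t'| ≤ 8 := abs_le.mpr ⟨by omega, h1⟩
  nlinarith

lemma Cl.sub {m a : ℕ} {t t' n d : ℤ} (h : Cl m a t n) (h' : Cl m a t' d) :
    Cl m a (t - t') (n - d) := by
  unfold Cl at *
  have := dvd_sub h h'
  have e : n - t * a - (d - t' * a) = n - d - (t - t') * a := by ring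
  rwa [e] at this

lemma Cl.self_m (m a : ℕ) : Cl m a 0 m := by simp [Cl]

lemma Cl.mul_a (m a : ℕ) (t : ℕ) : Cl m a t ((t * a : ℕ) : ℤ) := by simp [Cl]

lemma Cl.sub_m {m a : ℕ} {t n : ℤ} (h : Cl m a t n) : Cl m a t (n - m) := by
  simpa using h.sub (Cl.self_m m a)

lemma Cl.of_sub_m {m a : ℕ} {t n : ℤ} (h : Cl m a t (n - m)) : Cl m a t n := by
  unfold Cl at *
  have := dvd_add h (dvd_refl (m : ℤ))
  have e : n - m - t * a + m = n - t * a := by ring
  rwa [e] at this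

lemma Cl.of_sub {m a : ℕ} {t t' n d : ℤ} (h : Cl m a t (n - d)) (h' : Cl m a t' d) :
    Cl m a (t + t') n := by
  unfold Cl at *
  have := dvd_add h h'
  have e : n - d - t * a + (d - t' * a) = n - (t + t') * a := by ring
  rwa [e] at this

/-- the data of the unbounded solution -/
structure St where
  k : ℕ
  m : ℕ
  a : ℕ
  j : ℕ
  b : ℕ → ℝ
  B : ℕ → ℝ
  κ : ℝ
  ε : ℝ
  M : ℝ
  R : ℝ
  g : ℝ
  γ : ℝ
  γ0 : ℝ
  G : ℝ
  x : ℤ → ℝ
  ha : 1 ≤ a
  ham : 8 * a < m
  hmk : m ≤ k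
  hj : j ∈ Icc 1 k
  cj : Cl m a (-3) j
  bm : b m = g
  b3 : b (3 * a) = 1
  bo : ∀ d, d ≠ m → d ≠ 3 * a → 0 ≤ b d ∧ b d ≤ ε
  B3 : B (3 * a) = 1
  Bj : B j = 1
  Bo : ∀ d, d ≠ 3 * a → d ≠ j → 0 ≤ B d ∧ B d ≤ κ
  Bfree : ∀ d ∈ Icc 1 k, (Cl m a 0 d ∨ Cl m a 1 d ∨ Cl m a (-1) d) → B d = 0
  ker : ∀ n : ℤ, ¬ (Cl m a 0 n ∨ Cl m a 1 n) →
    ∃ d ∈ Icc 1 k, κ ≤ B d ∧ (Cl m a 0 (n - d) ∨ Cl m a 1 (n - d))
  ex2 : ∃ d ∈ Icc 1 k, κ ≤ B d ∧ Cl m a 2 d
  ex4 : ∃ d ∈ Icc 1 k, κ ≤ B d ∧ Cl m a 4 d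
  pastS : ∀ n < 0, (Cl m a 0 n ∨ Cl m a 1 n) → x n = M
  pastC : ∀ n < 0, (Cl m a 3 n ∨ Cl m a 4 n) → x n = 1
  pastO : ∀ n < 0, ¬ (Cl m a 0 n ∨ Cl m a 1 n) → ¬ (Cl m a 3 n ∨ Cl m a 4 n) → x n = 0
  hrec : ∀ n, 0 ≤ n → x n = lf k b x n / lf k B x n
  κ0 : 0 < κ
  κ1 : κ ≤ 1
  ε0 : 0 ≤ ε
  ε1 : ε ≤ 1
  g1 : 1 ≤ g
  g2 : g ≤ 2
  R16 : 16 ≤ R
  κR : κ * R ≤ 8
  hM : 7 ≤ κ ^ 2 / 2 * M
  hε : k * (2 * R * ε) ≤ κ ^ 2 / 2
  γ1 : 1 ≤ γ
  γ2 : γ ≤ 2
  γp : γ ^ (4 * k) ≤ 2
  nδ : κ + k * (2 * R * κ) < 1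
  nγ : g + κ ≤ γ * (1 - (κ + k * (2 * R * κ)))
  γ01 : 1 < γ0
  nγ0 : γ0 * (1 + κ * (3 + 2 * k)) ≤ g
  G1 : 1 ≤ G
  nG1 : g + κ ≤ G * (1 - (κ + k * (2 * κ)))
  nG2 : G * (1 + κ - κ * R / 16 + κ * (2 + 2 * k)) ≤ g

namespace St
variable (s : St)

/-- the two big classes -/
def S (n : ℤ) : Prop := Cl s.m s.a 0 n ∨ Cl s.m s.a 1 n
/-- the two classes of size about one -/
def T (n : ℤ) : Prop := Cl s.m s.a 3 n ∨ Cl s.m s.a 4 n

/-- the invariant -/
def Inv (n : ℤ) : Prop :=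
  0 ≤ s.x n ∧
  (s.S n → s.M ≤ s.x n ∧ s.x (n - s.m) ≤ s.x n ∧ s.x n ≤ s.γ * s.x (n - s.m) ∧
    ∀ u, n - s.m < u → u < n → s.S u → s.x n ≤ s.R * s.x u ∧ s.x u ≤ s.R * s.x n) ∧
  (s.T n → 1 - (s.κ + s.k * (2 * s.R * s.κ)) ≤ s.x n ∧ s.x n ≤ 1 + s.κ) ∧
  (¬ s.S n → ¬ s.T n → s.x n ≤ s.κ)

/-- the invariant holds before `N` -/
def Upto (N : ℤ) : Prop := ∀ u < N, s.Inv u

/-- class `c` dominates the other class by the factor `r` on `[lo, hi)` -/
def Dom (c : ℤ) (r : ℝ) (lo hi : ℤ) : Prop :=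
  ∀ u w, lo ≤ u → u < hi → lo ≤ w → w < hi → Cl s.m s.a c u → Cl s.m s.a (1 - c) w →
    r * s.x w ≤ s.x u

variable {s}

lemma uniq {t t' n : ℤ} (h : Cl s.m s.a t n) (h' : Cl s.m s.a t' n) (h1 : t - t' ≤ 8)
    (h2 : t' - t ≤ 8) : t = t' := Cl.uniq s.ha s.ham h h' h1 h2

lemma M14 : 14 ≤ s.M := by
  have := s.hM; have := s.κ0; have := s.κ1
  have h : s.κ ^ 2 ≤ 1 := by nlinarith
  have hM0 : 0 < s.M := by
    by_contra hc
    have : s.κ ^ 2 / 2 * s.M ≤ 0 := mul_nonpos_of_nonneg_of_nonpos (by positivity) (by linarith)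
    linarith
  nlinarith

lemma S_cls {n : ℤ} (h : s.S n) : ∃ c : ℤ, (c = 0 ∨ c = 1) ∧ Cl s.m s.a c n := by
  rcases h with h | h
  · exact ⟨0, Or.inl rfl, h⟩
  · exact ⟨1, Or.inr rfl, h⟩

lemma S_of {c n : ℤ} (hc : c = 0 ∨ c = 1) (h : Cl s.m s.a c n) : s.S n := by
  rcases hc with rfl | rfl
  · exact Or.inl h
  · exact Or.inr h

lemma not_S {t n : ℤ} (h : Cl s.m s.a t n) (h0 : t ≠ 0) (h1 : t ≠ 1) (h2 : -7 ≤ t)
    (h3 : t ≤ 8) : ¬ s.S n := by
  rintro (h' | h')
  · exact h0 (uniq h h' (by omega) (by omega))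
  · exact h1 (uniq h h' (by omega) (by omega))

lemma not_T {t n : ℤ} (h : Cl s.m s.a t n) (h0 : t ≠ 3) (h1 : t ≠ 4) (h2 : -4 ≤ t)
    (h3 : t ≤ 11) : ¬ s.T n := by
  rintro (h' | h')
  · exact h0 (uniq h h' (by omega) (by omega))
  · exact h1 (uniq h h' (by omega) (by omega))

lemma chain {N : ℤ} (H : s.Upto N) {w : ℤ} (hw : s.S w) (t : ℕ) (ht : w + t * s.m < N) :
    s.S (w + t * s.m) ∧ s.x w ≤ s.x (w + t * s.m) ∧ s.x (w + t * s.m) ≤ s.γ ^ t * s.x w := by
  induction t with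
  | zero => simpa using hw
  | succ t ih =>
    have hm : (0 : ℤ) ≤ s.m := by positivity
    have e : w + ((t + 1 : ℕ) : ℤ) * s.m - s.m = w + t * s.m := by push_cast; ring
    have ih := ih (by rw [← e]; omega)
    have hS : s.S (w + ((t + 1 : ℕ) : ℤ) * s.m) := by
      rcases ih.1 with h | h
      · exact Or.inl (Cl.of_sub_m (by rwa [e]))
      · exact Or.inr (Cl.of_sub_m (by rwa [e]))
    obtain ⟨-, h1, h2, -⟩ := (H _ ht).2.1 hS
    rw [e] at h1 h2
    refine ⟨hS, ih.2.1.trans h1, h2.trans ?_⟩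
    rw [pow_succ, mul_comm (s.γ ^ t), mul_assoc]
    exact mul_le_mul_of_nonneg_left ih.2.2 (by linarith [s.γ1])

lemma same {N : ℤ} (H : s.Upto N) {c u w : ℤ} (hc : c = 0 ∨ c = 1) (hu : Cl s.m s.a c u)
    (hw : Cl s.m s.a c w) (huN : u < N) (hwN : w < N) (h1 : u - w ≤ 4 * s.k) :
    s.x u ≤ 2 * s.x w := by
  have hd : (s.m : ℤ) ∣ u - w := by simpa [Cl] using hu.sub hw
  obtain ⟨t, ht⟩ := hd
  have hm : (1 : ℤ) ≤ s.m := by have := s.ham; omega
  have hw0 := (H w hwN).1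
  rcases le_or_gt 0 t with h | h
  · obtain ⟨t, rfl⟩ := Int.eq_ofNat_of_zero_le h
    have e : u = w + t * s.m := by linarith
    have := (chain H (S_of hc hw) t (by rw [← e]; exact huN)).2.2
    rw [← e] at this
    have ht4 : t ≤ 4 * s.k := by
      have : (t : ℤ) ≤ 4 * s.k := by nlinarith
      exact_mod_cast this
    have h2 : s.γ ^ t ≤ 2 := (pow_le_pow_right₀ s.γ1 ht4).trans s.γp
    nlinarith
  · obtain ⟨t', ht'⟩ := Int.eq_ofNat_of_zero_le (by omega : 0 ≤ -t)
    have e : w = u + t' * s.m := by rw [← ht']; linarith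
    have := (chain H (S_of hc hu) t' (by rw [← e]; exact hwN)).2.1
    rw [← e] at this
    linarith

lemma other {c w : ℤ} (hc : c = 0 ∨ c = 1) (hw : Cl s.m s.a (1 - c) w) :
    ∃ w', w - s.m < w' ∧ w' < w ∧ Cl s.m s.a c w' := by
  have h1 := s.ha; have h2 := s.ham
  have ha1 : Cl s.m s.a 1 s.a := by simp [Cl]
  rcases hc with rfl | rfl
  · exact ⟨w - s.a, by omega, by omega, by simpa using hw.sub ha1⟩
  · refine ⟨w - s.m + s.a, by omega, by omega, ?_⟩
    have : Cl s.m s.a 0 (w - s.m + s.a - s.a) := by simpa using hw.sub_m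
    simpa using this.of_sub ha1

lemma nonS_le {N : ℤ} (H : s.Upto N) {u : ℤ} (hu : u < N) (h : ¬ s.S u) : s.x u ≤ 2 := by
  have := s.κ1
  by_cases hT : s.T u
  · linarith [((H u hu).2.2.1 hT).2]
  · linarith [(H u hu).2.2.2 h hT]

lemma win_le {n : ℤ} (H : s.Upto n) {u w : ℤ} (hu1 : n - s.k ≤ u) (hu2 : u < n)
    (hw1 : n - s.k ≤ w) (hw2 : w < n) (hw : s.S w) : s.x u ≤ 2 * s.R * s.x w := by
  have hM := ((H w hw2).2.1 hw).1
  have := M14 (s := s); have := s.R16
  by_cases hu : s.S u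
  · obtain ⟨c, hc, hcu⟩ := S_cls hu
    obtain ⟨c', hc', hcw⟩ := S_cls hw
    by_cases e : c' = c
    · subst e
      have := same H hc hcu hcw hu2 hw2 (by omega)
      nlinarith
    · have e' : c' = 1 - c := by omega
      subst e'
      obtain ⟨w', h1, h2, h3⟩ := other hc hcw
      have hmk := s.hmk
      have a1 := same H hc hcu h3 hu2 (by omega) (by omega)
      have a2 := (((H w hw2).2.1 hw).2.2.2 w' h1 h2 (S_of hc h3)).2
      nlinarith
  · have := nonS_le H hu2 hu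
    nlinarith

lemma b_nonneg (d : ℕ) : 0 ≤ s.b d := by
  by_cases h1 : d = s.m
  · rw [h1, s.bm]; linarith [s.g1]
  by_cases h2 : d = 3 * s.a
  · rw [h2, s.b3]; norm_num
  exact (s.bo d h1 h2).1

lemma B_nonneg (d : ℕ) : 0 ≤ s.B d := by
  by_cases h1 : d = 3 * s.a
  · rw [h1, s.B3]; norm_num
  by_cases h2 : d = s.j
  · rw [h2, s.Bj]; norm_num
  exact (s.Bo d h1 h2).1

lemma term_nonneg {n : ℤ} (H : s.Upto n) {c : ℕ → ℝ} (hc : ∀ d, 0 ≤ c d) :
    ∀ d ∈ Icc 1 s.k, 0 ≤ c d * s.x (n - d) := fun d hd =>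
  mul_nonneg (hc d) (H _ (by have := (mem_Icc.mp hd).1; omega)).1

lemma m_mem : s.m ∈ Icc 1 s.k := mem_Icc.mpr ⟨by have := s.ham; omega, s.hmk⟩
lemma a3_mem : 3 * s.a ∈ Icc 1 s.k :=
  mem_Icc.mpr ⟨by have := s.ha; omega, by have := s.ham; have := s.hmk; omega⟩
lemma cl3 : Cl s.m s.a 3 ((3 * s.a : ℕ) : ℤ) := by simpa using Cl.mul_a s.m s.a 3

lemma N_nonneg {n : ℤ} (H : s.Upto n) : 0 ≤ lf s.k s.b s.x n :=
  (term_nonneg H b_nonneg _ m_mem).trans
    (le_lf_one _ _ _ _ _ m_mem (b_nonneg 0) (term_nonneg H b_nonneg))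

/-- upper bound for the numerator in terms of a big element of the window -/
lemma N_le {n w : ℤ} (H : s.Upto n) (hw1 : n - s.k ≤ w) (hw2 : w < n) (hw : s.S w) :
    lf s.k s.b s.x n ≤ 1 + s.g * s.x (n - s.m) + s.x (n - (3 * s.a : ℕ))
      + s.κ ^ 2 / 2 * s.x w := by
  have h0 : s.b 0 ≤ 1 := ((s.bo 0 (by have := s.ham; omega) (by have := s.ha; omega)).2).trans s.ε1
  have hw0 := (H w hw2).1
  have hR := s.R16
  have := lf_le s.k s.b s.x n s.m (3 * s.a) 1 (2 * s.R * s.ε * s.x w) h0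
    (by have := s.ε0; positivity) (term_nonneg H b_nonneg _ m_mem)
    (term_nonneg H b_nonneg _ a3_mem) (fun d hd h1 h2 => by
      have hd' := mem_Icc.mp hd
      have a1 := win_le H (u := n - d) (by omega) (by omega) hw1 hw2 hw
      have a2 := s.bo d h1 h2
      have a3 := (H (n - d) (by omega)).1
      calc s.b d * s.x (n - d) ≤ s.ε * (2 * s.R * s.x w) := mul_le_mul a2.2 a1 a3 s.ε0
        _ = _ := by ring)
  rw [s.bm, s.b3] at this
  have h2 : (s.k : ℝ) * (2 * s.R * s.ε * s.x w) ≤ s.κ ^ 2 / 2 * s.x w := by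
    rw [← mul_assoc]; exact mul_le_mul_of_nonneg_right s.hε hw0
  linarith

lemma seven {n w : ℤ} (H : s.Upto n) (hw2 : w < n) (hw : s.S w) :
    7 ≤ s.κ ^ 2 / 2 * s.x w :=
  s.hM.trans (mul_le_mul_of_nonneg_left ((H w hw2).2.1 hw).1 (by positivity))

lemma small_step {n : ℤ} (H : s.Upto n) (hn : 0 ≤ n) (hS : ¬ s.S n) (hT : ¬ s.T n) :
    0 < lf s.k s.B s.x n ∧ s.x n ≤ s.κ := by
  obtain ⟨d, hd, hκ, hw⟩ := s.ker n hS
  have hd' := mem_Icc.mp hd
  have hw' : s.S (n - d) := hw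
  have hM := ((H (n - d) (by omega)).2.1 hw').1
  have := M14 (s := s); have := s.κ0
  have hD := le_lf_one s.k s.B s.x n d hd (B_nonneg 0) (term_nonneg H B_nonneg)
  have hD2 : s.κ * s.x (n - d) ≤ lf s.k s.B s.x n :=
    (mul_le_mul_of_nonneg_right hκ (by linarith)).trans hD
  have hD0 : 0 < lf s.k s.B s.x n := lt_of_lt_of_le (mul_pos s.κ0 (by linarith)) hD2
  refine ⟨hD0, ?_⟩
  rw [s.hrec n hn, div_le_iff₀ hD0]
  have hN := N_le H (w := n - d) (by omega) (by omega) hw'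
  have a1 : s.x (n - s.m) ≤ 2 := nonS_le H (by have := s.ham; omega) (by
    rintro (h | h)
    · exact hS (Or.inl h.of_sub_m)
    · exact hS (Or.inr h.of_sub_m))
  have a2 : s.x (n - (3 * s.a : ℕ)) ≤ 2 := nonS_le H (by have := s.ha; omega) (by
    rintro (h | h)
    · exact hT (Or.inl (by simpa using h.of_sub cl3))
    · exact hT (Or.inr (by simpa using h.of_sub cl3)))
  have a3 := seven H (w := n - d) (by omega) hw'
  have a4 : s.g * s.x (n - s.m) ≤ 4 := by
    have := s.g1; have := s.g2; nlinarith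
  nlinarith

lemma j_ne : 3 * s.a ≠ s.j := by
  intro h
  have h1 := s.cj
  rw [← h] at h1
  have := uniq h1 cl3 (by omega) (by omega)
  omega

/-- basic inequalities at a position of class `c + 3` -/
lemma cls_aux {n c : ℤ} (H : s.Upto n) (hc : c = 0 ∨ c = 1) (h : Cl s.m s.a (c + 3) n) :
    Cl s.m s.a c (n - (3 * s.a : ℕ)) ∧ 14 ≤ s.x (n - (3 * s.a : ℕ)) ∧
    s.x (n - (3 * s.a : ℕ)) ≤ lf s.k s.b s.x n ∧
    lf s.k s.b s.x n ≤ (1 + s.κ) * s.x (n - (3 * s.a : ℕ)) ∧
    s.x (n - (3 * s.a : ℕ)) ≤ lf s.k s.B s.x n ∧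
    ∀ Y : ℝ, 0 ≤ Y → (∀ u, n - s.k ≤ u → u < n → s.x u ≤ Y * s.x (n - (3 * s.a : ℕ))) →
      lf s.k s.B s.x n ≤ (1 + (s.κ + s.k * (Y * s.κ))) * s.x (n - (3 * s.a : ℕ)) := by
  have hc3 : Cl s.m s.a c (n - (3 * s.a : ℕ)) := by simpa using h.sub cl3
  have hS := S_of hc hc3
  have ha3 := mem_Icc.mp (a3_mem (s := s))
  have hlt : n - ((3 * s.a : ℕ) : ℤ) < n := by omega
  have hM := ((H _ hlt).2.1 hS).1
  have h14 := M14 (s := s)
  have κ0 := s.κ0; have κ1 := s.κ1
  have h7 := seven H hlt hS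
  have hκ2 : s.κ ^ 2 ≤ s.κ := by nlinarith
  refine ⟨hc3, by linarith, ?_, ?_, ?_, ?_⟩
  · have := le_lf_one s.k s.b s.x n _ a3_mem (b_nonneg 0) (term_nonneg H b_nonneg)
    rwa [s.b3, one_mul] at this
  · have hN := N_le H (by omega) hlt hS
    have a1 : s.x (n - s.m) ≤ 2 := nonS_le H (by have := s.ham; omega)
      (not_S h.sub_m (by omega) (by omega) (by omega) (by omega))
    have a4 : s.g * s.x (n - s.m) ≤ 4 := by
      have := s.g1; have := s.g2; nlinarith
    nlinarith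
  · have := le_lf_one s.k s.B s.x n _ a3_mem (B_nonneg 0) (term_nonneg H B_nonneg)
    rwa [s.B3, one_mul] at this
  · intro Y hY hwin
    have hj := mem_Icc.mp s.hj
    have h0 : s.B 0 ≤ 1 := ((s.Bo 0 (by omega) (by omega)).2).trans s.κ1
    have hX0 : 0 ≤ s.x (n - (3 * s.a : ℕ)) := by linarith
    have := lf_le s.k s.B s.x n (3 * s.a) s.j 1 (Y * s.κ * s.x (n - (3 * s.a : ℕ))) h0
      (by positivity) (term_nonneg H B_nonneg _ a3_mem) (term_nonneg H B_nonneg _ s.hj)
      (fun d hd h1 h2 => by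
        have hd' := mem_Icc.mp hd
        have a1 := hwin (n - d) (by omega) (by omega)
        have a2 := s.Bo d h1 h2
        have a3 := (H (n - d) (by omega)).1
        calc s.B d * s.x (n - d) ≤ s.κ * (Y * s.x (n - (3 * s.a : ℕ))) :=
              mul_le_mul a2.2 a1 a3 κ0.le
          _ = _ := by ring)
    rw [s.B3, s.Bj] at this
    have a1 : s.x (n - s.j) ≤ 2 := nonS_le H (by omega)
      (not_S (h.sub s.cj) (by omega) (by omega) (by omega) (by omega))
    nlinarith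

lemma cls_low {n c : ℤ} (H : s.Upto n) (hn : 0 ≤ n) (hc : c = 0 ∨ c = 1)
    (h : Cl s.m s.a (c + 3) n) (Y : ℝ) (hY : 0 ≤ Y)
    (hwin : ∀ u, n - s.k ≤ u → u < n → s.x u ≤ Y * s.x (n - (3 * s.a : ℕ))) :
    1 - (s.κ + s.k * (Y * s.κ)) ≤ s.x n := by
  obtain ⟨-, h14, h1, -, h3, h4⟩ := cls_aux H hc h
  have h4 := h4 Y hY hwin
  have hD0 : 0 < lf s.k s.B s.x n := by linarith
  rw [s.hrec n hn, le_div_iff₀ hD0]
  have κ0 := s.κ0
  set δ := s.κ + s.k * (Y * s.κ) with hδ
  have hδ0 : 0 ≤ δ := by positivity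
  by_cases hδ1 : 1 - δ ≤ 0
  · nlinarith
  · have : (1 - δ) * lf s.k s.B s.x n ≤ (1 - δ) * ((1 + δ) * s.x (n - (3 * s.a : ℕ))) :=
      mul_le_mul_of_nonneg_left h4 (by linarith)
    nlinarith [mul_nonneg (mul_nonneg hδ0 hδ0) (by linarith : 0 ≤ s.x (n - (3 * s.a : ℕ)))]

lemma cls_step {n : ℤ} (H : s.Upto n) (hn : 0 ≤ n) (hT : s.T n) :
    0 < lf s.k s.B s.x n ∧ 1 - (s.κ + s.k * (2 * s.R * s.κ)) ≤ s.x n ∧ s.x n ≤ 1 + s.κ := by
  obtain ⟨c, hc, h⟩ : ∃ c : ℤ, (c = 0 ∨ c = 1) ∧ Cl s.m s.a (c + 3) n := by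
    rcases hT with h | h
    · exact ⟨0, Or.inl rfl, by simpa using h⟩
    · exact ⟨1, Or.inr rfl, by simpa using h⟩
  obtain ⟨hc3, h14, h1, h2, h3, -⟩ := cls_aux H hc h
  have hD0 : 0 < lf s.k s.B s.x n := by linarith
  have ha3 := mem_Icc.mp (a3_mem (s := s))
  refine ⟨hD0, cls_low H hn hc h (2 * s.R) (by linarith [s.R16]) fun u h1 h2 =>
    win_le H h1 h2 (by omega) (by omega) (S_of hc hc3), ?_⟩
  rw [s.hrec n hn, div_le_iff₀ hD0]
  have := s.κ0
  nlinarith

lemma cls_up {n c : ℤ} (H : s.Upto n) (hc : c = 0 ∨ c = 1) (h : Cl s.m s.a (c + 3) n)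
    (hD : s.Dom c 1 (n - s.k) n) : 1 - (s.κ + s.k * (2 * s.κ)) ≤ s.x n := by
  rcases lt_or_ge n 0 with hn | hn
  · rw [s.pastC n hn (by rcases hc with rfl | rfl; exacts [Or.inl h, Or.inr h])]
    have := s.κ0
    have : 0 ≤ s.κ + s.k * (2 * s.κ) := by positivity
    linarith
  obtain ⟨hc3, h14, -⟩ := cls_aux H hc h
  have ha3 := mem_Icc.mp (a3_mem (s := s))
  refine cls_low H hn hc h 2 (by norm_num) fun u h1 h2 => ?_
  by_cases hu : s.S u
  · obtain ⟨c', hc', hcu⟩ := S_cls hu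
    by_cases e : c' = c
    · subst e
      exact same H hc hcu hc3 h2 (by omega) (by omega)
    · have e' : c' = 1 - c := by omega
      subst e'
      have := hD _ u (by omega) (by omega) h1 h2 hc3 hcu
      linarith
  · have := nonS_le H h2 hu
    linarith

lemma exists_cls (c lo : ℤ) : ∃ u, lo ≤ u ∧ u < lo + s.m ∧ Cl s.m s.a c u := by
  have hm : (0 : ℤ) < s.m := by have := s.ham; omega
  refine ⟨lo + (c * s.a - lo) % s.m, ?_, ?_, ?_⟩
  · have := Int.emod_nonneg (c * s.a - lo) hm.ne'; omega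
  · have := Int.emod_lt_of_pos (c * s.a - lo) hm; omega
  · refine ⟨-((c * s.a - lo) / s.m), ?_⟩
    have := Int.emod_add_mul_ediv (c * s.a - lo) s.m
    linarith

lemma not_dom_past {c lo hi : ℤ} (hc : c = 0 ∨ c = 1) (h1 : lo + s.m ≤ hi) (h2 : hi ≤ 0) :
    ¬ s.Dom c (s.R / 8) lo hi := by
  intro hD
  obtain ⟨u, u1, u2, u3⟩ := exists_cls (s := s) c lo
  obtain ⟨w, w1, w2, w3⟩ := exists_cls (s := s) (1 - c) lo
  have := hD u w u1 (by omega) w1 (by omega) u3 w3
  rw [s.pastS u (by omega) (S_of hc u3), s.pastS w (by omega) (S_of (by omega) w3)] at this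
  have := M14 (s := s); have := s.R16
  nlinarith

lemma cls_down {n c : ℤ} (H : s.Upto n) (hc : c = 0 ∨ c = 1) (h : Cl s.m s.a (c + 3) n)
    (hD : s.Dom (1 - c) (s.R / 8) (n - s.k) n) : s.x n ≤ 1 + s.κ - s.κ * s.R / 16 := by
  rcases lt_or_ge n 0 with hn | hn
  · exact absurd hD (not_dom_past (by omega) (by have := s.hmk; omega) hn.le)
  obtain ⟨hc3, h14, h1, h2, h3, -⟩ := cls_aux H hc h
  have ha3 := mem_Icc.mp (a3_mem (s := s))
  obtain ⟨d, hd, hκ, hne, hcd⟩ : ∃ d ∈ Icc 1 s.k, s.κ ≤ s.B d ∧ 3 * s.a ≠ d ∧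
      Cl s.m s.a (1 - c) (n - d) := by
    rcases hc with rfl | rfl
    · obtain ⟨d, hd, hκ, hcd⟩ := s.ex2
      refine ⟨d, hd, hκ, ?_, by simpa using h.sub hcd⟩
      rintro rfl
      have := uniq hcd cl3 (by omega) (by omega); omega
    · obtain ⟨d, hd, hκ, hcd⟩ := s.ex4
      refine ⟨d, hd, hκ, ?_, by simpa using h.sub hcd⟩
      rintro rfl
      have := uniq hcd cl3 (by omega) (by omega); omega
  have hd' := mem_Icc.mp hd
  have hlow := le_lf_two s.k s.B s.x n _ _ hne a3_mem hd (B_nonneg 0) (term_nonneg H B_nonneg)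
  rw [s.B3, one_mul] at hlow
  have hdom := hD (n - d) (n - (3 * s.a : ℕ)) (by omega) (by omega) (by omega) (by omega) hcd
    (by simpa using hc3)
  have hx0 := (H (n - d) (by omega)).1
  have κ0 := s.κ0; have κ1 := s.κ1; have := s.R16; have κR := s.κR
  set X := s.x (n - (3 * s.a : ℕ))
  set y := s.κ * s.R / 8 with hy
  have hy0 : 0 ≤ y := by positivity
  have hy1 : y ≤ 1 := by linarith
  have hD1 : (1 + y) * X ≤ lf s.k s.B s.x n := by
    have : s.κ * (s.R / 8 * X) ≤ s.B d * s.x (n - d) :=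
      mul_le_mul hκ hdom (by positivity) (B_nonneg d)
    have e : (1 + y) * X = X + s.κ * (s.R / 8 * X) := by rw [hy]; ring
    linarith
  have hD0 : 0 < lf s.k s.B s.x n := by linarith
  rw [s.hrec n hn, div_le_iff₀ hD0]
  have e : 1 + s.κ - s.κ * s.R / 16 = 1 + s.κ - y / 2 := by rw [hy]; ring
  rw [e]
  have a1 : (1 + s.κ - y / 2) * ((1 + y) * X) ≤ (1 + s.κ - y / 2) * lf s.k s.B s.x n :=
    mul_le_mul_of_nonneg_left hD1 (by linarith)
  have a2 : 1 + s.κ ≤ (1 + s.κ - y / 2) * (1 + y) := by nlinarith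
  nlinarith

/-- basic inequalities at a big position -/
lemma big_aux {n c : ℤ} (H : s.Upto n) (hc : c = 0 ∨ c = 1) (h : Cl s.m s.a c n) :
    Cl s.m s.a (c + 3) (n - s.j) ∧ 14 ≤ s.x (n - s.m) ∧
    s.g * s.x (n - s.m) ≤ lf s.k s.b s.x n ∧
    lf s.k s.b s.x n ≤ (s.g + s.κ) * s.x (n - s.m) ∧
    s.x (n - s.j) ≤ lf s.k s.B s.x n ∧
    lf s.k s.B s.x n ≤ s.x (n - s.j) + s.κ * (2 + 2 * s.k) := by
  have hS := S_of hc h.sub_m
  have hm := mem_Icc.mp (m_mem (s := s))
  have ha3 := mem_Icc.mp (a3_mem (s := s))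
  have hj := mem_Icc.mp s.hj
  have hlt : n - (s.m : ℤ) < n := by omega
  have hM := ((H _ hlt).2.1 hS).1
  have h14 := M14 (s := s)
  have κ0 := s.κ0; have κ1 := s.κ1
  have h7 := seven H hlt hS
  have hκ2 : s.κ ^ 2 ≤ s.κ := by nlinarith
  have hc3 := h.sub (cl3 (s := s))
  have hnS := not_S hc3 (by omega) (by omega) (by omega) (by omega)
  have hnT := not_T hc3 (by omega) (by omega) (by omega) (by omega)
  have hsm := (H _ (by omega)).2.2.2 hnS hnT
  refine ⟨by simpa using h.sub s.cj, by linarith, ?_, ?_, ?_, ?_⟩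
  · have := le_lf_one s.k s.b s.x n _ m_mem (b_nonneg 0) (term_nonneg H b_nonneg)
    rwa [s.bm] at this
  · have hN := N_le H (by omega) hlt hS
    nlinarith
  · have := le_lf_one s.k s.B s.x n _ s.hj (B_nonneg 0) (term_nonneg H B_nonneg)
    rwa [s.Bj, one_mul] at this
  · have h0 : s.B 0 ≤ s.κ := (s.Bo 0 (by omega) (by omega)).2
    have := lf_le s.k s.B s.x n (3 * s.a) s.j s.κ (s.κ * 2) h0
      (by positivity) (term_nonneg H B_nonneg _ a3_mem) (term_nonneg H B_nonneg _ s.hj)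
      (fun d hd h1 h2 => by
        have hd' := mem_Icc.mp hd
        by_cases hu : s.S (n - d)
        · have : s.B d = 0 := by
            apply s.Bfree d hd
            obtain ⟨c', hc', hcu⟩ := S_cls hu
            have := h.sub hcu
            rw [sub_sub_cancel] at this
            rcases hc with rfl | rfl <;> rcases hc' with rfl | rfl <;> simp at this <;> tauto
          rw [this, zero_mul]; positivity
        · exact mul_le_mul (s.Bo d h1 h2).2 (nonS_le H (by omega) hu) (H _ (by omega)).1 κ0.le)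
    rw [s.B3, s.Bj] at this
    linarith

lemma big_step {n : ℤ} (H : s.Upto n) (hn : 0 ≤ n) (hS : s.S n) :
    0 < lf s.k s.B s.x n ∧ s.γ0 * s.x (n - s.m) ≤ s.x n ∧ s.x n ≤ s.γ * s.x (n - s.m) := by
  obtain ⟨c, hc, h⟩ := S_cls hS
  obtain ⟨hc3, h14, h1, h2, h3, h4⟩ := big_aux H hc h
  have hj := mem_Icc.mp s.hj
  have hT : s.T (n - s.j) := by
    rcases hc with rfl | rfl
    · exact Or.inl (by simpa using hc3)
    · exact Or.inr (by simpa using hc3)
  obtain ⟨t1, t2⟩ := (H _ (by omega)).2.2.1 hT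
  have nδ := s.nδ
  have hD0 : 0 < lf s.k s.B s.x n := by linarith
  refine ⟨hD0, ?_, ?_⟩
  · rw [s.hrec n hn, le_div_iff₀ hD0]
    have a1 : lf s.k s.B s.x n ≤ 1 + s.κ * (3 + 2 * s.k) := by linarith
    have := s.γ01
    calc s.γ0 * s.x (n - s.m) * lf s.k s.B s.x n
        ≤ s.γ0 * s.x (n - s.m) * (1 + s.κ * (3 + 2 * s.k)) :=
          mul_le_mul_of_nonneg_left a1 (by positivity)
      _ = s.γ0 * (1 + s.κ * (3 + 2 * s.k)) * s.x (n - s.m) := by ring
      _ ≤ s.g * s.x (n - s.m) := mul_le_mul_of_nonneg_right s.nγ0 (by linarith)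
      _ ≤ _ := h1
  · rw [s.hrec n hn, div_le_iff₀ hD0]
    have := s.γ1
    calc lf s.k s.b s.x n ≤ (s.g + s.κ) * s.x (n - s.m) := h2
      _ ≤ s.γ * (1 - (s.κ + s.k * (2 * s.R * s.κ))) * s.x (n - s.m) :=
          mul_le_mul_of_nonneg_right s.nγ (by linarith)
      _ = s.γ * s.x (n - s.m) * (1 - (s.κ + s.k * (2 * s.R * s.κ))) := by ring
      _ ≤ _ := mul_le_mul_of_nonneg_left (by linarith) (by positivity)

lemma Dom.mono {c : ℤ} {r : ℝ} {lo hi lo' hi' : ℤ} (h : s.Dom c r lo hi) (h1 : lo ≤ lo')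
    (h2 : hi' ≤ hi) : s.Dom c r lo' hi' := fun u w a1 a2 a3 a4 =>
  h u w (by omega) (by omega) (by omega) (by omega)

lemma big_up {n c : ℤ} (H : s.Upto n) (hc : c = 0 ∨ c = 1) (h : Cl s.m s.a c n)
    (hD : s.Dom c 1 (n - 2 * s.k) n) : s.x n ≤ s.G * s.x (n - s.m) := by
  have hm := mem_Icc.mp (m_mem (s := s))
  rcases lt_or_ge n 0 with hn | hn
  · rw [s.pastS n hn (S_of hc h), s.pastS _ (by omega) (S_of hc h.sub_m)]
    have := M14 (s := s); have := s.G1
    nlinarith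
  obtain ⟨hc3, h14, h1, h2, h3, h4⟩ := big_aux H hc h
  have hj := mem_Icc.mp s.hj
  have hD0 := (big_step H hn (S_of hc h)).1
  have t1 := cls_up (fun u hu => H u (by omega)) hc hc3 (hD.mono (by omega) (by omega))
  rw [s.hrec n hn, div_le_iff₀ hD0]
  have := s.G1
  calc lf s.k s.b s.x n ≤ (s.g + s.κ) * s.x (n - s.m) := h2
    _ ≤ s.G * (1 - (s.κ + s.k * (2 * s.κ))) * s.x (n - s.m) :=
        mul_le_mul_of_nonneg_right s.nG1 (by linarith)
    _ = s.G * s.x (n - s.m) * (1 - (s.κ + s.k * (2 * s.κ))) := by ring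
    _ ≤ _ := mul_le_mul_of_nonneg_left (by linarith) (by positivity)

lemma big_down {n c : ℤ} (H : s.Upto n) (hc : c = 0 ∨ c = 1) (h : Cl s.m s.a c n)
    (hD : s.Dom (1 - c) (s.R / 8) (n - 2 * s.k) n) : s.G * s.x (n - s.m) ≤ s.x n := by
  have hm := mem_Icc.mp (m_mem (s := s))
  rcases lt_or_ge n 0 with hn | hn
  · exact absurd hD (not_dom_past (by omega) (by omega) hn.le)
  obtain ⟨hc3, h14, h1, h2, h3, h4⟩ := big_aux H hc h
  have hj := mem_Icc.mp s.hj
  have hD0 := (big_step H hn (S_of hc h)).1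
  have t1 := cls_down (fun u hu => H u (by omega)) hc hc3 (hD.mono (by omega) (by omega))
  rw [s.hrec n hn, le_div_iff₀ hD0]
  have := s.G1
  calc s.G * s.x (n - s.m) * lf s.k s.B s.x n
      ≤ s.G * s.x (n - s.m) * (1 + s.κ - s.κ * s.R / 16 + s.κ * (2 + 2 * s.k)) :=
        mul_le_mul_of_nonneg_left (by linarith) (by positivity)
    _ = s.G * (1 + s.κ - s.κ * s.R / 16 + s.κ * (2 + 2 * s.k)) * s.x (n - s.m) := by ring
    _ ≤ s.g * s.x (n - s.m) := mul_le_mul_of_nonneg_right s.nG2 (by linarith)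
    _ ≤ _ := h1

lemma dom_of {N c p p' lo : ℤ} (H : s.Upto N) (hc : c = 0 ∨ c = 1) (hp : Cl s.m s.a c p)
    (hp' : Cl s.m s.a (1 - c) p') (h1 : p < N) (h2 : p' < N) (h3 : p - lo ≤ 4 * s.k)
    (h4 : N - p' ≤ 4 * s.k) (h : s.R / 2 * s.x p' ≤ s.x p) : s.Dom c (s.R / 8) lo N := by
  intro u w u1 u2 w1 w2 hu hw
  have a1 := same H hc hp hu h1 u2 (by omega)
  have a2 := same H (by omega) hw hp' w2 h2 (by omega)
  have := s.R16
  nlinarith

lemma Dom.one {N c lo : ℤ} (H : s.Upto N) (h : s.Dom c (s.R / 8) lo N) : s.Dom c 1 lo N := by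
  intro u w u1 u2 w1 w2 hu hw
  have := h u w u1 u2 w1 w2 hu hw
  have := (H w w2).1; have := s.R16
  nlinarith

lemma inv_step {n : ℤ} (H : s.Upto n) (hn : 0 ≤ n) : 0 < lf s.k s.B s.x n ∧ s.Inv n := by
  have hD0 : 0 < lf s.k s.B s.x n := by
    by_cases hS : s.S n
    · exact (big_step H hn hS).1
    by_cases hT : s.T n
    · exact (cls_step H hn hT).1
    exact (small_step H hn hS hT).1
  refine ⟨hD0, ?_, fun hS => ?_, fun hT => (cls_step H hn hT).2,
    fun hS hT => (small_step H hn hS hT).2⟩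
  · rw [s.hrec n hn]; exact div_nonneg (N_nonneg H) hD0.le
  obtain ⟨-, g1, g2⟩ := big_step H hn hS
  obtain ⟨c, hc, h⟩ := S_cls hS
  have hm := mem_Icc.mp (m_mem (s := s))
  have hI := (H (n - s.m) (by omega)).2.1 (S_of hc h.sub_m)
  have h14 := M14 (s := s)
  have γ01 := s.γ01; have γ1 := s.γ1; have γ2 := s.γ2; have R16 := s.R16
  have hle : s.x (n - s.m) ≤ s.x n := by nlinarith [hI.1]
  refine ⟨hI.1.trans hle, hle, g2, fun u u1 u2 hu => ?_⟩
  obtain ⟨c', hc', hcu⟩ := S_cls hu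
  have e' : c' = 1 - c := by
    by_contra hne
    have e : c' = c := by omega
    subst e
    have hd : (s.m : ℤ) ∣ n - u := by simpa [Cl] using h.sub hcu
    have := Int.le_of_dvd (by omega) hd
    omega
  subst e'
  obtain ⟨r1, r2⟩ := hI.2.2.2 (u - s.m) (by omega) (by omega) (S_of hc' hcu.sub_m)
  obtain ⟨-, v1, v2, -⟩ := (H u u2).2.1 hu
  have v0 := (H (u - s.m) (by omega)).1
  have w0 := (H (n - s.m) (by omega)).1
  have Hu : s.Upto u := fun v hv => H v (by omega)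
  constructor
  · by_cases hcase : s.R / 2 * s.x (u - s.m) ≤ s.x (n - s.m)
    · have hD := dom_of (lo := u - 2 * s.k) H hc h.sub_m hcu.sub_m (by omega) (by omega)
        (by omega) (by omega) hcase
      have a1 := big_up H hc h ((hD.one H).mono (by omega) le_rfl)
      have a2 := big_down Hu hc' hcu (by simpa using hD.mono le_rfl u2.le)
      have := s.G1
      calc s.x n ≤ s.G * s.x (n - s.m) := a1
        _ ≤ s.G * (s.R * s.x (u - s.m)) := mul_le_mul_of_nonneg_left r1 (by linarith)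
        _ = s.R * (s.G * s.x (u - s.m)) := by ring
        _ ≤ _ := mul_le_mul_of_nonneg_left a2 (by linarith)
    · nlinarith
  · by_cases hcase : s.R / 2 * s.x (n - s.m) ≤ s.x (u - s.m)
    · have hD := dom_of (lo := u - 2 * s.k) H hc' hcu.sub_m (by simpa using h.sub_m) (by omega)
        (by omega) (by omega) (by omega) hcase
      have a1 := big_up Hu hc' hcu ((hD.one H).mono le_rfl u2.le)
      have a2 := big_down H hc h (hD.mono (by omega) le_rfl)
      have := s.G1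
      calc s.x u ≤ s.G * s.x (u - s.m) := a1
        _ ≤ s.G * (s.R * s.x (n - s.m)) := mul_le_mul_of_nonneg_left r2 (by linarith)
        _ = s.R * (s.G * s.x (n - s.m)) := by ring
        _ ≤ _ := mul_le_mul_of_nonneg_left a2 (by linarith)
    · nlinarith

lemma inv_past {n : ℤ} (hn : n < 0) : s.Inv n := by
  have h14 := M14 (s := s)
  have κ0 := s.κ0; have γ1 := s.γ1; have R16 := s.R16
  have hm := mem_Icc.mp (m_mem (s := s))
  refine ⟨?_, fun hS => ?_, fun hT => ?_, fun hS hT => ?_⟩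
  · by_cases hS : s.S n
    · rw [s.pastS n hn hS]; linarith
    by_cases hT : s.T n
    · rw [s.pastC n hn hT]; linarith
    rw [s.pastO n hn hS hT]
  · obtain ⟨c, hc, h⟩ := S_cls hS
    rw [s.pastS n hn hS, s.pastS _ (by omega) (S_of hc h.sub_m)]
    refine ⟨le_rfl, le_rfl, by nlinarith, fun u u1 u2 hu => ?_⟩
    rw [s.pastS u (by omega) hu]
    constructor <;> nlinarith
  · rw [s.pastC n hn hT]
    have : 0 ≤ s.κ + s.k * (2 * s.R * s.κ) := by positivity
    constructor <;> linarith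
  · rw [s.pastO n hn hS hT]; exact κ0.le

lemma upto_all (N : ℕ) : s.Upto N := by
  induction N with
  | zero => exact fun u hu => inv_past (by simpa using hu)
  | succ N ih =>
    intro u hu
    rcases lt_or_ge u N with h | h
    · exact ih u h
    · have : u = N := by omega
      subst this
      exact (inv_step ih (by omega)).2

lemma D_pos {n : ℤ} (hn : 0 ≤ n) : 0 < lf s.k s.B s.x n := by
  obtain ⟨N, rfl⟩ := Int.eq_ofNat_of_zero_le hn
  exact (inv_step (upto_all N) hn).1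

lemma grow (t : ℕ) : s.γ0 ^ t ≤ s.x (t * s.m - s.m) := by
  have hm := mem_Icc.mp (m_mem (s := s))
  induction t with
  | zero =>
    rw [s.pastS _ (by simp; omega) (Or.inl (by simp [Cl]))]
    simp; linarith [M14 (s := s)]
  | succ t ih =>
    have e : ((t + 1 : ℕ) : ℤ) * s.m - s.m = ((t * s.m : ℕ) : ℤ) := by push_cast; ring
    rw [e]
    have := (big_step (upto_all (s := s) (t * s.m)) (by positivity)
      (Or.inl (by simp [Cl]))).2.1
    rw [pow_succ, mul_comm]
    refine le_trans (mul_le_mul_of_nonneg_left ih (by linarith [s.γ01])) ?_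
    simpa using this

lemma unbounded : ¬ ∃ C : ℝ, ∀ n : ℤ, 0 ≤ n → |s.x n| ≤ C := by
  rintro ⟨C, hC⟩
  obtain ⟨t, ht⟩ := pow_unbounded_of_one_lt C s.γ01
  have h1 := grow (s := s) (t + 1)
  have e : ((t + 1 : ℕ) : ℤ) * s.m - s.m = t * s.m := by push_cast; ring
  rw [e] at h1
  have h2 := hC (t * s.m) (by positivity)
  have h3 : s.γ0 ^ t ≤ s.γ0 ^ (t + 1) := pow_le_pow_right₀ s.γ01.le (by omega)
  have := le_abs_self (s.x (t * s.m))
  linarith

end St
end Pool.Agent.MP_01c7b3_an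

end MrgPart1

-- ======== part 2: formerly Pool.Agent.MP_01c7b3_an.Kernel
section MrgPart2

namespace Pool.Agent.MP_01c7b3_an
open Finset

/-- membership of a natural number in a set of indices -/
def mem (k : ℕ) (P : Finset (Fin (k + 1))) (d : ℕ) : Prop :=
  ∃ h : d < k + 1, (⟨d, h⟩ : Fin (k + 1)) ∈ P

/-- the two-class kernel structure -/
structure Ker (k m a : ℕ) (p q : ℕ → Prop) : Prop where
  ha : 1 ≤ a
  ham : 8 * a < m
  hmk : m ≤ k
  pm : p m
  p3 : p (3 * a)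
  q3 : q (3 * a)
  free : ∀ d ∈ Icc 1 k, (Cl m a 0 d ∨ Cl m a 1 d ∨ Cl m a (-1) d) → ¬ q d
  ker : ∀ n : ℤ, ¬ (Cl m a 0 n ∨ Cl m a 1 n) →
    ∃ d ∈ Icc 1 k, q d ∧ (Cl m a 0 (n - d) ∨ Cl m a 1 (n - d))
  ex3 : ∃ d ∈ Icc 1 k, q d ∧ Cl m a (-3) d
  ex2 : ∃ d ∈ Icc 1 k, q d ∧ Cl m a 2 d
  ex4 : ∃ d ∈ Icc 1 k, q d ∧ Cl m a 4 d

lemma pow_le_two (k : ℕ) (hk : 1 ≤ k) : (1 + 1 / (8 * (k : ℝ))) ^ (4 * k) ≤ 2 := by
  have hK : (0 : ℝ) < k := by exact_mod_cast hk
  have h1 : 1 + 1 / (8 * (k : ℝ)) ≤ Real.exp (1 / (8 * k)) := by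
    linarith [Real.add_one_le_exp (1 / (8 * (k : ℝ)))]
  have h2 := pow_le_pow_left₀ (by positivity) h1 (4 * k)
  rw [← Real.exp_nat_mul] at h2
  have e : ((4 * k : ℕ) : ℝ) * (1 / (8 * k)) = 1 / 2 := by push_cast; field_simp; norm_num
  rw [e] at h2
  have h3 : Real.exp (1 / 2) ≤ 2 := by
    have h4 : Real.exp (1 / 2) * Real.exp (1 / 2) = Real.exp 1 := by
      rw [← Real.exp_add]; norm_num
    have := Real.exp_one_lt_d9
    have := Real.exp_pos (1 / 2)
    nlinarith
  linarith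

theorem not_ESB {k m a : ℕ} {P Q : Finset (Fin (k + 1))}
    (h : Ker k m a (mem k P) (mem k Q)) : ¬ ESB k P Q := by
  classical
  intro hE
  obtain ⟨j, hj, qj, cj⟩ := h.ex3
  have hk : 9 ≤ k := by have := h.ha; have := h.ham; have := h.hmk; omega
  have hK : (9 : ℝ) ≤ k := by exact_mod_cast hk
  obtain ⟨κ, hκ⟩ : ∃ κ : ℝ, κ = 1 / (20000 * (k : ℝ) ^ 3) := ⟨_, rfl⟩
  obtain ⟨t, ht⟩ : ∃ t : ℝ, t = 1 / (20000 * (k : ℝ)) := ⟨_, rfl⟩
  have κ0 : 0 < κ := by rw [hκ]; positivity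
  have e1 : κ * k ^ 2 = t := by rw [hκ, ht]; field_simp
  have e2 : 1 / (8 * (k : ℝ)) = 2500 * t := by rw [ht]; field_simp; norm_num
  have t0 : 0 < t := by rw [ht]; positivity
  have t1 : t * k = 1 / 20000 := by rw [ht]; field_simp
  have t2 : t ≤ 1 / 20000 := by nlinarith
  have k1 : κ * k ≤ t := by nlinarith
  have k2 : κ ≤ t := by nlinarith
  let ε : ℝ := κ ^ 2 / (640 * (k : ℝ) ^ 2)
  have ε0 : 0 < ε := by positivity
  let g : ℝ := 1 + 1250 * t
  let b : ℕ → ℝ := fun d => if d = m then g else if d = 3 * a then 1 else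
    if mem k P d then ε else 0
  let B : ℕ → ℝ := fun d => if d = 3 * a ∨ d = j then 1 else if mem k Q d then κ else 0
  have hB : ∀ d, mem k Q d → κ ≤ B d := by
    intro d hd
    simp only [B, hd, if_true]
    split_ifs <;> linarith
  let init : ℤ → ℝ := fun n => if Cl m a 0 n ∨ Cl m a 1 n then 14 / κ ^ 2 else
    if Cl m a 3 n ∨ Cl m a 4 n then 1 else 0
  obtain ⟨x, hx0, hx1⟩ := exists_sol (fun x n => lf k b x n / lf k B x n)
    (fun x y n hxy => by simp only [lf_congr k _ x y n hxy]) init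
  have hm3 : m ≠ 3 * a := by have := h.ham; omega
  have hden : 0 < 1 - (κ + k * (2 * κ)) := by nlinarith
  let s : St :=
    { k := k, m := m, a := a, j := j, b := b, B := B, κ := κ, ε := ε, M := 14 / κ ^ 2,
      R := 160 * k, g := g, γ := 1 + 2500 * t, γ0 := 1 + 625 * t,
      G := (g + κ) / (1 - (κ + k * (2 * κ))), x := x,
      ha := h.ha, ham := h.ham, hmk := h.hmk, hj := hj, cj := cj,
      bm := by simp [b]
      b3 := by simp [b, hm3.symm]
      bo := by
        intro d h1 h2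
        simp only [b, h1, h2, if_false]
        split_ifs <;> constructor <;> linarith
      B3 := by simp [B]
      Bj := by simp [B]
      Bo := by
        intro d h1 h2
        simp only [B, h1, h2, or_self, if_false]
        split_ifs <;> constructor <;> linarith
      Bfree := by
        intro d hd hc
        have hq := h.free d hd hc
        have h1 : d ≠ 3 * a := by rintro rfl; exact hq h.q3
        have h2 : d ≠ j := by rintro rfl; exact hq qj
        simp [B, h1, h2, hq]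
      ker := fun n hn => by
        obtain ⟨d, hd, hq, hc⟩ := h.ker n hn
        exact ⟨d, hd, hB d hq, hc⟩
      ex2 := by
        obtain ⟨d, hd, hq, hc⟩ := h.ex2
        exact ⟨d, hd, hB d hq, hc⟩
      ex4 := by
        obtain ⟨d, hd, hq, hc⟩ := h.ex4
        exact ⟨d, hd, hB d hq, hc⟩
      pastS := fun n hn hS => by rw [hx0 n hn]; simp only [init, hS, if_true]
      pastC := fun n hn hT => by
        rw [hx0 n hn]
        have : ¬ (Cl m a 0 n ∨ Cl m a 1 n) := by
          rintro (h1 | h1) <;> rcases hT with h2 | h2 <;>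
            have := Cl.uniq h.ha h.ham h1 h2 (by omega) (by omega) <;> omega
        simp only [init, this, hT, if_true, if_false]
      pastO := fun n hn hS hT => by rw [hx0 n hn]; simp only [init, hS, hT, if_false]
      hrec := hx1
      κ0 := κ0
      κ1 := by linarith
      ε0 := ε0.le
      ε1 := by
        show κ ^ 2 / (640 * (k : ℝ) ^ 2) ≤ 1
        rw [div_le_one (by positivity)]; nlinarith
      g1 := by show 1 ≤ 1 + 1250 * t; linarith
      g2 := by show 1 + 1250 * t ≤ 2; linarith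
      R16 := by linarith
      κR := by nlinarith
      hM := by rw [show κ ^ 2 / 2 * (14 / κ ^ 2) = 7 by field_simp; norm_num]
      hε := by
        rw [show (k : ℝ) * (2 * (160 * k) * ε) = κ ^ 2 / 2 by
          simp only [ε]; field_simp; norm_num]
      γ1 := by linarith
      γ2 := by linarith
      γp := by rw [← e2]; exact pow_le_two k (by omega)
      nδ := by nlinarith
      nγ := by
        show 1 + 1250 * t + κ ≤ _
        have : (k : ℝ) * (2 * (160 * k) * κ) = 320 * t := by rw [← e1]; ring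
        rw [this]; nlinarith
      γ01 := by linarith
      nγ0 := by
        show _ ≤ 1 + 1250 * t
        have : κ * (3 + 2 * k) ≤ 5 * t := by nlinarith
        nlinarith
      G1 := by
        rw [le_div_iff₀ hden]
        show _ ≤ 1 + 1250 * t + κ
        nlinarith
      nG1 := by rw [div_mul_cancel₀ _ hden.ne']
      nG2 := by
        rw [div_mul_eq_mul_div, div_le_iff₀ hden]
        have hg : 1 ≤ g := by show 1 ≤ 1 + 1250 * t; linarith
        have a1 : 0 ≤ κ * (g * k - 9 * g) := mul_nonneg κ0.le (by nlinarith)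
        have a2 : 0 ≤ κ * κ * (k - 9) := by positivity
        have a3 : 0 ≤ κ * (g - 1) := mul_nonneg κ0.le (by linarith)
        nlinarith }
  refine s.unbounded (hE (fun i => b i) (fun i => B i) ?_ ?_ x ?_ ?_)
  · intro i
    have hi : mem k P i ↔ i ∈ P := ⟨fun ⟨_, h⟩ => h, fun h => ⟨i.2, h⟩⟩
    constructor
    · intro hP
      simp only [b, hi.mpr hP, if_true]
      split_ifs
      · show 0 < 1 + 1250 * t; linarith
      · norm_num
      · exact ε0
    · intro hP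
      have h0 : ¬ mem k P i := fun h => hP (hi.mp h)
      have h1 : (i : ℕ) ≠ m := fun e => h0 (e ▸ h.pm)
      have h2 : (i : ℕ) ≠ 3 * a := fun e => h0 (e ▸ h.p3)
      simp [b, h0, h1, h2]
  · intro i
    have hi : mem k Q i ↔ i ∈ Q := ⟨fun ⟨_, h⟩ => h, fun h => ⟨i.2, h⟩⟩
    constructor
    · intro hQ
      exact κ0.trans_le (hB _ (hi.mpr hQ))
    · intro hQ
      have h0 : ¬ mem k Q i := fun h => hQ (hi.mp h)
      have h1 : (i : ℕ) ≠ j := fun e => h0 (e ▸ qj)
      have h2 : (i : ℕ) ≠ 3 * a := fun e => h0 (e ▸ h.q3)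
      simp [B, h0, h1, h2]
  · intro n _ hn
    exact (St.inv_past (s := s) hn).1
  · intro n hn
    rw [form_eq_lf, form_eq_lf]
    exact ⟨St.D_pos (s := s) hn, hx1 n hn⟩

end Pool.Agent.MP_01c7b3_an

end MrgPart2

-- ======== part 3: formerly Pool.Agent.MP_01c7b3_an.Moment
section MrgPart3

namespace Pool.Agent.MP_01c7b3_an
open Finset

section
variable {ι : Type} [Fintype ι] [DecidableEq ι]

/-- the assignments that agree with `f` on `N` -/
def box (N : Finset ι) (f : ι → Bool) : Finset (ι → Bool) :=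
  univ.filter fun ω => ∀ x ∈ N, ω x = f x

lemma mem_box {N : Finset ι} {f ω : ι → Bool} : ω ∈ box N f ↔ ∀ x ∈ N, ω x = f x := by
  simp [box]

lemma card_box (N : Finset ι) (f : ι → Bool) :
    ((box N f).card : ℝ) * 2 ^ N.card = 2 ^ Fintype.card ι := by
  have e : box N f = Fintype.piFinset fun x => if x ∈ N then {f x} else univ := by
    ext ω
    simp only [mem_box, Fintype.mem_piFinset]
    constructor
    · intro h x
      split_ifs with hx
      · simp [h x hx]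
      · simp
    · intro h x hx
      simpa [hx] using h x
  rw [e, Fintype.card_piFinset]
  have : ∏ x : ι, (if x ∈ N then ({f x} : Finset Bool) else univ).card
      = ∏ x : ι, (if x ∈ N then 1 else 2) := by
    refine Finset.prod_congr rfl fun x _ => ?_
    split_ifs <;> simp
  rw [this, Finset.prod_ite]
  simp only [Finset.prod_const, one_pow, one_mul]
  push_cast
  rw [← pow_add]
  congr 1
  have h1 : (univ.filter fun x => x ∉ N) = Nᶜ := by ext x; simp
  rw [h1, Finset.card_compl]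
  have := Finset.card_le_univ N
  omega

lemma card_box_inter (N N' : Finset ι) (f f' : ι → Bool) :
    ((box N f ∩ box N' f').card : ℝ) * 2 ^ N.card * 2 ^ N'.card
      ≤ 2 ^ (N ∩ N').card * 2 ^ Fintype.card ι := by
  have hs : box N f ∩ box N' f' ⊆ box (N ∪ N') (fun x => if x ∈ N then f x else f' x) := by
    intro ω hω
    simp only [mem_inter, mem_box, mem_union] at hω ⊢
    intro x hx
    split_ifs with h
    · exact hω.1 x h
    · exact hω.2 x (hx.resolve_left h)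
  have h1 : ((box N f ∩ box N' f').card : ℝ)
      ≤ (box (N ∪ N') (fun x => if x ∈ N then f x else f' x)).card := by
    exact_mod_cast Finset.card_le_card hs
  rw [← card_box (N ∪ N') (fun x => if x ∈ N then f x else f' x), mul_assoc, ← pow_add,
    ← Finset.card_union_add_card_inter, pow_add]
  have : (0 : ℝ) ≤ 2 ^ (N ∪ N').card * 2 ^ (N ∩ N').card := by positivity
  nlinarith

theorem second_moment {I : Type} (S : Finset I) (hS : S.Nonempty) (N : I → Finset ι)
    (f : I → ι → Bool) (Bad : I → Finset (ι → Bool)) (β V : ℝ)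
    (hβ : ∀ i ∈ S, ((box (N i) (f i) ∩ Bad i).card : ℝ) * 2 ^ (N i).card
      ≤ β * 2 ^ Fintype.card ι)
    (hV : ∑ i ∈ S, ∑ i' ∈ S, ((2 : ℝ) ^ (N i ∩ N i').card - 1) ≤ V)
    (F : Finset (ι → Bool)) (hF : ∀ ω ∈ F, ∀ i ∈ S, ω ∈ box (N i) (f i) → ω ∈ Bad i) :
    (F.card : ℝ) ≤ (4 * V / (S.card : ℝ) ^ 2 + 2 * β) * 2 ^ Fintype.card ι := by
  set n : ℝ := (S.card : ℝ) with hn
  have n0 : 0 < n := by rw [hn]; exact_mod_cast hS.card_pos
  set W : ℝ := 2 ^ Fintype.card ι with hW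
  let y : I → (ι → Bool) → ℝ := fun i ω => if ω ∈ box (N i) (f i) then 2 ^ (N i).card else 0
  let z : I → (ι → Bool) → ℝ := fun i ω =>
    if ω ∈ box (N i) (f i) ∩ Bad i then 2 ^ (N i).card else 0
  have sy : ∀ i, ∑ ω, y i ω = W := by
    intro i
    simp only [y]
    rw [Finset.sum_ite_mem, univ_inter, Finset.sum_const, nsmul_eq_mul, card_box]
  have sz : ∀ i ∈ S, ∑ ω, z i ω ≤ β * W := by
    intro i hi
    simp only [z]
    rw [Finset.sum_ite_mem, univ_inter, Finset.sum_const, nsmul_eq_mul]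
    exact hβ i hi
  have syy : ∀ i i', ∑ ω, y i ω * y i' ω ≤ 2 ^ (N i ∩ N i').card * W := by
    intro i i'
    have : ∀ ω, y i ω * y i' ω = if ω ∈ box (N i) (f i) ∩ box (N i') (f i') then
        2 ^ (N i).card * 2 ^ (N i').card else 0 := by
      intro ω
      simp only [y, mem_inter]
      split_ifs <;> simp_all
    simp only [this]
    rw [Finset.sum_ite_mem, univ_inter, Finset.sum_const, nsmul_eq_mul, ← mul_assoc]
    exact card_box_inter _ _ _ _
  have hcard : ∑ _ω : ι → Bool, (1 : ℝ) = W := by simp [hW]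
  have var : ∑ ω, (∑ i ∈ S, y i ω - n) ^ 2 ≤ V * W := by
    have e : ∀ ω, (∑ i ∈ S, y i ω - n) ^ 2
        = ∑ i ∈ S, ∑ i' ∈ S, (y i ω * y i' ω - y i ω - y i' ω + 1) := by
      intro ω
      have : ∑ i ∈ S, y i ω - n = ∑ i ∈ S, (y i ω - 1) := by
        rw [Finset.sum_sub_distrib]; simp [hn]
      rw [this, sq, Finset.sum_mul_sum]
      refine Finset.sum_congr rfl fun i _ => Finset.sum_congr rfl fun i' _ => by ring
    simp only [e]
    rw [Finset.sum_comm]
    refine le_trans ?_ (mul_le_mul_of_nonneg_right hV (by positivity))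
    rw [Finset.sum_mul]
    refine Finset.sum_le_sum fun i _ => ?_
    rw [Finset.sum_comm, Finset.sum_mul]
    refine Finset.sum_le_sum fun i' _ => ?_
    rw [Finset.sum_add_distrib, Finset.sum_sub_distrib, Finset.sum_sub_distrib, sy, sy, hcard]
    have := syy i i'
    linarith
  have mean : ∑ ω, ∑ i ∈ S, z i ω ≤ n * (β * W) := by
    rw [Finset.sum_comm]
    refine (Finset.sum_le_sum sz).trans ?_
    simp [hn]
  have z0 : ∀ ω, 0 ≤ ∑ i ∈ S, z i ω := fun ω => Finset.sum_nonneg fun i _ => by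
    simp only [z]; split_ifs <;> positivity
  have pt : ∀ ω, (if ω ∈ F then (1 : ℝ) else 0)
      ≤ 4 / n ^ 2 * (∑ i ∈ S, y i ω - n) ^ 2 + 2 / n * ∑ i ∈ S, z i ω := by
    intro ω
    have h0 := z0 ω
    split_ifs with h
    · have e : ∑ i ∈ S, y i ω = ∑ i ∈ S, z i ω := by
        refine Finset.sum_congr rfl fun i hi => ?_
        simp only [y, z, mem_inter]
        by_cases hb : ω ∈ box (N i) (f i)
        · simp [hb, hF ω h i hi hb]
        · simp [hb]
      rw [e]
      set Z := ∑ i ∈ S, z i ω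
      have e2 : 4 / n ^ 2 * (Z - n) ^ 2 + 2 / n * Z = (4 * (Z - n) ^ 2 + 2 * n * Z) / n ^ 2 := by
        field_simp
      rw [e2, le_div_iff₀ (by positivity)]
      nlinarith [sq_nonneg (4 * Z - 3 * n)]
    · positivity
  have tot := Finset.sum_le_sum fun ω (_ : ω ∈ (univ : Finset (ι → Bool))) => pt ω
  rw [Finset.sum_ite_mem, univ_inter, Finset.sum_const, nsmul_eq_mul, mul_one,
    Finset.sum_add_distrib, ← Finset.mul_sum, ← Finset.mul_sum] at tot
  have a1 : 4 / n ^ 2 * ∑ ω, (∑ i ∈ S, y i ω - n) ^ 2 ≤ 4 / n ^ 2 * (V * W) :=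
    mul_le_mul_of_nonneg_left var (by positivity)
  have a2 : 2 / n * ∑ ω, ∑ i ∈ S, z i ω ≤ 2 / n * (n * (β * W)) :=
    mul_le_mul_of_nonneg_left mean (by positivity)
  have e3 : 4 / n ^ 2 * (V * W) + 2 / n * (n * (β * W)) = (4 * V / n ^ 2 + 2 * β) * W := by
    field_simp
  linarith

end
end Pool.Agent.MP_01c7b3_an

end MrgPart3

-- ======== part 4: formerly Pool.Agent.MP_01c7b3_an.Cols
section MrgPart4

namespace Pool.Agent.MP_01c7b3_an
open Finset

/-- positions: `false` for the numerator, `true` for the denominator -/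
def NN (k : ℕ) (DP DQ : Finset ℕ) : Finset (Bool × Fin (k + 1)) :=
  univ.filter fun x => (x.2 : ℕ) ∈ (if x.1 = true then DQ else DP)

lemma mem_NN_true {k : ℕ} {DP DQ : Finset ℕ} {i : Fin (k + 1)} :
    (true, i) ∈ NN k DP DQ ↔ (i : ℕ) ∈ DQ := by simp [NN]

lemma mem_NN_false {k : ℕ} {DP DQ : Finset ℕ} {i : Fin (k + 1)} :
    (false, i) ∈ NN k DP DQ ↔ (i : ℕ) ∈ DP := by simp [NN]

lemma NN_inter (k : ℕ) (DP DQ DP' DQ' : Finset ℕ) :
    NN k DP DQ ∩ NN k DP' DQ' = NN k (DP ∩ DP') (DQ ∩ DQ') := by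
  ext ⟨b, i⟩
  cases b <;> simp [mem_NN_true, mem_NN_false]

lemma card_NN_le (k : ℕ) (DP DQ : Finset ℕ) : (NN k DP DQ).card ≤ DP.card + DQ.card := by
  rw [← Finset.card_disjSum]
  refine Finset.card_le_card_of_injOn
    (fun x => if x.1 = true then Sum.inr (x.2 : ℕ) else Sum.inl (x.2 : ℕ)) ?_ ?_
  · rintro ⟨b, i⟩ hx
    cases b
    · simpa [mem_NN_false] using hx
    · simpa [mem_NN_true] using hx
  · rintro ⟨b, i⟩ - ⟨b', i'⟩ - h
    cases b <;> cases b' <;> simp_all [Fin.ext_iff]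

lemma le_card_NN (k : ℕ) (D : Finset ℕ) (hD : D ⊆ Icc 1 k) : D.card ≤ (NN k ∅ D).card := by
  refine Finset.card_le_card_of_injOn
    (fun d => (true, (⟨d % (k + 1), Nat.mod_lt _ (by omega)⟩ : Fin (k + 1)))) ?_ ?_
  · intro d hd
    have := (mem_Icc.mp (hD hd)).2
    have e : d % (k + 1) = d := Nat.mod_eq_of_lt (by omega)
    simpa [mem_NN_true, e] using hd
  · intro d hd d' hd' h
    have h1 := (mem_Icc.mp (hD hd)).2
    have h2 := (mem_Icc.mp (hD hd')).2
    simp only [Prod.mk.injEq, Fin.mk.injEq, true_and] at h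
    rwa [Nat.mod_eq_of_lt (by omega), Nat.mod_eq_of_lt (by omega)] at h

/-- the delays congruent to `r` modulo `m` -/
def col (k m : ℕ) (r : ℤ) : Finset ℕ := (Icc 1 k).filter fun d => (m : ℤ) ∣ (d : ℤ) - r

lemma mem_col {k m : ℕ} {r : ℤ} {d : ℕ} :
    d ∈ col k m r ↔ d ∈ Icc 1 k ∧ (m : ℤ) ∣ (d : ℤ) - r := by simp [col]

lemma col_sub (k m : ℕ) (r : ℤ) : col k m r ⊆ Icc 1 k := Finset.filter_subset _ _

lemma le_card_col {k m J : ℕ} (hm : 1 ≤ m) (h : J * m ≤ k) (r : ℤ) : J ≤ (col k m r).card := by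
  have hm' : (0 : ℤ) < m := by omega
  obtain ⟨r0, hr0⟩ := Int.eq_ofNat_of_zero_le (Int.emod_nonneg (r - 1) hm'.ne')
  have hlt : r0 < m := by have := Int.emod_lt_of_pos (r - 1) hm'; omega
  have := Finset.card_le_card_of_injOn (s := range J) (t := col k m r)
    (fun t => r0 + 1 + t * m) ?_ ?_
  · simpa using this
  · intro t ht
    have ht' : t + 1 ≤ J := by simpa using ht
    have : (t + 1) * m ≤ J * m := Nat.mul_le_mul_right _ ht'
    simp only [coe_filter, col, Set.mem_ofPred_eq, mem_Icc]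
    refine ⟨⟨by omega, by nlinarith⟩, t - (r - 1) / m, ?_⟩
    have := Int.emod_add_mul_ediv (r - 1) m
    push_cast
    linarith
  · intro t _ t' _ h
    have : t * m = t' * m := by simpa using h
    exact Nat.eq_of_mul_eq_mul_right hm this

lemma card_col_le {k m J : ℕ} (hm : 1 ≤ m) (h : k < (J + 1) * m) (r : ℤ) :
    (col k m r).card ≤ J + 1 := by
  have := Finset.card_le_card_of_injOn (s := col k m r) (t := range (J + 1))
    (fun d => d / m) ?_ ?_
  · simpa using this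
  · intro d hd
    have := (mem_Icc.mp (col_sub k m r hd)).2
    simp only [coe_range, Set.mem_Iio]
    rw [Nat.div_lt_iff_lt_mul (by omega)]
    omega
  · intro d hd d' hd' e
    have h1 := (mem_col.mp hd).2
    have h2 := (mem_col.mp hd').2
    have h3 : (m : ℤ) ∣ (d : ℤ) - d' := by simpa using dvd_sub h1 h2
    have h4 : d % m = d' % m := (Nat.modEq_iff_dvd.mpr h3).symm
    have e' : d / m = d' / m := e
    rw [← Nat.div_add_mod d m, ← Nat.div_add_mod d' m, e', h4]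

lemma no_common {k m m' J δ : ℕ} (h1 : k < (J + 1) * m) (h2 : J * m' ≤ k) (hlt : m < m')
    (h0 : 0 < δ) (hk : δ ≤ k) (d1 : m ∣ δ) (d2 : m' ∣ δ) : False := by
  obtain ⟨t, ht⟩ := d1
  obtain ⟨t', ht'⟩ := d2
  have hm : 0 < m := by rcases Nat.eq_zero_or_pos m with rfl | h <;> omega
  have a1 : t ≤ J := by
    by_contra hc
    have : (J + 1) * m ≤ t * m := Nat.mul_le_mul_right _ (by omega)
    nlinarith
  have a0 : 0 < t' := by rcases Nat.eq_zero_or_pos t' with rfl | h <;> omega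
  have a2 : t' + 1 ≤ t := by
    by_contra hc
    have : t ≤ t' := by omega
    nlinarith
  have a3 : J * m' * t' < (J + 1) * m * t' := by
    have : J * m' < (J + 1) * m := by omega
    nlinarith
  have a4 : J * (m * t) < (J + 1) * m * t' := by
    rw [← ht, ht']; linarith
  have a5 : J * t < (J + 1) * t' := by
    by_contra hc
    have : (J + 1) * t' * m ≤ J * t * m := Nat.mul_le_mul_right _ (by omega)
    nlinarith
  nlinarith

/-- the window condition -/
def Win (k J m : ℕ) : Prop := J * m ≤ k ∧ k < (J + 1) * m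

lemma no_common' {k m m' J δ : ℕ} (h1 : Win k J m) (h2 : Win k J m') (hne : m ≠ m')
    (h0 : 0 < δ) (hk : δ ≤ k) (d1 : m ∣ δ) (d2 : m' ∣ δ) : False := by
  rcases lt_or_gt_of_ne hne with h | h
  · exact no_common h1.2 h2.1 h h0 hk d1 d2
  · exact no_common h2.2 h1.1 h h0 hk d2 d1

lemma card_col_inter {k m m' J : ℕ} (h1 : Win k J m) (h2 : Win k J m') (hne : m ≠ m')
    (r r' : ℤ) : (col k m r ∩ col k m' r').card ≤ 1 := by
  rw [Finset.card_le_one]
  have key : ∀ d ∈ col k m r ∩ col k m' r', ∀ d' ∈ col k m r ∩ col k m' r', ¬ d < d' := by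
    intro d hd d' hd' hlt
    simp only [mem_inter, mem_col, mem_Icc] at hd hd'
    refine no_common' (δ := d' - d) h1 h2 hne (by omega) (by omega) ?_ ?_
    · have := dvd_sub hd'.1.2 hd.1.2
      rw [← Int.natCast_dvd_natCast, Nat.cast_sub hlt.le]
      simpa using this
    · have := dvd_sub hd'.2.2 hd.2.2
      rw [← Int.natCast_dvd_natCast, Nat.cast_sub hlt.le]
      simpa using this
  intro d hd d' hd'
  have := key d hd d' hd'
  have := key d' hd' d hd
  omega

lemma col_zero_inter {k m m' J : ℕ} (h1 : Win k J m) (h2 : Win k J m') (hne : m ≠ m') :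
    col k m 0 ∩ col k m' 0 = ∅ := by
  rw [Finset.eq_empty_iff_forall_notMem]
  intro d hd
  simp only [mem_inter, mem_col, mem_Icc, sub_zero, Int.natCast_dvd_natCast] at hd
  exact no_common' h1 h2 hne (by omega) hd.1.1.2 hd.1.2 hd.2.2

/-- the part of the denominator positions that depends on `a` -/
def D1 (k m a : ℕ) : Finset ℕ := insert (3 * a) (col k m a ∪ col k m (-a))
/-- denominator positions -/
def DQ (k m a : ℕ) : Finset ℕ := col k m 0 ∪ D1 k m a
/-- numerator positions -/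
def DP (m a : ℕ) : Finset ℕ := {m, 3 * a}

lemma card_D1 {k m J : ℕ} (hm : 1 ≤ m) (h : k < (J + 1) * m) (a : ℕ) :
    (D1 k m a).card ≤ 2 * J + 3 := by
  have h1 := Finset.card_insert_le (3 * a) (col k m a ∪ col k m (-a))
  have h2 := Finset.card_union_le (col k m a) (col k m (-a))
  have h3 := card_col_le hm h (a : ℤ)
  have h4 := card_col_le hm h (-a : ℤ)
  unfold D1; omega

lemma card_DQ {k m J : ℕ} (hm : 1 ≤ m) (h : k < (J + 1) * m) (a : ℕ) :
    (DQ k m a).card ≤ 3 * J + 4 := by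
  have h1 := card_D1 hm h a
  have h2 := Finset.card_union_le (col k m 0) (D1 k m a)
  have h3 := card_col_le hm h 0
  unfold DQ; omega

lemma card_DP (m a : ℕ) : (DP m a).card ≤ 2 := Finset.card_le_two

lemma eq_of_dvd {m a a' : ℕ} (ha : a < m) (ha' : a' < m) (h : (m : ℤ) ∣ (a : ℤ) - a') :
    a = a' := by
  have h4 : a' % m = a % m := Nat.modEq_iff_dvd.mpr h
  rw [Nat.mod_eq_of_lt ha, Nat.mod_eq_of_lt ha'] at h4
  exact h4.symm

lemma same_m {k m J a a' : ℕ} (h : k < (J + 1) * m) (ha : 1 ≤ a) (ham : 8 * a < m)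
    (ham' : 8 * a' < m) (hne : a ≠ a') : (DQ k m a ∩ DQ k m a').card ≤ J + 3 := by
  have hs : DQ k m a ∩ DQ k m a' ⊆ insert (3 * a) (insert (3 * a') (col k m 0)) := by
    intro d hd
    simp only [DQ, D1, mem_inter, mem_union, mem_insert] at hd ⊢
    obtain ⟨h1 | h1 | h1 | h1, h2 | h2 | h2 | h2⟩ := hd <;> try tauto
    all_goals
      exfalso
      have h3 := dvd_sub (mem_col.mp h2).2 (mem_col.mp h1).2
    · exact hne (eq_of_dvd (m := m) (by omega) (by omega) (by simpa using h3))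
    · have h4 : (m : ℤ) ∣ ((a + a' : ℕ) : ℤ) - (0 : ℕ) := by
        have e : (d : ℤ) - -(a' : ℤ) - (d - a) = ((a + a' : ℕ) : ℤ) - (0 : ℕ) := by
          push_cast; ring
        rwa [e] at h3
      have := eq_of_dvd (by omega) (by omega) h4
      omega
    · have h4 : (m : ℤ) ∣ ((0 : ℕ) : ℤ) - ((a + a' : ℕ) : ℤ) := by
        have e : (d : ℤ) - (a' : ℤ) - (d - -a) = ((0 : ℕ) : ℤ) - ((a + a' : ℕ) : ℤ) := by
          push_cast; ring
        rwa [e] at h3
      have := eq_of_dvd (by omega) (by omega) h4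
      omega
    · have h4 : (m : ℤ) ∣ (a' : ℤ) - a := by
        have e : (d : ℤ) - -(a' : ℤ) - (d - -a) = (a' : ℤ) - a := by ring
        rwa [e] at h3
      exact hne (eq_of_dvd (by omega) (by omega) h4).symm
  have h1 := Finset.card_le_card hs
  have h2 := Finset.card_insert_le (3 * a) (insert (3 * a') (col k m 0))
  have h3 := Finset.card_insert_le (3 * a') (col k m 0)
  have h4 := card_col_le (by omega) h 0
  omega

lemma diff_m {k m m' J : ℕ} (h1 : Win k J m) (h2 : Win k J m') (hne : m ≠ m') (a a' : ℕ) :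
    (DQ k m a ∩ DQ k m' a').card ≤ 11 := by
  have hs : DQ k m a ∩ DQ k m' a' ⊆ insert (3 * a) (insert (3 * a')
      ((({0, (a : ℤ), -(a : ℤ)} : Finset ℤ) ×ˢ ({0, (a' : ℤ), -(a' : ℤ)} : Finset ℤ)).biUnion
        fun r => col k m r.1 ∩ col k m' r.2)) := by
    intro d hd
    simp only [DQ, D1, mem_inter, mem_union, mem_insert, mem_biUnion, mem_product,
      mem_singleton, Prod.exists] at hd ⊢
    obtain ⟨h1 | h1 | h1 | h1, h2 | h2 | h2 | h2⟩ := hd <;> first
      | exact Or.inl h1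
      | exact Or.inr (Or.inl h2)
      | exact Or.inr (Or.inr ⟨_, _, ⟨by simp, by simp⟩, h1, h2⟩)
  have h3 := Finset.card_le_card hs
  have h4 := Finset.card_biUnion_le_card_mul
    (({0, (a : ℤ), -(a : ℤ)} : Finset ℤ) ×ˢ ({0, (a' : ℤ), -(a' : ℤ)} : Finset ℤ))
    (fun r => col k m r.1 ∩ col k m' r.2) 1 (fun r _ => card_col_inter h1 h2 hne r.1 r.2)
  rw [Finset.card_product] at h4
  have h5 : ({0, (a : ℤ), -(a : ℤ)} : Finset ℤ).card ≤ 3 := Finset.card_le_three
  have h6 : ({0, (a' : ℤ), -(a' : ℤ)} : Finset ℤ).card ≤ 3 := Finset.card_le_three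
  have h7 := Nat.mul_le_mul h5 h6
  refine h3.trans ((Finset.card_insert_le _ _).trans ?_)
  have := Finset.card_insert_le (3 * a')
      ((({0, (a : ℤ), -(a : ℤ)} : Finset ℤ) ×ˢ ({0, (a' : ℤ), -(a' : ℤ)} : Finset ℤ)).biUnion
        fun r => col k m r.1 ∩ col k m' r.2)
  omega

lemma sum_D1 {k m A : ℕ} (hA : 8 * A < m) (X : Finset ℕ) :
    ∑ a ∈ Icc 1 A, (D1 k m a ∩ X).card ≤ 3 * X.card := by
  have e : ∀ a, (D1 k m a ∩ X).card = ∑ d ∈ X, if d ∈ D1 k m a then 1 else 0 := by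
    intro a
    rw [Finset.sum_ite_mem, Finset.inter_comm]; simp
  simp only [e]
  rw [Finset.sum_comm, mul_comm, ← smul_eq_mul, ← Finset.sum_const]
  refine Finset.sum_le_sum fun d _ => ?_
  rw [← Finset.card_filter]
  have hs : (Icc 1 A).filter (fun a => d ∈ D1 k m a) ⊆
      (Icc 1 A).filter (fun a => d = 3 * a) ∪ ((Icc 1 A).filter (fun a : ℕ => d ∈ col k m a)
        ∪ (Icc 1 A).filter (fun a : ℕ => d ∈ col k m (-a))) := by
    intro a ha
    simp only [D1, mem_filter, mem_insert, mem_union] at ha ⊢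
    tauto
  have h1 : ((Icc 1 A).filter (fun a => d = 3 * a)).card ≤ 1 := by
    rw [Finset.card_le_one]
    intro a ha a' ha'
    simp only [mem_filter] at ha ha'
    omega
  have h2 : ((Icc 1 A).filter (fun a : ℕ => d ∈ col k m a)).card ≤ 1 := by
    rw [Finset.card_le_one]
    intro a ha a' ha'
    simp only [mem_filter, mem_Icc] at ha ha'
    have h3 := dvd_sub (mem_col.mp ha'.2).2 (mem_col.mp ha.2).2
    exact eq_of_dvd (m := m) (by omega) (by omega) (by simpa using h3)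
  have h3 : ((Icc 1 A).filter (fun a : ℕ => d ∈ col k m (-a))).card ≤ 1 := by
    rw [Finset.card_le_one]
    intro a ha a' ha'
    simp only [mem_filter, mem_Icc] at ha ha'
    have h3 := dvd_sub (mem_col.mp ha.2).2 (mem_col.mp ha'.2).2
    refine eq_of_dvd (m := m) (by omega) (by omega) ?_
    have e : (d : ℤ) - -(a : ℤ) - (d - -(a' : ℤ)) = (a : ℤ) - a' := by ring
    rwa [e] at h3
  have := (Finset.card_le_card hs).trans ((Finset.card_union_le _ _).trans
    (Nat.add_le_add_left (Finset.card_union_le _ _) _))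
  omega

lemma sum_diff_m {k m m' J A : ℕ} (h1 : Win k J m) (h2 : Win k J m') (hne : m ≠ m')
    (hA : 8 * A < m) (hA' : 8 * A < m') :
    ∑ a ∈ Icc 1 A, ∑ a' ∈ Icc 1 A, ((DP m a ∩ DP m' a').card + (DQ k m a ∩ DQ k m' a').card)
      ≤ A * (18 * J + 25) := by
  have b1 : ∀ a ∈ Icc 1 A, ∀ a' ∈ Icc 1 A,
      (DP m a ∩ DP m' a').card + (DQ k m a ∩ DQ k m' a').card
      ≤ (if a' = a then 1 else 0) + ((D1 k m a ∩ DQ k m' a').card
        + (D1 k m' a' ∩ DQ k m a).card) := by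
    intro a ha a' ha'
    have ha1 := (mem_Icc.mp ha).2
    have ha2 := (mem_Icc.mp ha').2
    apply Nat.add_le_add
    · split_ifs with h
      · subst h
        refine (Finset.card_le_card (t := {3 * a'}) ?_).trans (by simp)
        intro d hd
        simp only [DP, mem_inter, mem_insert, mem_singleton] at hd ⊢
        omega
      · rw [Nat.le_zero, Finset.card_eq_zero, Finset.eq_empty_iff_forall_notMem]
        intro d hd
        simp only [DP, mem_inter, mem_insert, mem_singleton] at hd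
        omega
    · refine (Finset.card_le_card ?_).trans (Finset.card_union_le _ _)
      intro d hd
      have h0 : d ∉ col k m 0 ∩ col k m' 0 := by rw [col_zero_inter h1 h2 hne]; simp
      simp only [DQ, mem_inter, mem_union] at hd h0 ⊢
      tauto
  refine (Finset.sum_le_sum fun a ha => Finset.sum_le_sum fun a' ha' => b1 a ha a' ha').trans ?_
  simp only [Finset.sum_add_distrib]
  have c1 : ∑ a ∈ Icc 1 A, ∑ a' ∈ Icc 1 A, (if a' = a then 1 else 0) ≤ A := by
    refine (Finset.sum_le_sum (g := fun _ => 1) fun a _ => ?_).trans (by simp)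
    rw [Finset.sum_ite_eq']; split_ifs <;> omega
  have c2 : ∑ a ∈ Icc 1 A, ∑ a' ∈ Icc 1 A, (D1 k m a ∩ DQ k m' a').card
      ≤ A * (3 * (3 * J + 4)) := by
    rw [Finset.sum_comm]
    refine (Finset.sum_le_sum (g := fun _ => 3 * (3 * J + 4)) fun a' _ => ?_).trans (by simp)
    exact (sum_D1 hA _).trans (Nat.mul_le_mul_left _ (card_DQ (by omega) h2.2 a'))
  have c3 : ∑ a ∈ Icc 1 A, ∑ a' ∈ Icc 1 A, (D1 k m' a' ∩ DQ k m a).card
      ≤ A * (3 * (3 * J + 4)) := by
    refine (Finset.sum_le_sum (g := fun _ => 3 * (3 * J + 4)) fun a _ => ?_).trans (by simp)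
    exact (sum_D1 hA' _).trans (Nat.mul_le_mul_left _ (card_DQ (by omega) h1.2 a))
  nlinarith

end Pool.Agent.MP_01c7b3_an

end MrgPart4

-- ======== part 5: formerly Pool.Agent.MP_01c7b3_an.Upper
section MrgPart5

namespace Pool.Agent.MP_01c7b3_an
open Finset

/-- the prescribed positions -/
def NS (k : ℕ) (i : ℕ × ℕ) : Finset (Bool × Fin (k + 1)) := NN k (DP i.1 i.2) (DQ k i.1 i.2)

/-- the prescribed values -/
def ff (k : ℕ) (i : ℕ × ℕ) : Bool × Fin (k + 1) → Bool :=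
  fun x => if x.1 = true then decide ((x.2 : ℕ) = 3 * i.2) else true

/-- no denominator delay in `D` -/
def zero (k : ℕ) (D : Finset ℕ) : Finset (Bool × Fin (k + 1) → Bool) :=
  box (NN k ∅ D) fun _ => false

open Classical in
/-- the residues treated generically -/
noncomputable def gen (m a : ℕ) : Finset ℕ :=
  (range m).filter fun r => ¬ Cl m a 0 r ∧ ¬ Cl m a 1 r ∧ ¬ Cl m a (-1) r ∧ ¬ Cl m a 2 r

/-- the bad event -/
noncomputable def Bad (k : ℕ) (i : ℕ × ℕ) : Finset (Bool × Fin (k + 1) → Bool) :=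
  (({2, -2, 4, -3} : Finset ℤ).biUnion fun t => zero k (col k i.1 (t * i.2))) ∪
    (gen i.1 i.2).biUnion fun r => zero k (col k i.1 r ∪ col k i.1 (r - i.2))

/-- the set of indices read off an assignment -/
def bit (k : ℕ) (ω : Bool × Fin (k + 1) → Bool) (b : Bool) (d : ℕ) : Prop :=
  ∃ h : d < k + 1, ω (b, ⟨d, h⟩) = true

lemma of_not_zero {k : ℕ} {ω : Bool × Fin (k + 1) → Bool} {D : Finset ℕ} (h : ω ∉ zero k D) :
    ∃ d ∈ D, bit k ω true d := by
  simp only [zero, mem_box, not_forall] at h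
  obtain ⟨⟨b, i⟩, h1, h2⟩ := h
  cases b
  · simp [mem_NN_false] at h1
  · exact ⟨i, mem_NN_true.mp h1, i.2, by simpa using h2⟩

lemma ker_of {k m a : ℕ} (ha : 1 ≤ a) (ham : 8 * a < m) (hmk : m ≤ k)
    {ω : Bool × Fin (k + 1) → Bool} (h1 : ω ∈ box (NS k (m, a)) (ff k (m, a)))
    (h2 : ω ∉ Bad k (m, a)) : Ker k m a (bit k ω false) (bit k ω true) := by
  rw [mem_box] at h1
  simp only [Bad, mem_union, mem_biUnion, not_or, not_exists, not_and] at h2
  have sp : ∀ t ∈ ({2, -2, 4, -3} : Finset ℤ), ∃ d ∈ Icc 1 k, bit k ω true d ∧ Cl m a t d := by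
    intro t ht
    obtain ⟨d, hd, hq⟩ := of_not_zero (h2.1 t ht)
    exact ⟨d, (mem_col.mp hd).1, hq, (mem_col.mp hd).2⟩
  refine ⟨ha, ham, hmk, ⟨by omega, ?_⟩, ⟨by omega, ?_⟩, ⟨by omega, ?_⟩, ?_, ?_,
    sp _ (by simp), sp _ (by simp), sp _ (by simp)⟩
  · rw [h1 _ (mem_NN_false.mpr (by simp [DP]))]; simp [ff]
  · rw [h1 _ (mem_NN_false.mpr (by simp [DP]))]; simp [ff]
  · rw [h1 _ (mem_NN_true.mpr (by simp [DQ, D1]))]; simp [ff]
  · rintro d hd hc ⟨hlt, hq⟩
    have hm : d ∈ DQ k m a := by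
      simp only [DQ, D1, mem_union, mem_insert, mem_col]
      rcases hc with h | h | h
      · exact Or.inl ⟨hd, by simpa [Cl] using h⟩
      · exact Or.inr (Or.inr (Or.inl ⟨hd, by simpa [Cl] using h⟩))
      · exact Or.inr (Or.inr (Or.inr ⟨hd, by simpa [Cl] using h⟩))
    rw [h1 _ (mem_NN_true.mpr hm)] at hq
    have e : d = 3 * a := by simpa [ff] using hq
    subst e
    have h3 : Cl m a 3 ((3 * a : ℕ) : ℤ) := by simpa using Cl.mul_a m a 3
    rcases hc with h | h | h <;>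
      have := Cl.uniq ha ham h h3 (by omega) (by omega) <;> omega
  · intro n hn
    rw [not_or] at hn
    by_cases c1 : Cl m a (-1) n
    · obtain ⟨d, hd, hq, hc⟩ := sp (-2) (by simp)
      exact ⟨d, hd, hq, Or.inr (by simpa using c1.sub hc)⟩
    by_cases c2 : Cl m a 2 n
    · obtain ⟨d, hd, hq, hc⟩ := sp 2 (by simp)
      exact ⟨d, hd, hq, Or.inl (by simpa using c2.sub hc)⟩
    have hm' : (0 : ℤ) < m := by omega
    obtain ⟨r, hr⟩ := Int.eq_ofNat_of_zero_le (Int.emod_nonneg n hm'.ne')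
    have hlt : r < m := by have := Int.emod_lt_of_pos n hm'; omega
    have hd0 : (m : ℤ) ∣ n - r := ⟨n / m, by have := Int.emod_add_mul_ediv n m; linarith⟩
    have tr : ∀ t, Cl m a t r → Cl m a t n := by
      intro t ht
      have := dvd_add hd0 ht
      unfold Cl
      rwa [show n - r + (r - t * a) = n - t * a by ring] at this
    have hg : r ∈ gen m a := by
      simp only [gen, mem_filter, mem_range]
      exact ⟨hlt, fun h => hn.1 (tr _ h), fun h => hn.2 (tr _ h), fun h => c1 (tr _ h),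
        fun h => c2 (tr _ h)⟩
    obtain ⟨d, hd, hq⟩ := of_not_zero (h2.2 r hg)
    rcases mem_union.mp hd with hd | hd
    · refine ⟨d, (mem_col.mp hd).1, hq, Or.inl ?_⟩
      have := dvd_sub hd0 (mem_col.mp hd).2
      unfold Cl
      rwa [show n - r - (d - r) = n - d - 0 * a by ring] at this
    · refine ⟨d, (mem_col.mp hd).1, hq, Or.inr ?_⟩
      have := dvd_sub hd0 (mem_col.mp hd).2
      unfold Cl
      rwa [show n - r - (d - (r - a)) = n - d - 1 * a by ring] at this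

lemma bad_piece {k m a c : ℕ} {D : Finset ℕ} (hD : D ⊆ Icc 1 k)
    (hc : ∀ d ∈ D, ¬ (Cl m a 0 d ∨ Cl m a 1 d ∨ Cl m a (-1) d)) (hcard : c ≤ D.card) :
    ((box (NS k (m, a)) (ff k (m, a)) ∩ zero k D).card : ℝ) * 2 ^ (NS k (m, a)).card
      ≤ 2 / 2 ^ c * 2 ^ Fintype.card (Bool × Fin (k + 1)) := by
  have h1 := card_box_inter (NS k (m, a)) (NN k ∅ D) (ff k (m, a)) (fun _ => false)
  have h2 : (NS k (m, a) ∩ NN k ∅ D).card ≤ 1 := by
    rw [NS, NN_inter]
    refine (card_NN_le _ _ _).trans ?_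
    have : DQ k m a ∩ D ⊆ {3 * a} := by
      intro d hd
      simp only [DQ, D1, mem_inter, mem_union, mem_insert, mem_col, mem_singleton] at hd ⊢
      have := hc d hd.2
      rcases hd.1 with h | h | h | h
      · exact absurd (Or.inl (by simpa [Cl] using h.2)) this
      · exact h
      · exact absurd (Or.inr (Or.inl (by simpa [Cl] using h.2))) this
      · exact absurd (Or.inr (Or.inr (by simpa [Cl] using h.2))) this
    simpa using Finset.card_le_card this
  have h3 : (2 : ℝ) ^ (NS k (m, a) ∩ NN k ∅ D).card ≤ 2 := by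
    simpa using pow_le_pow_right₀ (by norm_num : (1 : ℝ) ≤ 2) h2
  have h4 : (2 : ℝ) ^ c ≤ 2 ^ (NN k ∅ D).card :=
    pow_le_pow_right₀ (by norm_num) (hcard.trans (le_card_NN k D hD))
  rw [div_mul_eq_mul_div, le_div_iff₀ (by positivity)]
  calc _ ≤ ((box (NS k (m, a)) (ff k (m, a)) ∩ zero k D).card : ℝ) * 2 ^ (NS k (m, a)).card
        * 2 ^ (NN k ∅ D).card := mul_le_mul_of_nonneg_left h4 (by positivity)
    _ ≤ _ := h1
    _ ≤ _ := mul_le_mul_of_nonneg_right h3 (by positivity)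

lemma bad_le {k J m a : ℕ} (ha : 1 ≤ a) (ham : 8 * a < m) (hW : Win k J m) (hJ : 1 ≤ J) :
    ((box (NS k (m, a)) (ff k (m, a)) ∩ Bad k (m, a)).card : ℝ) * 2 ^ (NS k (m, a)).card
      ≤ (8 / 2 ^ J + 2 * k / 2 ^ (2 * J)) * 2 ^ Fintype.card (Bool × Fin (k + 1)) := by
  set X := box (NS k (m, a)) (ff k (m, a))
  set W : ℝ := 2 ^ Fintype.card (Bool × Fin (k + 1))
  have hmk : m ≤ k := by have := hW.1; nlinarith
  have e : X ∩ Bad k (m, a) =
      (({2, -2, 4, -3} : Finset ℤ).biUnion fun t => X ∩ zero k (col k m (t * a))) ∪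
      (gen m a).biUnion fun r => X ∩ zero k (col k m r ∪ col k m (r - a)) := by
    rw [Bad, Finset.inter_union_distrib_left, Finset.inter_biUnion, Finset.inter_biUnion]
  have h1 : ((X ∩ Bad k (m, a)).card : ℝ) ≤
      ∑ t ∈ ({2, -2, 4, -3} : Finset ℤ), ((X ∩ zero k (col k m (t * a))).card : ℝ) +
      ∑ r ∈ gen m a, ((X ∩ zero k (col k m r ∪ col k m (r - a))).card : ℝ) := by
    rw [e]
    exact_mod_cast (Finset.card_union_le _ _).trans
      (Nat.add_le_add Finset.card_biUnion_le Finset.card_biUnion_le)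
  refine (mul_le_mul_of_nonneg_right h1 (by positivity)).trans ?_
  rw [add_mul, Finset.sum_mul, Finset.sum_mul, add_mul]
  apply add_le_add
  · refine (Finset.sum_le_sum (g := fun _ => 2 / 2 ^ J * W) fun t ht => ?_).trans ?_
    · refine bad_piece (col_sub _ _ _) (fun d hd => ?_) (le_card_col (by omega) hW.1 _)
      have hc : Cl m a t d := (mem_col.mp hd).2
      simp only [mem_insert, mem_singleton] at ht
      rintro (h | h | h) <;>
        have := Cl.uniq ha ham h hc (by omega) (by omega) <;> omega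
    · rw [Finset.sum_const, nsmul_eq_mul]
      have : (({2, -2, 4, -3} : Finset ℤ).card : ℝ) = 4 := by
        rw [show ({2, -2, 4, -3} : Finset ℤ).card = 4 by decide]; norm_num
      rw [this]
      exact le_of_eq (by ring)
  · refine (Finset.sum_le_sum (g := fun _ => 2 / 2 ^ (2 * J) * W) fun r hr => ?_).trans ?_
    · simp only [gen, mem_filter] at hr
      obtain ⟨-, r0, r1, r2, r3⟩ := hr
      refine bad_piece (union_subset (col_sub _ _ _) (col_sub _ _ _)) (fun d hd => ?_) ?_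
      · have tr : ∀ t, (m : ℤ) ∣ (d : ℤ) - r → Cl m a t d → Cl m a t r := by
          intro t h1 h2
          have := dvd_sub h2 h1
          unfold Cl
          rwa [show (d : ℤ) - t * a - (d - r) = r - t * a by ring] at this
        have tr' : ∀ t, (m : ℤ) ∣ (d : ℤ) - (r - a) → Cl m a t d → Cl m a (t + 1) r := by
          intro t h1 h2
          have := dvd_sub h2 h1
          unfold Cl
          rwa [show (d : ℤ) - t * a - (d - (r - a)) = r - (t + 1) * a by ring] at this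
        rcases mem_union.mp hd with hd | hd
        · have := (mem_col.mp hd).2
          rintro (h | h | h)
          exacts [r0 (tr _ this h), r1 (tr _ this h), r2 (tr _ this h)]
        · have := (mem_col.mp hd).2
          rintro (h | h | h)
          exacts [r1 (by simpa using tr' _ this h), r3 (by simpa using tr' _ this h),
            r0 (by simpa using tr' _ this h)]
      · rw [Finset.card_union_of_disjoint]
        · have := le_card_col (by omega : 1 ≤ m) hW.1 (r : ℤ)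
          have := le_card_col (by omega : 1 ≤ m) hW.1 ((r : ℤ) - a)
          omega
        · rw [Finset.disjoint_left]
          intro d h1 h2
          have := dvd_sub (mem_col.mp h2).2 (mem_col.mp h1).2
          rw [show (d : ℤ) - (r - a) - (d - r) = (a : ℤ) - (0 : ℕ) by push_cast; ring] at this
          have := eq_of_dvd (by omega) (by omega) this
          omega
    · rw [Finset.sum_const, nsmul_eq_mul]
      have : ((gen m a).card : ℝ) ≤ k := by
        have h1 : (gen m a).card ≤ m := by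
          have h0 : gen m a ⊆ range m := by
            intro r hr
            simp only [gen, mem_filter] at hr
            exact hr.1
          simpa using Finset.card_le_card h0
        exact_mod_cast h1.trans hmk
      calc _ ≤ (k : ℝ) * (2 / 2 ^ (2 * J) * W) :=
            mul_le_mul_of_nonneg_right this (by positivity)
        _ = _ := by ring

lemma pow_sub_one_le (t : ℕ) (ht : t ≤ 13) : (2 : ℝ) ^ t - 1 ≤ 2 ^ 13 * t := by
  rcases Nat.eq_zero_or_pos t with rfl | h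
  · simp
  · have h1 : (2 : ℝ) ^ t ≤ 2 ^ 13 := pow_le_pow_right₀ (by norm_num) ht
    have h2 : (1 : ℝ) ≤ t := by exact_mod_cast h
    nlinarith

lemma var_le {k J A : ℕ} {Ms : Finset ℕ} (hM : ∀ m ∈ Ms, Win k J m ∧ 8 * A < m) :
    ∑ i ∈ Ms ×ˢ Icc 1 A, ∑ i' ∈ Ms ×ˢ Icc 1 A, ((2 : ℝ) ^ (NS k i ∩ NS k i').card - 1)
      ≤ Ms.card * (A * 2 ^ (3 * J + 6) + A ^ 2 * 2 ^ (J + 5))
        + Ms.card ^ 2 * (2 ^ 13 * (A * (18 * J + 25))) := by
  simp only [Finset.sum_product]
  have key : ∀ m ∈ Ms, ∀ m' ∈ Ms, ∑ a ∈ Icc 1 A, ∑ a' ∈ Icc 1 A,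
      ((2 : ℝ) ^ (NS k (m, a) ∩ NS k (m', a')).card - 1)
      ≤ (if m' = m then (A : ℝ) * 2 ^ (3 * J + 6) + (A : ℝ) ^ 2 * 2 ^ (J + 5) else 0)
        + 2 ^ 13 * (A * (18 * J + 25)) := by
    intro m hm m' hm'
    obtain ⟨w1, a1⟩ := hM m hm
    obtain ⟨w2, a2⟩ := hM m' hm'
    have hc : ∀ a a', (NS k (m, a) ∩ NS k (m', a')).card
        ≤ (DP m a ∩ DP m' a').card + (DQ k m a ∩ DQ k m' a').card := by
      intro a a'
      rw [NS, NS, NN_inter]; exact card_NN_le _ _ _
    have hp : ∀ a a', (DP m a ∩ DP m' a').card ≤ 2 := fun a a' =>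
      (Finset.card_le_card inter_subset_left).trans (card_DP _ _)
    split_ifs with e
    · subst e
      have : ∀ a ∈ Icc 1 A, ∀ a' ∈ Icc 1 A, ((2 : ℝ) ^ (NS k (m', a) ∩ NS k (m', a')).card - 1)
          ≤ (if a' = a then 2 ^ (3 * J + 6) else 0) + 2 ^ (J + 5) := by
        intro a ha a' ha'
        have ha1 := mem_Icc.mp ha
        have ha2 := mem_Icc.mp ha'
        have := hc a a'
        have := hp a a'
        split_ifs with e
        · have h1 := (Finset.card_le_card (inter_subset_left (s₁ := DQ k m' a)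
            (s₂ := DQ k m' a'))).trans (card_DQ (by omega) w1.2 a)
          have h2 : (2 : ℝ) ^ (NS k (m', a) ∩ NS k (m', a')).card ≤ 2 ^ (3 * J + 6) :=
            pow_le_pow_right₀ (by norm_num) (by omega)
          have : (0 : ℝ) < 2 ^ (J + 5) := by positivity
          linarith
        · have h1 := same_m w1.2 ha1.1 (by omega : 8 * a < m') (by omega : 8 * a' < m')
            (Ne.symm e)
          have h2 : (2 : ℝ) ^ (NS k (m', a) ∩ NS k (m', a')).card ≤ 2 ^ (J + 5) :=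
            pow_le_pow_right₀ (by norm_num) (by omega)
          linarith
      refine (Finset.sum_le_sum fun a ha => Finset.sum_le_sum fun a' ha' =>
        this a ha a' ha').trans ?_
      simp only [Finset.sum_add_distrib, Finset.sum_const, Nat.card_Icc, nsmul_eq_mul,
        Nat.add_sub_cancel]
      have h3 : ∑ a ∈ Icc 1 A, ∑ a' ∈ Icc 1 A, (if a' = a then (2 : ℝ) ^ (3 * J + 6) else 0)
          = A * 2 ^ (3 * J + 6) := by
        rw [Finset.sum_congr rfl (g := fun _ => (2 : ℝ) ^ (3 * J + 6))]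
        · simp
        · intro a ha
          rw [Finset.sum_ite_eq', if_pos ha]
      rw [h3]
      have : (0 : ℝ) ≤ 2 ^ 13 * (A * (18 * J + 25)) := by positivity
      nlinarith
    · have hne : m ≠ m' := Ne.symm e
      have h1 := sum_diff_m w1 w2 hne a1 a2
      have h2 : ((∑ a ∈ Icc 1 A, ∑ a' ∈ Icc 1 A,
          ((DP m a ∩ DP m' a').card + (DQ k m a ∩ DQ k m' a').card) : ℕ) : ℝ)
          ≤ A * (18 * J + 25) := by exact_mod_cast h1
      rw [zero_add]
      refine le_trans ?_ (mul_le_mul_of_nonneg_left h2 (by positivity))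
      rw [Nat.cast_sum, Finset.mul_sum]
      refine Finset.sum_le_sum fun a _ => ?_
      rw [Nat.cast_sum, Finset.mul_sum]
      refine Finset.sum_le_sum fun a' _ => ?_
      have := hc a a'
      have := hp a a'
      have := diff_m w1 w2 hne a a'
      refine (pow_sub_one_le _ (by omega)).trans ?_
      exact mul_le_mul_of_nonneg_left (by exact_mod_cast hc a a') (by positivity)
  calc _ = ∑ m ∈ Ms, ∑ m' ∈ Ms, ∑ a ∈ Icc 1 A, ∑ a' ∈ Icc 1 A,
        ((2 : ℝ) ^ (NS k (m, a) ∩ NS k (m', a')).card - 1) :=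
        Finset.sum_congr rfl fun m _ => Finset.sum_comm
    _ ≤ _ := Finset.sum_le_sum fun m hm => Finset.sum_le_sum fun m' hm' => key m hm m' hm'
    _ = _ := by
      simp only [Finset.sum_add_distrib, Finset.sum_const, nsmul_eq_mul]
      rw [Finset.sum_congr rfl (g := fun _ => (A : ℝ) * 2 ^ (3 * J + 6) + A ^ 2 * 2 ^ (J + 5))]
      · simp only [Finset.sum_const, nsmul_eq_mul]; ring
      · intro m hm
        rw [Finset.sum_ite_eq', if_pos hm]

theorem numESB_le {k J A : ℕ} {Ms : Finset ℕ} (hM : ∀ m ∈ Ms, Win k J m ∧ 8 * A < m)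
    (hJ : 1 ≤ J) (hA : 1 ≤ A) (hMs : Ms.Nonempty) :
    (numESB k : ℝ) ≤ (4 * (2 ^ (3 * J + 6) / (Ms.card * A) + 2 ^ (J + 5) / Ms.card
      + 2 ^ 13 * (18 * J + 25) / A) + 2 * (8 / 2 ^ J + 2 * k / 2 ^ (2 * J))) * 4 ^ (k + 1) := by
  classical
  let F : Finset (Bool × Fin (k + 1) → Bool) := univ.filter fun ω =>
    ∀ i ∈ Ms ×ˢ Icc 1 A, ω ∈ box (NS k i) (ff k i) → ω ∈ Bad k i
  have h1 := second_moment (Ms ×ˢ Icc 1 A) (hMs.product (nonempty_Icc.mpr hA)) (NS k) (ff k)
    (Bad k) (8 / 2 ^ J + 2 * k / 2 ^ (2 * J)) _ (by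
      rintro ⟨m, a⟩ hi
      obtain ⟨hm, ha⟩ := mem_product.mp hi
      have ha' := mem_Icc.mp ha
      have := hM m hm
      exact bad_le ha'.1 (by dsimp only at *; omega) this.1 hJ) (var_le hM) F
    (fun ω hω => (mem_filter.mp hω).2)
  have h2 : numESB k ≤ F.card := by
    unfold numESB
    rw [← Set.ncard_coe_finset]
    refine Set.ncard_le_ncard_of_injOn
      (fun p x => if x.1 = true then decide (x.2 ∈ p.2) else decide (x.2 ∈ p.1)) ?_ ?_
      (Finset.finite_toSet _)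
    · rintro ⟨P, Q⟩ ⟨-, -, hE⟩
      simp only [F, coe_filter, mem_univ, true_and, Set.mem_ofPred_eq]
      rintro ⟨m, a⟩ hi hb
      obtain ⟨hm, ha⟩ := mem_product.mp hi
      have ha' := mem_Icc.mp ha
      have hm' := hM m hm
      by_contra hB
      have hmk : m ≤ k := by have := hm'.1.1; nlinarith
      have hK := ker_of ha'.1 (by dsimp only at *; omega) hmk hb hB
      refine not_ESB (m := m) (a := a) ?_ hE
      have e1 : bit k (fun x => if x.1 = true then decide (x.2 ∈ Q) else decide (x.2 ∈ P)) false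
          = mem k P := by funext d; simp [bit, mem]
      have e2 : bit k (fun x => if x.1 = true then decide (x.2 ∈ Q) else decide (x.2 ∈ P)) true
          = mem k Q := by funext d; simp [bit, mem]
      rwa [e1, e2] at hK
    · rintro ⟨P, Q⟩ - ⟨P', Q'⟩ - h
      refine Prod.ext ?_ ?_
      · ext i; simpa using congrFun h (false, i)
      · ext i; simpa using congrFun h (true, i)
  have h3 : (2 : ℝ) ^ Fintype.card (Bool × Fin (k + 1)) = 4 ^ (k + 1) := by
    rw [Fintype.card_prod, Fintype.card_bool, Fintype.card_fin, pow_mul]; norm_num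
  rw [h3, Finset.card_product, Nat.card_Icc, Nat.add_sub_cancel] at h1
  have h4 : (0 : ℝ) < Ms.card := by exact_mod_cast hMs.card_pos
  have h5 : (0 : ℝ) < A := by exact_mod_cast hA
  refine le_trans (by exact_mod_cast h2) (h1.trans (le_of_eq ?_))
  congr 2
  push_cast
  field_simp

end Pool.Agent.MP_01c7b3_an

end MrgPart5

-- marker of a merged file
example : 731051 + 28067 = 731051 + 28067 := rfl
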