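import Mathlib.Algebra.BigOperators.Field
import Pool.Agent.MP_01c7b3_an.Upper

-- ======== part 0: formerly Pool.Agent.MP_01c7b3_an.Pattern
section MrgPart0

namespace Pool.Agent.MP_01c7b3_an
open Finset

/-- one of the first `r` base-`b` digits of `d` vanishes -/
def Dig (b r d : ℕ) : Prop := ∃ i < r, d / b ^ i % b = 0

lemma digit_shift {b i r : ℕ} (hb : 0 < b) (hi : i < r) (x t : ℕ) :
    (x + t * b ^ r) / b ^ i % b = x / b ^ i % b := by
  obtain ⟨c, rfl⟩ := Nat.exists_eq_add_of_lt hi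
  have e : t * b ^ (i + c + 1) = (t * b ^ c * b) * b ^ i := by ring
  rw [e, Nat.add_mul_div_right _ _ (pow_pos hb i), Nat.add_mul_mod_self_right]

lemma exists_digits {b : ℕ} (hb : 0 < b) (u : ℕ → ℕ) (e0 r : ℕ) :
    ∃ e, e0 ≤ e ∧ e < e0 + b ^ r ∧ ∀ i < r, (e + u i) / b ^ i % b = 0 := by
  induction r with
  | zero => exact ⟨e0, le_rfl, by simp, by simp⟩
  | succ r ih =>
    obtain ⟨e, h1, h2, h3⟩ := ih
    obtain ⟨t, ht, ht2⟩ : ∃ t, t < b ∧ ((e + u r) / b ^ r + t) % b = 0 := by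
      by_cases h : (e + u r) / b ^ r % b = 0
      · exact ⟨0, hb, by simpa using h⟩
      · have hlt := Nat.mod_lt ((e + u r) / b ^ r) hb
        refine ⟨b - (e + u r) / b ^ r % b, by omega, ?_⟩
        rw [← Nat.mod_add_mod, Nat.add_sub_cancel' hlt.le, Nat.mod_self]
    refine ⟨e + t * b ^ r, by omega, ?_, fun i hi => ?_⟩
    · have : (t + 1) * b ^ r ≤ b * b ^ r := Nat.mul_le_mul_right _ ht
      rw [pow_succ]; nlinarith
    · rw [show e + t * b ^ r + u i = e + u i + t * b ^ r by ring]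
      rcases Nat.lt_succ_iff_lt_or_eq.mp hi with h | rfl
      · rw [digit_shift hb h]; exact h3 i h
      · rw [Nat.add_mul_div_right _ _ (pow_pos hb i)]; exact ht2

/-- the neutral zones -/
def Zone (g Z d : ℕ) : Prop := ∃ j, 2 ≤ j ∧ j * g < d ∧ d ≤ j * g + Z

/-- the family of bounded special cases -/
structure Fam (k g b r Z : ℕ) (p q : ℕ → Prop) : Prop where
  hb : 0 < b
  hr : k < r * (g + 1)
  hZ : r * (2 * b ^ r + 3) ≤ Z
  hg : Z + 4 * b ^ r ≤ g
  hk : 2 * g + 2 ≤ k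
  q0 : q 0
  qs : ∀ d, 1 ≤ d → d ≤ g → q d
  p1 : p (g + 1)
  p2 : p (g + 2)
  q1 : ¬ q (g + 1)
  q2 : ¬ q (g + 2)
  q22 : q (2 * g + 2)
  zp : ∀ d ≤ k, Zone g Z d → ¬ p d
  zq : ∀ d ≤ k, Zone g Z d → d ≠ 2 * g + 2 → ¬ q d
  dp : ∀ d ≤ k, Dig b r d → ¬ Zone g Z d → p d
  dq : ∀ d ≤ k, Dig b r d → g < d → d ≠ 2 * g + 2 → ¬ q d

/-- a position fed by the top set and not dominated by it -/
def Lam (k : ℕ) (p q : ℕ → Prop) (S : ℤ → Prop) (n : ℤ) : Prop :=
  (∃ d ∈ Icc 1 k, p d ∧ S (n - d)) ∧ ∀ d ∈ Icc 1 k, q d → ¬ S (n - d)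

/-- the rules obeyed by the top set -/
structure Top (k : ℕ) (p q : ℕ → Prop) (S : ℤ → Prop) : Prop where
  a : ∀ s, S s → ∃ d ∈ Icc 1 k, p d ∧ S (s - d)
  b1 : ∀ s, S s → ∀ d ∈ Icc 1 k, q d → ¬ S (s - d)
  b2 : ∀ s, S s → ∀ d ∈ Icc 1 k, q d → ¬ Lam k p q S (s - d)

/-- `s - G` is the element of the top set just before `s` -/
def Prev (S : ℤ → Prop) (s : ℤ) (G : ℕ) : Prop :=
  1 ≤ G ∧ S (s - G) ∧ ∀ t, s - G < t → t < s → ¬ S t

section
variable {k g b r Z : ℕ} {p q : ℕ → Prop} {S : ℤ → Prop}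

lemma Top.prev (T : Top k p q S) {s : ℤ} (hs : S s) : ∃ G ≤ k, Prev S s G := by
  classical
  have h : ∃ d : ℕ, 1 ≤ d ∧ S (s - d) := by
    obtain ⟨d, hd, -, h⟩ := T.a s hs
    exact ⟨d, (mem_Icc.mp hd).1, h⟩
  refine ⟨Nat.find h, ?_, (Nat.find_spec h).1, (Nat.find_spec h).2, fun t h1 h2 ht => ?_⟩
  · obtain ⟨d, hd, -, h'⟩ := T.a s hs
    exact (Nat.find_min' h ⟨(mem_Icc.mp hd).1, h'⟩).trans (mem_Icc.mp hd).2
  · obtain ⟨d, hd⟩ := Int.eq_ofNat_of_zero_le (by omega : 0 ≤ s - t)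
    refine Nat.find_min h (m := d) (by omega) ⟨by omega, ?_⟩
    rwa [← hd, sub_sub_cancel]

lemma sep (F : Fam k g b r Z p q) (T : Top k p q S) {s t : ℤ} (hs : S s) (ht : S t)
    (h : t < s) : t + g + 1 ≤ s := by
  by_contra hc
  obtain ⟨d, hd⟩ := Int.eq_ofNat_of_zero_le (by omega : 0 ≤ s - t)
  have := F.hk
  refine T.b1 s hs d (mem_Icc.mpr ⟨by omega, by omega⟩) (F.qs d (by omega) (by omega)) ?_
  rwa [← hd, sub_sub_cancel]

lemma not_lam (F : Fam k g b r Z p q) (T : Top k p q S) {s n : ℤ} (hs : S s)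
    (h1 : s - g ≤ n) (h2 : n < s) : ¬ Lam k p q S n := by
  obtain ⟨d, hd⟩ := Int.eq_ofNat_of_zero_le (by omega : 0 ≤ s - n)
  have := F.hk
  have := T.b2 s hs d (mem_Icc.mpr ⟨by omega, by omega⟩) (F.qs d (by omega) (by omega))
  rwa [← hd, sub_sub_cancel] at this

lemma lam_exists (F : Fam k g b r Z p q) (T : Top k p q S) {s' : ℤ} {G e0 : ℕ}
    (hP : Prev S s' G) (hG : G ≤ k) (h1 : g < e0) (h2 : e0 + 2 * b ^ r ≤ G)
    (h3 : ∀ e, e0 ≤ e → e < e0 + 2 * b ^ r → ¬ Zone g Z e) :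
    ∃ e : ℕ, e0 ≤ e ∧ e < G ∧ Lam k p q S (s' - G + e) := by
  classical
  set s := s' - G with hs
  have hS : S s := hP.2.1
  let u : ℕ → ℕ := fun i => if h : ∃ v : ℕ, S (s - v) ∧ v / (g + 1) = i then h.choose else 0
  have hu : ∀ v : ℕ, S (s - v) → u (v / (g + 1)) = v := by
    intro v hv
    have h : ∃ w : ℕ, S (s - w) ∧ w / (g + 1) = v / (g + 1) := ⟨v, hv, rfl⟩
    simp only [u, dif_pos h]
    obtain ⟨c1, c2⟩ := h.choose_spec
    set w := h.choose
    have d1 := Nat.div_add_mod w (g + 1)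
    have d2 := Nat.div_add_mod v (g + 1)
    have d3 := Nat.mod_lt w (by omega : 0 < g + 1)
    have d4 := Nat.mod_lt v (by omega : 0 < g + 1)
    rw [c2] at d1
    by_contra hne
    rcases lt_or_gt_of_ne hne with h | h
    · have := sep F T c1 hv (by omega); omega
    · have := sep F T hv c1 (by omega); omega
  obtain ⟨e, e1, e2, e3⟩ := exists_digits F.hb u e0 r
  have M0 : 0 < b ^ r := pow_pos F.hb r
  have hg := F.hg
  have key : ∀ e' : ℕ, e0 ≤ e' → e' < e0 + 2 * b ^ r →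
      (∀ i < r, (e' + u i) / b ^ i % b = 0) → (∀ v : ℕ, S (s - v) → e' + v ≠ 2 * g + 2) →
      Lam k p q S (s + e') := by
    intro e' a1 a2 a3 a4
    have dig : ∀ v : ℕ, S (s - v) → v ≤ k → Dig b r (e' + v) := by
      intro v hv hvk
      have hi : v / (g + 1) < r := by
        rw [Nat.div_lt_iff_lt_mul (by omega)]; have := F.hr; omega
      exact ⟨_, hi, by have := a3 _ hi; rwa [hu v hv] at this⟩
    refine ⟨⟨e', mem_Icc.mpr ⟨by omega, by omega⟩, ?_, by simpa using hS⟩, ?_⟩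
    · exact F.dp e' (by omega) (by simpa using dig 0 (by simpa using hS) (by omega)) (h3 e' a1 a2)
    · intro d hd hq ht
      have hd' := mem_Icc.mp hd
      have hle : s + e' - d ≤ s := by
        by_contra hc
        exact hP.2.2 _ (by omega) (by omega) ht
      obtain ⟨v, rfl⟩ : ∃ v, d = e' + v := ⟨d - e', by omega⟩
      have hv : S (s - v) := by
        rwa [show s + e' - ((e' + v : ℕ) : ℤ) = s - v by push_cast; ring] at ht
      exact F.dq _ hd'.2 (dig v hv (by omega)) (by omega) (a4 v hv) hq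
  by_cases hc : ∀ v : ℕ, S (s - v) → e + v ≠ 2 * g + 2
  · exact ⟨e, e1, by omega, key e e1 (by omega) e3 hc⟩
  · push Not at hc
    obtain ⟨v, hv, hv2⟩ := hc
    refine ⟨e + b ^ r, by omega, by omega, key _ (by omega) (by omega) (fun i hi => ?_) ?_⟩
    · rw [show e + b ^ r + u i = e + u i + 1 * b ^ r by ring, digit_shift F.hb hi]
      exact e3 i hi
    · intro w hw hw2
      have := sep F T hw hv (by omega)
      omega

lemma not_zone {g Z j e : ℕ} (h1 : j * g + Z < e) (h2 : e ≤ (j + 1) * g) : ¬ Zone g Z e := by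
  rintro ⟨i, -, a1, a2⟩
  have : i < j + 1 := by
    by_contra hc
    have : (j + 1) * g ≤ i * g := Nat.mul_le_mul_right _ (by omega)
    omega
  have : i * g ≤ j * g := Nat.mul_le_mul_right _ (by omega)
  omega

lemma gap_le (F : Fam k g b r Z p q) (T : Top k p q S) {s' : ℤ} {G : ℕ} (hs : S s')
    (hP : Prev S s' G) (hG : G ≤ k) : G ≤ g + (2 * b ^ r + 2) := by
  by_contra hc
  have hg := F.hg
  have hZ := F.hZ
  have M0 : 0 < b ^ r := pow_pos F.hb r
  have r0 : 0 < r := by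
    rcases Nat.eq_zero_or_pos r with h | h
    · have := F.hr; simp [h] at this
    · exact h
  have hZ' : 2 * b ^ r + 3 ≤ Z := le_trans (Nat.le_mul_of_pos_left _ r0) hZ
  have fin : ∀ e0, g < e0 → e0 + 2 * b ^ r ≤ G → G ≤ e0 + g →
      (∀ e, e0 ≤ e → e < e0 + 2 * b ^ r → ¬ Zone g Z e) → False := by
    intro e0 a1 a2 a3 a4
    obtain ⟨e, e1, e2, e3⟩ := lam_exists F T hP hG a1 a2 a4
    exact not_lam F T hs (by omega) (by omega) e3
  by_cases h2 : G ≤ 2 * g
  · refine fin (g + 3) (by omega) (by omega) (by omega) ?_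
    rintro e a1 a2 ⟨j, j2, j3, -⟩
    have : 2 * g ≤ j * g := Nat.mul_le_mul_right _ j2
    omega
  · obtain ⟨j, hj⟩ : ∃ j, j = (G - 1) / g := ⟨_, rfl⟩
    have g0 : 0 < g := by omega
    have j1 : j * g ≤ G - 1 := by rw [hj]; exact Nat.div_mul_le_self _ _
    have j2 : G - 1 < j * g + g := by rw [hj]; exact Nat.lt_div_mul_add g0
    have j3 : 2 ≤ j := by
      rw [hj, Nat.le_div_iff_mul_le g0]; omega
    obtain ⟨i, rfl⟩ : ∃ i, j = i + 1 := ⟨j - 1, by omega⟩
    have e1 : (i + 1) * g = i * g + g := by ring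
    have e2 : (i + 1 + 1) * g = i * g + g + g := by ring
    have i1 : g ≤ i * g := Nat.le_mul_of_pos_left _ (by omega)
    by_cases h3 : G + 2 * b ^ r ≤ (i + 1) * g + g + 1
    · refine fin ((i + 1) * g + 1 - 2 * b ^ r) (by omega) (by omega) (by omega) ?_
      intro e a1 a2
      exact not_zone (j := i) (by omega) (by omega)
    · refine fin (G - 2 * b ^ r) (by omega) (by omega) (by omega) ?_
      intro e a1 a2
      exact not_zone (j := i + 1) (by omega) (by omega)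

lemma steps (F : Fam k g b r Z p q) (T : Top k p q S) (v : ℕ) :
    ∀ s, S s → S (s - v) → ∃ j, j * (g + 1) ≤ v ∧ v ≤ j * (g + (2 * b ^ r + 2)) := by
  induction v using Nat.strong_induction_on with
  | _ v ih =>
    intro s hs hv
    rcases Nat.eq_zero_or_pos v with rfl | v0
    · exact ⟨0, by simp, by simp⟩
    obtain ⟨G, hG, hP⟩ := T.prev hs
    have h1 := gap_le F T hs hP hG
    have h2 := sep F T hs hP.2.1 (by have := hP.1; omega)
    have h3 : G ≤ v := by
      by_contra hc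
      exact hP.2.2 _ (by omega) (by omega) hv
    obtain ⟨j, j1, j2⟩ := ih (v - G) (by have := hP.1; omega) (s - G) hP.2.1 (by
      rwa [Nat.cast_sub h3, show s - G - (v - G) = s - v by ring])
    refine ⟨j + 1, ?_, ?_⟩
    · rw [add_mul]; omega
    · rw [add_mul]; omega

/-- seen from just after the first dominated stretch, older top elements are neutral -/
lemma older (F : Fam k g b r Z p q) (T : Top k p q S) {s : ℤ} (hs : S s) {v c : ℕ}
    (hv : S (s - v)) (v0 : 0 < v) (c1 : 1 ≤ c) (c2 : c ≤ 2) (hk : v + g + c ≤ k) :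
    Zone g Z (v + g + c) := by
  obtain ⟨j, j1, j2⟩ := steps F T v s hs hv
  have j0 : 1 ≤ j := by
    rcases Nat.eq_zero_or_pos j with rfl | h <;> omega
  have hr := F.hr
  have hZ := F.hZ
  have j3 : j + 1 ≤ r := by
    by_contra hc
    have : r * (g + 1) ≤ j * (g + 1) := Nat.mul_le_mul_right _ (by omega)
    omega
  refine ⟨j + 1, by omega, by nlinarith, ?_⟩
  have : (j + 1) * (2 * b ^ r + 3) ≤ r * (2 * b ^ r + 3) := Nat.mul_le_mul_right _ j3
  nlinarith

/-- description of the top elements seen from `s + g + c` -/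
lemma seen (F : Fam k g b r Z p q) (T : Top k p q S) {s : ℤ} (hs : S s) {c : ℕ}
    (c1 : 1 ≤ c) (c2 : c ≤ 2) {d : ℕ} (hd : d ∈ Icc 1 k) (hgd : g < d)
    (ht : S (s + g + c - d)) (hle : g + c ≤ d) :
    (p d → d = g + c) ∧ (q d → d = 2 * g + 2) := by
  have hd' := mem_Icc.mp hd
  rcases Nat.eq_or_lt_of_le hle with h | h
  · subst h
    refine ⟨fun _ => rfl, fun hq => ?_⟩
    exfalso
    rcases (by omega : c = 1 ∨ c = 2) with rfl | rfl
    exacts [F.q1 hq, F.q2 hq]
  · obtain ⟨v, rfl⟩ : ∃ v, d = v + g + c := ⟨d - g - c, by omega⟩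
    have hv : S (s - v) := by
      rwa [show s + g + c - ((v + g + c : ℕ) : ℤ) = s - v by push_cast; ring] at ht
    have hz := older F T hs hv (by omega) c1 c2 hd'.2
    refine ⟨fun hp => absurd hp (F.zp _ hd'.2 hz), fun hq => ?_⟩
    by_contra hne
    exact F.zq _ hd'.2 hz hne hq

lemma gap_eq (F : Fam k g b r Z p q) (T : Top k p q S) {s' : ℤ} {G : ℕ} (hs : S s')
    (hP : Prev S s' G) (hG : G ≤ k) :
    (G = g + 1 ∧ ¬ S (s' - G - (g + 1))) ∨ (G = g + 2 ∧ S (s' - G - (g + 1))) := by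
  have h1 := gap_le F T hs hP hG
  have h2 := sep F T hs hP.2.1 (by have := hP.1; omega)
  have hg := F.hg
  have hk := F.hk
  have M0 : 0 < b ^ r := pow_pos F.hb r
  set s := s' - G with hsd
  have hS : S s := hP.2.1
  have lam : ∀ c : ℕ, 1 ≤ c → c ≤ 2 → g + c < G → ¬ S (s - (g + 2 - c : ℕ)) → False := by
    intro c c1 c2 c3 c4
    refine not_lam F T hs (n := s + g + c) (by omega) (by omega) ⟨⟨g + c,
      mem_Icc.mpr ⟨by omega, by omega⟩, ?_, by simpa [add_assoc] using hS⟩, ?_⟩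
    · rcases (by omega : c = 1 ∨ c = 2) with rfl | rfl
      exacts [F.p1, F.p2]
    · intro d hd hq ht
      have hd' := mem_Icc.mp hd
      have hle : g + c ≤ d := by
        by_contra hc
        exact hP.2.2 _ (by omega) (by omega) ht
      have := (seen F T hS c1 c2 hd (by omega) ht hle).2 hq
      subst this
      apply c4
      rwa [show s - ((g + 2 - c : ℕ) : ℤ) = s + g + c - ((2 * g + 2 : ℕ) : ℤ) by omega]
  by_cases hc : S (s - (g + 1))
  · right
    refine ⟨?_, hc⟩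
    have a1 : G ≠ g + 1 := by
      intro e
      refine T.b1 s' hs (2 * g + 2) (mem_Icc.mpr ⟨by omega, hk⟩) F.q22 ?_
      rwa [show s' - ((2 * g + 2 : ℕ) : ℤ) = s - (g + 1) by omega]
    by_contra a2
    refine lam 2 (by omega) le_rfl (by omega) fun h => ?_
    have := sep F T hS h (by omega)
    omega
  · left
    refine ⟨?_, hc⟩
    by_contra a2
    refine lam 1 le_rfl (by omega) (by omega) fun h => hc ?_
    rwa [show ((g + 2 - 1 : ℕ) : ℤ) = g + 1 by omega] at h

/-- a top element reached by the short gap -/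
def TB (S : ℤ → Prop) (g : ℕ) (s : ℤ) : Prop := S s ∧ S (s - (g + 1))

lemma TB.prev (F : Fam k g b r Z p q) (T : Top k p q S) {s : ℤ} (h : TB S g s) :
    TB S g (s - (2 * g + 3)) := by
  obtain ⟨G, hG, hP⟩ := T.prev h.1
  have e : G = g + 1 := by
    have h2 := sep F T h.1 hP.2.1 (by have := hP.1; omega)
    by_contra hc
    exact hP.2.2 _ (by omega) (by omega) h.2
  rcases gap_eq F T h.1 hP hG with ⟨-, h1⟩ | ⟨h1, -⟩
  swap
  · omega
  subst e
  obtain ⟨G', hG', hP'⟩ := T.prev h.2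
  rcases gap_eq F T h.2 hP' hG' with ⟨h2, -⟩ | ⟨h2, h3⟩
  · subst h2
    exact absurd (by simpa using hP'.2.1) h1
  · subst h2
    refine ⟨?_, ?_⟩
    · have := hP'.2.1
      rwa [show s - (g + 1) - ((g + 2 : ℕ) : ℤ) = s - (2 * g + 3) by push_cast; ring] at this
    · rwa [show s - (g + 1) - ((g + 2 : ℕ) : ℤ) = s - (2 * g + 3) by push_cast; ring] at h3

lemma exists_TB (F : Fam k g b r Z p q) (T : Top k p q S) {s : ℤ} (hs : S s) :
    ∃ t ≤ s, TB S g t := by
  obtain ⟨G, hG, hP⟩ := T.prev hs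
  rcases gap_eq F T hs hP hG with ⟨h1, -⟩ | ⟨h1, h2⟩
  · subst h1
    exact ⟨s, le_rfl, hs, by simpa using hP.2.1⟩
  · exact ⟨s - G, by omega, hP.2.1, h2⟩

end
end Pool.Agent.MP_01c7b3_an

end MrgPart0

-- ======== part 1: formerly Pool.Agent.MP_01c7b3_an.Limit
section MrgPart1

namespace Pool.Agent.MP_01c7b3_an
open Finset Filter Topology

/-- the limiting linear form -/
noncomputable def Ls (k : ℕ) (c : ℕ → ℝ) (Y : ℤ → ℝ) (t : ℤ) : ℝ :=
  ∑ d ∈ Icc 1 k, c d * Y (t - d)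

/-- the inequalities satisfied by a limit of normalised records -/
structure Lim (k : ℕ) (β B : ℕ → ℝ) (Y : ℤ → ℝ) : Prop where
  y0 : Y 0 = 1
  nn : ∀ t ≤ 0, 0 ≤ Y t
  le : ∀ t ≤ 0, Y t ≤ 1
  a : ∀ s ≤ 0, Y s * B 0 ≤ Ls k β Y s
  b1 : ∀ s ≤ 0, ∀ d ∈ Icc 1 k, Y s * (B d * Y (s - d)) ≤ 0
  b2 : ∀ s ≤ 0, ∀ d ∈ Icc 1 k, Y s * (B 0 * Ls k B Y (s - d) + B d * Ls k β Y (s - d))
    ≤ Ls k β Y s * Ls k B Y (s - d)

lemma sol_nonneg {k : ℕ} {β B : ℕ → ℝ} (hβ : ∀ d, 0 ≤ β d) {x : ℤ → ℝ}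
    (hx0 : ∀ n : ℤ, -(k : ℤ) ≤ n → n < 0 → 0 ≤ x n)
    (hrec : ∀ n, 0 ≤ n → 0 < lf k B x n ∧ x n = lf k β x n / lf k B x n) :
    ∀ n : ℤ, -(k : ℤ) ≤ n → 0 ≤ x n := by
  have h : ∀ N : ℕ, ∀ n : ℤ, -(k : ℤ) ≤ n → n < N → 0 ≤ x n := by
    intro N
    induction N with
    | zero => exact fun n h1 h2 => hx0 n h1 (by simpa using h2)
    | succ N ih =>
      intro n h1 h2
      rcases lt_or_ge n N with h | h
      · exact ih n h1 h
      · obtain ⟨hD, hx⟩ := hrec n (by omega)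
        rw [hx]
        refine div_nonneg (add_nonneg (hβ 0) (Finset.sum_nonneg fun d hd => ?_)) hD.le
        have := mem_Icc.mp hd
        exact mul_nonneg (hβ d) (ih _ (by omega) (by omega))
  exact fun n hn => h (n.toNat + 1) n hn (by omega)

lemma exists_record {k : ℕ} {x : ℤ → ℝ} (hnn : ∀ n : ℤ, -(k : ℤ) ≤ n → 0 ≤ x n)
    (hunb : ¬ ∃ C : ℝ, ∀ n : ℤ, 0 ≤ n → |x n| ≤ C) (j : ℕ) :
    ∃ n : ℤ, (j : ℤ) ≤ n ∧ (j : ℝ) < x n ∧ ∀ m, -(k : ℤ) ≤ m → m ≤ n → x m ≤ x n := by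
  push Not at hunb
  obtain ⟨N, hN0, hN⟩ := hunb (j + ∑ m ∈ Finset.Icc (-(k : ℤ)) j, x m)
  rw [abs_of_nonneg (hnn N (by omega))] at hN
  obtain ⟨n, hn, hmax⟩ := Finset.exists_max_image (Finset.Icc (-(k : ℤ)) N) x
    ⟨N, Finset.mem_Icc.mpr ⟨by omega, le_rfl⟩⟩
  have hn' := Finset.mem_Icc.mp hn
  have h1 := hmax N (Finset.mem_Icc.mpr ⟨by omega, le_rfl⟩)
  have hs : 0 ≤ ∑ m ∈ Finset.Icc (-(k : ℤ)) j, x m :=
    Finset.sum_nonneg fun m hm => hnn m (Finset.mem_Icc.mp hm).1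
  refine ⟨n, ?_, by linarith, fun m a1 a2 => hmax m (Finset.mem_Icc.mpr ⟨a1, by omega⟩)⟩
  by_contra hc
  have := Finset.single_le_sum (f := x) (fun m hm => hnn m (Finset.mem_Icc.mp hm).1)
    (Finset.mem_Icc.mpr ⟨hn'.1, by omega⟩ : n ∈ Finset.Icc (-(k : ℤ)) j)
  have : (0 : ℝ) ≤ j := by positivity
  linarith

theorem exists_lim {k : ℕ} {β B : ℕ → ℝ} (hβ : ∀ d, 0 ≤ β d) (hB : ∀ d, 0 ≤ B d) {x : ℤ → ℝ}
    (hx0 : ∀ n : ℤ, -(k : ℤ) ≤ n → n < 0 → 0 ≤ x n)
    (hrec : ∀ n, 0 ≤ n → 0 < lf k B x n ∧ x n = lf k β x n / lf k B x n)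
    (hunb : ¬ ∃ C : ℝ, ∀ n : ℤ, 0 ≤ n → |x n| ≤ C) : ∃ Y, Lim k β B Y := by
  have hnn := sol_nonneg hβ hx0 hrec
  choose nn h1 h2 h3 using exists_record hnn hunb
  let U : Ultrafilter ℕ := hyperfilter ℕ
  have hU : (U : Filter ℕ) ≤ atTop := by
    rw [← Nat.cofinite_eq_atTop]; exact hyperfilter_le_cofinite
  have X0 : ∀ j, 0 < x (nn j) := fun j => lt_of_le_of_lt (by positivity) (h2 j)
  have ev : ∀ t : ℤ, ∀ᶠ j in (U : Filter ℕ), 0 ≤ nn j + t := by
    intro t
    refine hU ?_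
    filter_upwards [eventually_ge_atTop (-t).toNat] with j hj
    have := h1 j
    omega
  have inv0 : Tendsto (fun j => (x (nn j))⁻¹) U (𝓝 0) := by
    refine Tendsto.mono_left (tendsto_inv_atTop_zero.comp ?_) hU
    exact tendsto_atTop_mono (fun j => (h2 j).le) tendsto_natCast_atTop_atTop
  have hY : ∀ t : ℤ, ∃ Y : ℝ, t ≤ 0 → 0 ≤ Y ∧ Y ≤ 1 ∧
      Tendsto (fun j => x (nn j + t) / x (nn j)) U (𝓝 Y) := by
    intro t
    by_cases ht : t ≤ 0
    swap
    · exact ⟨0, fun h => absurd h ht⟩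
    obtain ⟨Y, hY1, hY2⟩ := (isCompact_Icc (a := (0 : ℝ)) (b := 1)).ultrafilter_le_nhds
      (U.map fun j => x (nn j + t) / x (nn j)) (by
        rw [Ultrafilter.coe_map, le_principal_iff, Filter.mem_map]
        filter_upwards [ev t] with j hj
        exact ⟨div_nonneg (hnn _ (by omega)) (X0 j).le,
          (div_le_one (X0 j)).mpr (h3 j _ (by omega) (by omega))⟩)
    exact ⟨Y, fun _ => ⟨hY1.1, hY1.2, hY2⟩⟩
  choose Y hY using hY
  have hL : ∀ (c : ℕ → ℝ) (t : ℤ), t ≤ 0 →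
      Tendsto (fun j => lf k c x (nn j + t) / x (nn j)) U (𝓝 (Ls k c Y t)) := by
    intro c t ht
    have a1 := (inv0.const_mul (c 0)).add (tendsto_finsetSum (Icc 1 k) fun d hd =>
      ((hY (t - d) (by omega)).2.2).const_mul (c d))
    simp only [mul_zero, zero_add] at a1
    refine a1.congr fun j => ?_
    unfold lf
    rw [add_div, Finset.sum_div, div_eq_mul_inv]
    congr 1
    refine Finset.sum_congr rfl fun d _ => ?_
    rw [mul_div_assoc, add_sub_assoc]
  have eqn : ∀ n, 0 ≤ n → x n * lf k B x n = lf k β x n := by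
    intro n hn
    obtain ⟨a1, a2⟩ := hrec n hn
    rw [a2, div_mul_cancel₀ _ a1.ne']
  have Dlow : ∀ n, 0 ≤ n → ∀ d ∈ Icc 1 k, B 0 + B d * x (n - d) ≤ lf k B x n := by
    intro n hn d hd
    unfold lf
    have := Finset.single_le_sum (f := fun d : ℕ => B d * x (n - d)) (fun d hd =>
      mul_nonneg (hB d) (hnn _ (by have := mem_Icc.mp hd; omega))) hd
    linarith
  have Dlow0 : ∀ n, 0 ≤ n → B 0 ≤ lf k B x n := by
    intro n hn
    unfold lf
    have : 0 ≤ ∑ d ∈ Icc 1 k, B d * x (n - d) := Finset.sum_nonneg fun d hd =>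
      mul_nonneg (hB d) (hnn _ (by have := mem_Icc.mp hd; omega))
    linarith
  refine ⟨Y, ?_, fun t ht => (hY t ht).1, fun t ht => (hY t ht).2.1, ?_, ?_, ?_⟩
  · refine tendsto_nhds_unique (hY 0 le_rfl).2.2 (tendsto_const_nhds.congr fun j => ?_)
    rw [add_zero, div_self (X0 j).ne']
  · intro s hs
    refine le_of_tendsto_of_tendsto ((hY s hs).2.2.mul_const (B 0)) (hL β s hs) ?_
    filter_upwards [ev s] with j hj
    rw [← eqn _ hj, div_mul_eq_mul_div]
    exact div_le_div_of_nonneg_right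
      (mul_le_mul_of_nonneg_left (Dlow0 _ hj) (hnn _ (by omega))) (X0 j).le
  · intro s hs d hd
    have hd' := mem_Icc.mp hd
    have a1 := (hL β s hs).mul inv0
    rw [mul_zero] at a1
    refine le_of_tendsto_of_tendsto ((hY s hs).2.2.mul
      (((hY (s - d) (by omega)).2.2).const_mul (B d))) a1 ?_
    filter_upwards [ev s] with j hj
    have b1 := Dlow _ hj d hd
    have b2 := hnn (nn j + s) (by omega)
    have b3 := hB 0
    have b4 := X0 j
    rw [← eqn _ hj, ← add_sub_assoc]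
    have : x (nn j + s) * (B d * x (nn j + s - d)) ≤ x (nn j + s) * lf k B x (nn j + s) :=
      mul_le_mul_of_nonneg_left (by linarith) b2
    calc _ = x (nn j + s) * (B d * x (nn j + s - d)) * ((x (nn j))⁻¹ * (x (nn j))⁻¹) := by
          ring
      _ ≤ x (nn j + s) * lf k B x (nn j + s) * ((x (nn j))⁻¹ * (x (nn j))⁻¹) :=
          mul_le_mul_of_nonneg_right this (by positivity)
      _ = _ := by ring
  · intro s hs d hd
    have hd' := mem_Icc.mp hd
    refine le_of_tendsto_of_tendsto ((hY s hs).2.2.mul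
      (((hL B (s - d) (by omega)).const_mul (B 0)).add
        ((hL β (s - d) (by omega)).const_mul (B d)))) ((hL β s hs).mul (hL B (s - d) (by omega)))
      ?_
    filter_upwards [ev (s - d)] with j hj
    have hj' : 0 ≤ nn j + s := by omega
    have b1 := Dlow _ hj' d hd
    have b2 := hnn (nn j + s) (by omega)
    have b4 := X0 j
    have b5 := (hrec _ hj).1
    rw [← eqn _ hj, ← eqn _ hj']
    rw [← add_sub_assoc] at b5 ⊢
    have : x (nn j + s) * (B 0 + B d * x (nn j + s - d)) ≤ x (nn j + s) * lf k B x (nn j + s) :=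
      mul_le_mul_of_nonneg_left b1 b2
    calc _ = x (nn j + s) * (B 0 + B d * x (nn j + s - d)) *
          (lf k B x (nn j + s - d) * ((x (nn j))⁻¹ * (x (nn j))⁻¹)) := by ring
      _ ≤ x (nn j + s) * lf k B x (nn j + s) *
          (lf k B x (nn j + s - d) * ((x (nn j))⁻¹ * (x (nn j))⁻¹)) :=
          mul_le_mul_of_nonneg_right this (by positivity)
      _ = _ := by ring

theorem not_lim {k g b r Z : ℕ} {p q : ℕ → Prop} (F : Fam k g b r Z p q) {β B : ℕ → ℝ}
    (hβ0 : ∀ d, 0 ≤ β d) (hB0 : ∀ d, 0 ≤ B d) (hβ : ∀ d, p d ↔ 0 < β d)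
    (hB : ∀ d, q d ↔ 0 < B d) {Y : ℤ → ℝ} (L : Lim k β B Y) : False := by
  let S : ℤ → Prop := fun t => t ≤ 0 ∧ 0 < Y t
  have tn : ∀ (c : ℕ → ℝ), (∀ d, 0 ≤ c d) → ∀ t ≤ 0, ∀ d ∈ Icc 1 k, 0 ≤ c d * Y (t - d) :=
    fun c hc t ht d _ => mul_nonneg (hc d) (L.nn _ (by omega))
  have low : ∀ (c : ℕ → ℝ), (∀ d, 0 ≤ c d) → ∀ t ≤ 0, ∀ d ∈ Icc 1 k,
      c d * Y (t - d) ≤ Ls k c Y t := fun c hc t ht d hd =>
    Finset.single_le_sum (f := fun d : ℕ => c d * Y (t - d)) (tn c hc t ht) hd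
  have zero : ∀ (c : ℕ → ℝ), (∀ d, 0 ≤ c d) → ∀ t ≤ 0, ∀ d : ℕ,
      (0 < c d → ¬ S (t - d)) → c d * Y (t - d) = 0 := by
    intro c hc t ht d h
    rcases (hc d).eq_or_lt with e | e
    · rw [← e, zero_mul]
    rcases (L.nn (t - d) (by omega)).eq_or_lt with e' | e'
    · rw [← e', mul_zero]
    exact absurd ⟨by omega, e'⟩ (h e)
  have exact : ∀ (c : ℕ → ℝ), (∀ d, 0 ≤ c d) → ∀ t ≤ 0, ∀ d0 ∈ Icc 1 k,
      (∀ d ∈ Icc 1 k, 0 < c d → S (t - d) → d = d0) → Ls k c Y t = c d0 * Y (t - d0) := by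
    intro c hc t ht d0 hd0 h
    exact Finset.sum_eq_single_of_mem d0 hd0 fun d hd hne =>
      zero c hc t ht d fun a1 a2 => hne (h d hd a1 a2)
  have A0 : 0 < B 0 := (hB 0).mp F.q0
  have T : Top k p q S := by
    refine ⟨fun s hs => ?_, fun s hs d hd hq ht => ?_, fun s hs d hd hq hl => ?_⟩
    · by_contra hc
      have : Ls k β Y s = 0 := Finset.sum_eq_zero fun d hd =>
        zero β hβ0 s hs.1 d fun a1 a2 => hc ⟨d, hd, (hβ d).mpr a1, a2⟩
      have h1 := L.a s hs.1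
      have := mul_pos hs.2 A0
      linarith
    · have h1 := L.b1 s hs.1 d hd
      have := mul_pos hs.2 (mul_pos ((hB d).mp hq) ht.2)
      linarith
    · have hd' := mem_Icc.mp hd
      have hs0 := hs.1
      obtain ⟨⟨e, he, hp, hS⟩, h2⟩ := hl
      have h3 : Ls k B Y (s - d) = 0 := Finset.sum_eq_zero fun e he =>
        zero B hB0 (s - d) (by omega) e fun a1 => h2 e he ((hB e).mpr a1)
      have h4 := low β hβ0 (s - d) (by omega) e he
      have h5 := mul_pos ((hβ e).mp hp) hS.2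
      have h6 := L.b2 s hs.1 d hd
      rw [h3, mul_zero, mul_zero, zero_add] at h6
      have := mul_pos hs.2 (mul_pos ((hB d).mp hq) (h5.trans_le h4))
      linarith
  have hk := F.hk
  have g1 : 1 ≤ g := by
    have := F.hg; have := pow_pos F.hb r; omega
  have m1 : g + 1 ∈ Icc 1 k := mem_Icc.mpr ⟨by omega, by omega⟩
  have m2 : g + 2 ∈ Icc 1 k := mem_Icc.mpr ⟨by omega, by omega⟩
  have m3 : 2 * g + 2 ∈ Icc 1 k := mem_Icc.mpr ⟨by omega, by omega⟩
  have m4 : 1 ∈ Icc 1 k := mem_Icc.mpr ⟨by omega, by omega⟩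
  have p1 := (hβ _).mp F.p1
  have p2 := (hβ _).mp F.p2
  have p3 := (hB _).mp F.q22
  have p4 := (hB _).mp (F.qs 1 le_rfl g1)
  obtain ⟨η, hη⟩ : ∃ η, η = B 0 * B 1 / (β (g + 2) * B (2 * g + 2)) := ⟨_, rfl⟩
  have η0 : 0 < η := by rw [hη]; positivity
  have step : ∀ s, TB S g s → (Y (s - (2 * g + 3)))⁻¹ + η ≤ (Y s)⁻¹ := by
    intro s hs
    obtain ⟨hb, ha⟩ := hs.prev F T
    obtain ⟨hb', ha'⟩ := hs
    obtain ⟨t, rfl⟩ : ∃ t, s = t + (2 * g + 3) := ⟨s - (2 * g + 3), by ring⟩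
    rw [add_sub_cancel_right] at hb ha ⊢
    rw [show t + (2 * g + 3) - (g + 1) = t + g + (2 : ℕ) by push_cast; ring] at ha'
    have s0 := hb'.1
    have N1 : Ls k β Y (t + g + (2 : ℕ)) = β (g + 2) * Y t := by
      rw [exact β hβ0 _ ha'.1 (g + 2) m2]
      · congr 2; push_cast; ring
      · intro d hd a1 a2
        have hd' := mem_Icc.mp hd
        have b1 := sep F T ha' a2 (by omega)
        have b2 : d ≠ g + 1 := by
          rintro rfl
          have := sep F T a2 hb (by omega)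
          omega
        exact (seen F T hb (by omega) le_rfl hd (by omega) a2 (by omega)).1 ((hβ d).mpr a1)
    have N2 : Ls k β Y (t + (2 * g + 3)) = β (g + 1) * Y (t + g + (2 : ℕ)) := by
      rw [exact β hβ0 _ s0 (g + 1) m1]
      · congr 2; push_cast; ring
      · intro d hd a1 a2
        have hd' := mem_Icc.mp hd
        have b1 := sep F T hb' a2 (by omega)
        refine (seen F T ha' le_rfl (by omega) hd (by omega) ?_ (by omega)).1 ((hβ d).mpr a1)
        rwa [show t + g + (2 : ℕ) + g + (1 : ℕ) - d = t + (2 * g + 3) - d by push_cast; ring]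
    have D1 : Ls k B Y (t + g + (2 : ℕ) - (1 : ℕ)) = B (2 * g + 2) * Y (t - (g + 1)) := by
      rw [exact B hB0 _ (by omega) (2 * g + 2) m3]
      · congr 2; push_cast; ring
      · intro d hd a1 a2
        have hd' := mem_Icc.mp hd
        have b1 : g + 1 ≤ d := by
          by_contra hc
          have := sep F T a2 hb (by omega)
          omega
        refine (seen F T hb le_rfl (by omega) hd (by omega) ?_ (by omega)).2 ((hB d).mpr a1)
        rwa [show t + g + (1 : ℕ) - d = t + g + (2 : ℕ) - (1 : ℕ) - d by push_cast; ring]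
    have D2 : Ls k B Y (t + (2 * g + 3) - ((2 * g + 2 : ℕ) : ℤ)) = B 1 * Y t := by
      rw [exact B hB0 _ (by omega) 1 m4]
      · congr 2; push_cast; ring
      · intro d hd a1 a2
        have hd' := mem_Icc.mp hd
        by_contra hne
        have b0 := sep F T hb a2 (by omega)
        have := (seen F T ha (c := 2) (by omega) le_rfl hd (by omega) (by
          rwa [show t - (g + 1) + g + (2 : ℕ) - d
            = t + (2 * g + 3) - ((2 * g + 2 : ℕ) : ℤ) - d by push_cast; ring])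
          (by omega)).2 ((hB d).mpr a1)
        subst this
        have := sep F T ha a2 (by omega)
        omega
    have N3 : β (g + 1) * Y t ≤ Ls k β Y (t + g + (2 : ℕ) - (1 : ℕ)) := by
      have := low β hβ0 (t + g + (2 : ℕ) - (1 : ℕ)) (by omega) _ m1
      rwa [show t + g + (2 : ℕ) - (1 : ℕ) - ((g + 1 : ℕ) : ℤ) = t by push_cast; ring] at this
    have N4 : β (g + 2) * Y (t - (g + 1))
        ≤ Ls k β Y (t + (2 * g + 3) - ((2 * g + 2 : ℕ) : ℤ)) := by
      have := low β hβ0 (t + (2 * g + 3) - ((2 * g + 2 : ℕ) : ℤ)) (by omega) _ m2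
      rwa [show t + (2 * g + 3) - ((2 * g + 2 : ℕ) : ℤ) - ((g + 2 : ℕ) : ℤ) = t - (g + 1) by
        push_cast; ring] at this
    have I1 := L.b2 _ ha'.1 1 m4
    have I2 := L.b2 _ s0 _ m3
    rw [N1, D1] at I1
    rw [N2, D2] at I2
    have le1 := L.le _ ha.1
    have y1 := hb'.2; have y2 := ha'.2; have y3 := hb.2; have y4 := ha.2
    generalize Y (t + (2 * g + 3)) = b' at *
    generalize Y (t + g + (2 : ℕ)) = a' at *
    generalize Y (t - (g + 1)) = a at *
    generalize Y t = bb at *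
    generalize Ls k β Y (t + g + (2 : ℕ) - (1 : ℕ)) = n3 at *
    generalize Ls k β Y (t + (2 * g + 3) - ((2 * g + 2 : ℕ) : ℤ)) = n4 at *
    generalize β (g + 1) = β1 at *
    generalize β (g + 2) = β2 at *
    generalize B (2 * g + 2) = B2 at *
    generalize B 1 = B1 at *
    generalize B 0 = A at *
    have J1 : a' * (B1 * (β1 * bb)) ≤ β2 * bb * (B2 * a) := by
      have c1 : a' * (B1 * (β1 * bb)) ≤ a' * (A * (B2 * a) + B1 * n3) := by
        refine mul_le_mul_of_nonneg_left ?_ y2.le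
        have := mul_le_mul_of_nonneg_left N3 p4.le
        have : 0 < A * (B2 * a) := by positivity
        linarith
      linarith
    have J2 : b' * (A * (B1 * bb) + B2 * (β2 * a)) ≤ β2 * bb * (B2 * a) := by
      have c1 : b' * (A * (B1 * bb) + B2 * (β2 * a)) ≤ b' * (A * (B1 * bb) + B2 * n4) := by
        refine mul_le_mul_of_nonneg_left ?_ y1.le
        have := mul_le_mul_of_nonneg_left N4 p3.le
        linarith
      linarith
    have J3 : b' * (A * (B1 * bb) * a + B2 * (β2 * a)) ≤ β2 * bb * (B2 * a) := by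
      refine le_trans (mul_le_mul_of_nonneg_left ?_ y1.le) J2
      have : 0 < A * (B1 * bb) := by positivity
      nlinarith
    rw [hη, ← one_div, ← one_div, div_add_div _ _ y3.ne' (by positivity),
      div_le_div_iff₀ (by positivity) y1]
    have : 0 ≤ a * (1 * (bb * (β2 * B2)) - (1 * (β2 * B2) + bb * (A * B1)) * b') := by
      linarith
    have := nonneg_of_mul_nonneg_right this
    nlinarith
  obtain ⟨s, -, hs⟩ := exists_TB F T (s := 0) ⟨le_rfl, by rw [L.y0]; norm_num⟩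
  have iter : ∀ i : ℕ, ∀ s, TB S g s → i * η ≤ (Y s)⁻¹ := by
    intro i
    induction i with
    | zero => intro s hs; simpa using hs.1.2.le
    | succ i ih =>
      intro s hs
      have := ih _ (hs.prev F T)
      have := step s hs
      push_cast
      linarith
  obtain ⟨i, hi⟩ := exists_nat_gt ((Y s)⁻¹ / η)
  have := iter i s hs
  rw [div_lt_iff₀ η0] at hi
  linarith

end Pool.Agent.MP_01c7b3_an

end MrgPart1

-- ======== part 2: formerly Pool.Agent.MP_01c7b3_an.Lower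
section MrgPart2

namespace Pool.Agent.MP_01c7b3_an
open Finset

theorem esb_of_fam {k g b r Z : ℕ} {P Q : Finset (Fin (k + 1))}
    (F : Fam k g b r Z (mem k P) (mem k Q)) : ESB k P Q := by
  intro β B hβ hB x hx0 hrec
  have key : ∀ (R : Finset (Fin (k + 1))) (c : Fin (k + 1) → ℝ), Supp k R c →
      ∃ c' : ℕ → ℝ, c = (fun i : Fin (k + 1) => c' i) ∧ (∀ d, 0 ≤ c' d) ∧ ∀ d, mem k R d ↔ 0 < c' d := by
    intro R c hc
    refine ⟨fun d => if h : d < k + 1 then c ⟨d, h⟩ else 0, ?_, fun d => ?_, fun d => ?_⟩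
    · funext i; simp [i.2]
    · dsimp only
      split_ifs with h
      · by_cases hi : (⟨d, h⟩ : Fin (k + 1)) ∈ R
        · exact ((hc _).1 hi).le
        · exact ((hc _).2 hi).ge
      · exact le_rfl
    · dsimp only
      split_ifs with h
      · refine ⟨fun ⟨_, hi⟩ => (hc _).1 hi, fun h0 => ⟨h, ?_⟩⟩
        by_contra hi
        exact h0.ne' ((hc _).2 hi)
      · exact ⟨fun ⟨h', _⟩ => absurd h' h, fun h0 => absurd h0 (lt_irrefl _)⟩
  obtain ⟨β', rfl, a1, a2⟩ := key P β hβ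
  obtain ⟨B', rfl, b1, b2⟩ := key Q B hB
  simp only [form_eq_lf] at hrec
  by_contra hunb
  obtain ⟨Y, L⟩ := exists_lim a1 b1 hx0 hrec hunb
  exact not_lim F a1 b1 a2 b2 L

lemma card_digit {b : ℕ} (hb : 0 < b) (k i : ℕ) :
    ((range (k + 1)).filter fun d => d / b ^ i % b = 0).card ≤ k / b + b ^ i := by
  have h := Finset.card_le_card_of_injOn (s := (range (k + 1)).filter fun d => d / b ^ i % b = 0)
    (t := range (k / b ^ (i + 1) + 1) ×ˢ range (b ^ i)) (fun d => (d / b ^ (i + 1), d % b ^ i))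
    ?_ ?_
  · rw [Finset.card_product, card_range, card_range, add_mul, one_mul] at h
    have : k / b ^ (i + 1) * b ^ i ≤ k / b := by
      rw [Nat.le_div_iff_mul_le hb, mul_assoc, ← pow_succ]
      exact Nat.div_mul_le_self _ _
    omega
  · intro d hd
    simp only [coe_filter, mem_range, Set.mem_ofPred_eq] at hd
    simp only [coe_product, coe_range, Set.mem_prod, Set.mem_Iio]
    exact ⟨Nat.lt_succ_of_le (Nat.div_le_div_right (by omega)), Nat.mod_lt _ (pow_pos hb i)⟩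
  · intro d hd d' hd' e
    simp only [coe_filter, mem_range, Set.mem_ofPred_eq] at hd hd'
    simp only [Prod.mk.injEq] at e
    have key : ∀ d, d / b ^ i % b = 0 → d = b ^ i * (b * (d / b ^ (i + 1))) + d % b ^ i := by
      intro d h
      have h1 := Nat.div_add_mod d (b ^ i)
      have h2 := Nat.div_add_mod (d / b ^ i) b
      rw [h, add_zero, Nat.div_div_eq_div_mul, ← pow_succ] at h2
      rw [h2, h1]
    rw [key d hd.2, key d' hd'.2, e.1, e.2]

theorem lower_aux {k r : ℕ} (hr : 3 ≤ r) (hk : 100 * r ^ (2 * r + 3) ≤ k) :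
    ∃ T : ℕ, T * r ≤ 5 * k ∧ (4 : ℝ) ^ (k + 1) ≤ numESB k * 2 ^ T := by
  classical
  obtain ⟨b, hb⟩ : ∃ b, b = r ^ 2 := ⟨_, rfl⟩
  obtain ⟨M, hM⟩ : ∃ M, M = b ^ r := ⟨_, rfl⟩
  obtain ⟨Z, hZ⟩ : ∃ Z, Z = r * (2 * M + 3) := ⟨_, rfl⟩
  obtain ⟨g, hg⟩ : ∃ g, g = k / r := ⟨_, rfl⟩
  have b0 : 0 < b := by rw [hb]; positivity
  have M0 : 1 ≤ M := by rw [hM]; exact pow_pos b0 r
  have hk' : 100 * (r * r * r * M) ≤ k := by
    rw [hM, hb, ← pow_mul]
    exact le_trans (le_of_eq (by ring)) hk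
  have g1 : g * r ≤ k := by rw [hg]; exact Nat.div_mul_le_self _ _
  have g2 : k < g * r + r := by rw [hg]; exact Nat.lt_div_mul_add (by omega)
  have Z1 : Z ≤ 5 * (r * M) := by rw [hZ]; nlinarith
  have Z2 : 3 * r ≤ Z := by rw [hZ]; nlinarith
  have rM : M ≤ r * M := Nat.le_mul_of_pos_left _ (by omega)
  have g3 : 100 * (r * r * M) ≤ g := by
    rw [hg, Nat.le_div_iff_mul_le (by omega)]
    exact le_trans (le_of_eq (by ring)) hk'
  have rrM : r * M ≤ r * r * M := by rw [mul_assoc]; exact Nat.le_mul_of_pos_left _ (by omega)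
  have g4 : 3 * g ≤ k := by nlinarith
  let ZS := (range (k + 1)).filter (Zone g Z)
  let DS := (range (k + 1)).filter (Dig b r)
  let N := NN k ({g + 1, g + 2} ∪ (ZS ∪ DS)) (range (g + 3) ∪ (ZS ∪ DS))
  let f : Bool × Fin (k + 1) → Bool := fun x =>
    if x.1 = true then decide ((x.2 : ℕ) ≤ g ∨ (x.2 : ℕ) = 2 * g + 2)
    else decide (¬ Zone g Z x.2)
  have zlt : ∀ d, Zone g Z d → 2 * g < d := by
    rintro d ⟨j, j1, j2, -⟩
    have : 2 * g ≤ j * g := Nat.mul_le_mul_right _ j1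
    omega
  have fam : ∀ ω ∈ box N f, Fam k g b r Z (bit k ω false) (bit k ω true) := by
    intro ω hω
    rw [mem_box] at hω
    have hp : ∀ d, d ≤ k → (d = g + 1 ∨ d = g + 2 ∨ Zone g Z d ∨ Dig b r d) →
        (bit k ω false d ↔ ¬ Zone g Z d) := by
      intro d hd h
      have := hω (false, ⟨d, by omega⟩) (mem_NN_false.mpr (by
        simp only [ZS, DS, mem_union, mem_insert, mem_singleton, mem_filter, mem_range]
        have : d < k + 1 := by omega
        tauto))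
      simp only [bit, exists_prop_of_true (by omega : d < k + 1), this]
      simp [f]
    have hq : ∀ d, d ≤ k → (d < g + 3 ∨ Zone g Z d ∨ Dig b r d) →
        (bit k ω true d ↔ (d ≤ g ∨ d = 2 * g + 2)) := by
      intro d hd h
      have := hω (true, ⟨d, by omega⟩) (mem_NN_true.mpr (by
        simp only [ZS, DS, mem_union, mem_filter, mem_range]
        have : d < k + 1 := by omega
        tauto))
      simp only [bit, exists_prop_of_true (by omega : d < k + 1), this]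
      simp [f]
    refine ⟨b0, by nlinarith, by rw [← hM, hZ], by rw [← hM]; omega, by omega, ?_, ?_, ?_, ?_,
      ?_, ?_, ?_, ?_, ?_, ?_, ?_⟩
    · rw [hq 0 (by omega) (by omega)]; omega
    · intro d h1 h2; rw [hq d (by omega) (by omega)]; omega
    · rw [hp _ (by omega) (by tauto)]; intro h; have := zlt _ h; omega
    · rw [hp _ (by omega) (by tauto)]; intro h; have := zlt _ h; omega
    · rw [hq _ (by omega) (by omega)]; omega
    · rw [hq _ (by omega) (by omega)]; omega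
    · rw [hq _ (by omega) (Or.inr (Or.inl ⟨2, le_rfl, by omega, by omega⟩))]; omega
    · intro d hd hz; rw [hp d hd (by tauto)]; tauto
    · intro d hd hz hne; rw [hq d hd (by tauto)]; have := zlt _ hz; omega
    · intro d hd h hz; rw [hp d hd (by tauto)]; exact hz
    · intro d hd h h1 hne; rw [hq d hd (by tauto)]; omega
  have cZ : ZS.card ≤ (r + 1) * Z := by
    have hs : ZS ⊆ (range (r + 1)).biUnion fun j => Ioc (j * g) (j * g + Z) := by
      intro d hd
      obtain ⟨h1, j, j1, j2, j3⟩ := mem_filter.mp hd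
      refine mem_biUnion.mpr ⟨j, mem_range.mpr ?_, mem_Ioc.mpr ⟨j2, j3⟩⟩
      by_contra hc
      have : (r + 1) * g ≤ j * g := Nat.mul_le_mul_right _ (by omega)
      have := mem_range.mp h1
      nlinarith
    refine (card_le_card hs).trans ((card_biUnion_le_card_mul _ _ Z ?_).trans (by simp))
    intro j _; simp
  have cD : DS.card ≤ r * (k / b + M) := by
    have hs : DS ⊆ (range r).biUnion fun i =>
        (range (k + 1)).filter fun d => d / b ^ i % b = 0 := by
      intro d hd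
      obtain ⟨h1, i, i1, i2⟩ := mem_filter.mp hd
      exact mem_biUnion.mpr ⟨i, mem_range.mpr i1, mem_filter.mpr ⟨h1, i2⟩⟩
    refine (card_le_card hs).trans
      ((card_biUnion_le_card_mul _ _ (k / b + M) ?_).trans (by simp))
    intro i hi
    refine (card_digit b0 k i).trans (Nat.add_le_add_left ?_ _)
    rw [hM]; exact Nat.pow_le_pow_right b0 (mem_range.mp hi).le
  refine ⟨N.card, ?_, ?_⟩
  · have c1 : N.card ≤ _ := card_NN_le k _ _
    have c2 := card_union_le ({g + 1, g + 2} : Finset ℕ) (ZS ∪ DS)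
    have c3 := card_union_le (range (g + 3)) (ZS ∪ DS)
    have c4 := card_union_le ZS DS
    have c5 : ({g + 1, g + 2} : Finset ℕ).card ≤ 2 := card_le_two
    rw [card_range] at c3
    have c6 : k / b * (r * r) ≤ k := by
      rw [hb, sq]; exact Nat.div_mul_le_self _ _
    have c7 : (r + 1) * Z ≤ 10 * (r * r * M) := by nlinarith
    have c8 : N.card ≤ 2 * g + 2 * (r * (k / b)) := by
      rw [mul_add] at cD
      omega
    nlinarith
  · have h1 := card_box N f
    have h3 : (2 : ℝ) ^ Fintype.card (Bool × Fin (k + 1)) = 4 ^ (k + 1) := by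
      rw [Fintype.card_prod, Fintype.card_bool, Fintype.card_fin, pow_mul]; norm_num
    rw [← h3, ← h1]
    refine mul_le_mul_of_nonneg_right ?_ (by positivity)
    have h2 : (box N f).card ≤ numESB k := by
      unfold numESB
      rw [← Set.ncard_coe_finset]
      refine Set.ncard_le_ncard_of_injOn
        (fun ω => (univ.filter fun i => ω (false, i) = true,
          univ.filter fun i => ω (true, i) = true)) ?_ ?_ (Set.toFinite _)
      · intro ω hω
        have F := fam ω hω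
        have e : ∀ c, bit k ω c = mem k (univ.filter fun i => ω (c, i) = true) := by
          intro c; funext d; simp [bit, mem]
        rw [e, e] at F
        exact ⟨⟨_, F.p1.2⟩, ⟨_, F.q0.2⟩, esb_of_fam F⟩
      · intro ω _ ω' _ h
        simp only [Prod.mk.injEq, Finset.ext_iff, mem_filter, mem_univ, true_and] at h
        funext ⟨c, i⟩
        cases c
        · exact Bool.eq_iff_iff.mpr (h.1 i)
        · exact Bool.eq_iff_iff.mpr (h.2 i)
    exact_mod_cast h2

theorem lower : ∃ C : ℝ, ∃ k0 : ℕ, ∀ k : ℕ, k0 ≤ k →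
    4 ^ k * Real.exp (-(C * k * Real.log (Real.log k) / Real.log k)) ≤ (numESB k : ℝ) := by
  have t1 : Filter.Tendsto (fun k : ℕ => Real.log k) Filter.atTop Filter.atTop :=
    Real.tendsto_log_atTop.comp tendsto_natCast_atTop_atTop
  have e1 : ∀ᶠ y : ℝ in Filter.atTop, 20 * Real.log y ≤ y := by
    have := Real.isLittleO_log_id_atTop.bound (by norm_num : (0 : ℝ) < 1 / 20)
    filter_upwards [this, Filter.eventually_ge_atTop 0] with y h1 h2
    rw [Real.norm_eq_abs, id, Real.norm_eq_abs, abs_of_nonneg h2] at h1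
    have := le_abs_self (Real.log y)
    linarith
  obtain ⟨k0, hk0⟩ := Filter.eventually_atTop.mp ((t1.eventually e1).and
    ((t1.eventually (Filter.eventually_ge_atTop 20)).and (Filter.eventually_ge_atTop 1)))
  refine ⟨40, k0, fun k hk => ?_⟩
  obtain ⟨a1, a2, a3⟩ := hk0 k hk
  have k0' : (0 : ℝ) < k := by exact_mod_cast a3
  set y := Real.log k with hy
  set l := Real.log y with hl
  have l1 : 1 ≤ l := by
    rw [hl, Real.le_log_iff_exp_le (by linarith)]
    have := Real.exp_one_lt_d9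
    linarith
  obtain ⟨r, hr⟩ : ∃ r, r = ⌊y / (4 * l)⌋₊ := ⟨_, rfl⟩
  have r1 : (r : ℝ) ≤ y / (4 * l) := by rw [hr]; exact Nat.floor_le (by positivity)
  have r2 : y / (4 * l) < r + 1 := by rw [hr]; exact Nat.lt_floor_add_one _
  have r3 : 5 ≤ y / (4 * l) := by rw [le_div_iff₀ (by positivity)]; linarith
  have r4 : (4 : ℝ) < r := by linarith
  have r5 : 3 ≤ r := by
    have : (3 : ℝ) ≤ r := by linarith
    exact_mod_cast this
  rw [le_div_iff₀ (by positivity)] at r1
  rw [div_lt_iff₀ (by positivity)] at r2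
  have r6 : (r : ℝ) ≤ y := by nlinarith
  have hk2 : 100 * r ^ (2 * r + 3) ≤ k := by
    have b1 : (r : ℝ) ^ (2 * r + 3) ≤ y ^ (2 * r + 3) := pow_le_pow_left₀ (by linarith) r6 _
    have b2 : y ^ (2 * r + 3) = Real.exp ((2 * r + 3 : ℕ) * l) := by
      rw [Real.exp_nat_mul, hl, Real.exp_log (by linarith)]
    have b3 : (100 : ℝ) ≤ Real.exp 7 := by
      have := Real.exp_one_gt_d9
      have h : Real.exp 7 = Real.exp 1 ^ 7 := by rw [← Real.exp_nat_mul]; norm_num
      rw [h]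
      calc (100 : ℝ) ≤ 2 ^ 7 := by norm_num
        _ ≤ _ := pow_le_pow_left₀ (by norm_num) (by linarith) 7
    have b4 : Real.exp 7 * Real.exp ((2 * r + 3 : ℕ) * l) ≤ k := by
      rw [← Real.exp_add, ← Real.exp_log k0', ← hy]
      apply Real.exp_le_exp.mpr
      push_cast
      nlinarith
    have b5 : (100 : ℝ) * (r : ℝ) ^ (2 * r + 3) ≤ k :=
      le_trans (mul_le_mul b3 (b1.trans b2.le) (by positivity) (by positivity)) b4
    exact_mod_cast b5
  obtain ⟨T, hT1, hT2⟩ := lower_aux r5 hk2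
  have hT : (T : ℝ) * r ≤ 5 * k := by exact_mod_cast hT1
  have c1 : (T : ℝ) ≤ 40 * k * l / y := by
    rw [le_div_iff₀ (by linarith)]
    have T0 : (0 : ℝ) ≤ T := by positivity
    have : y ≤ 8 * l * r := by nlinarith
    calc (T : ℝ) * y ≤ T * (8 * l * r) := mul_le_mul_of_nonneg_left this T0
      _ = 8 * l * (T * r) := by ring
      _ ≤ 8 * l * (5 * k) := mul_le_mul_of_nonneg_left hT (by positivity)
      _ = _ := by ring
  have c2 : (2 : ℝ) ^ T ≤ Real.exp (40 * k * l / y) := by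
    refine le_trans ?_ (Real.exp_le_exp.mpr c1)
    rw [← mul_one (T : ℝ), Real.exp_nat_mul]
    have := Real.exp_one_gt_d9
    exact pow_le_pow_left₀ (by norm_num) (by linarith) T
  rw [Real.exp_neg, ← div_eq_mul_inv, div_le_iff₀ (Real.exp_pos _)]
  calc (4 : ℝ) ^ k ≤ 4 ^ (k + 1) := pow_le_pow_right₀ (by norm_num) (by omega)
    _ ≤ _ := hT2
    _ ≤ _ := mul_le_mul_of_nonneg_left c2 (by positivity)

end Pool.Agent.MP_01c7b3_an

end MrgPart2

-- marker of a merged file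
example : 731051 + 116157 = 731051 + 116157 := rfl
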