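import Pool.Agent.MP_01c7b3_an.Upper

namespace Pool.Agent.MP_01c7b3_an
open Finset

lemma numESB_triv (k : ℕ) : (numESB k : ℝ) ≤ 4 ^ (k + 1) := by
  have h : numESB k ≤ Fintype.card (Finset (Fin (k + 1)) × Finset (Fin (k + 1))) := by
    unfold numESB
    rw [← Nat.card_eq_fintype_card, ← Set.ncard_univ]
    exact Set.ncard_le_ncard (Set.subset_univ _) (Set.toFinite _)
  rw [Fintype.card_prod, Fintype.card_finset, Fintype.card_fin, ← mul_pow] at h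
  exact_mod_cast h

lemma nat_div_ge (k d : ℕ) (hd : 0 < d) : (k : ℝ) / d - 1 ≤ ((k / d : ℕ) : ℝ) := by
  have h1 := Nat.lt_div_mul_add (a := k) hd
  have h2 : (k : ℝ) < ((k / d : ℕ) : ℝ) * d + d := by exact_mod_cast h1
  have hd' : (0 : ℝ) < d := by exact_mod_cast hd
  rw [sub_le_iff_le_add, div_le_iff₀ hd']
  nlinarith

lemma large_bound (k : ℕ) (z : ℝ) (hz : 2 ≤ z) (hk : (k : ℝ) = z ^ 90)
    (hlog : Real.log k ≤ 90 * z) : (numESB k : ℝ) ≤ 10 ^ 13 / z ^ 15 * 4 ^ (k + 1) := by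
  have z0 : 0 < z := by linarith
  have z1 : 1 ≤ z := by linarith
  have hk2 : (2 : ℝ) ^ 90 ≤ k := by rw [hk]; exact pow_le_pow_left₀ (by norm_num) hz 90
  have hk2' : 2 ^ 90 ≤ k := by exact_mod_cast hk2
  have k0 : k ≠ 0 := by omega
  obtain ⟨L, hL⟩ : ∃ L, L = Nat.log 2 k := ⟨_, rfl⟩
  have L1 : 2 ^ L ≤ k := by rw [hL]; exact Nat.pow_log_le_self 2 k0
  have L2 : k < 2 ^ (L + 1) := by rw [hL]; exact Nat.lt_pow_succ_log_self (by norm_num) k
  have L90 : 90 ≤ L := by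
    by_contra hc
    have : 2 ^ (L + 1) ≤ 2 ^ 90 := Nat.pow_le_pow_right (by norm_num) (by omega)
    omega
  obtain ⟨J, hJ⟩ : ∃ J, J = 3 * L / 5 := ⟨_, rfl⟩
  have J1 : 1 ≤ J := by omega
  obtain ⟨w, hw⟩ : ∃ w : ℝ, w = 2 ^ J := ⟨_, rfl⟩
  have w0 : 0 < w := by rw [hw]; positivity
  have L1' : (2 : ℝ) ^ L ≤ z ^ 90 := by rw [← hk]; exact_mod_cast L1
  have L2' : z ^ 90 ≤ (2 : ℝ) ^ (L + 1) := by rw [← hk]; exact_mod_cast L2.le
  have wle : w ≤ z ^ 54 := by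
    refine le_of_pow_le_pow_left₀ (n := 5) (by norm_num) (by positivity) ?_
    calc w ^ 5 = 2 ^ (J * 5) := by rw [hw, ← pow_mul]
      _ ≤ 2 ^ (L * 3) := pow_le_pow_right₀ (by norm_num) (by omega)
      _ = (2 ^ L) ^ 3 := by rw [pow_mul]
      _ ≤ (z ^ 90) ^ 3 := pow_le_pow_left₀ (by positivity) L1' 3
      _ = (z ^ 54) ^ 5 := by ring
  have wge : z ^ 54 ≤ 4 * w := by
    refine le_of_pow_le_pow_left₀ (n := 5) (by norm_num) (by positivity) ?_
    calc (z ^ 54) ^ 5 = (z ^ 90) ^ 3 := by ring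
      _ ≤ (2 ^ (L + 1)) ^ 3 := pow_le_pow_left₀ (by positivity) L2' 3
      _ = 2 ^ ((L + 1) * 3) := by rw [← pow_mul]
      _ ≤ 2 ^ ((J + 2) * 5) := pow_le_pow_right₀ (by norm_num) (by omega)
      _ = (4 * w) ^ 5 := by rw [hw, pow_mul]; ring
  have hLz : (L : ℝ) * Real.log 2 ≤ 90 * z := by
    rw [← Real.log_pow]
    refine le_trans (Real.log_le_log (by positivity) ?_) hlog
    exact_mod_cast L1
  have hJz : (J : ℝ) + 1 ≤ 80 * z := by
    have h1 : (5 : ℝ) * J ≤ 3 * L := by exact_mod_cast (by omega : 5 * J ≤ 3 * L)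
    have h2 := Real.log_two_gt_d9
    have h3 : (0 : ℝ) ≤ L := by positivity
    nlinarith
  have J0 : (0 : ℝ) < J := by exact_mod_cast J1
  obtain ⟨A, hA⟩ : ∃ A, A = k / (8 * (J + 1)) := ⟨_, rfl⟩
  obtain ⟨Ms, hMs⟩ : ∃ Ms, Ms = Ioc (k / (J + 1)) (k / J) := ⟨_, rfl⟩
  have p88 : (2 : ℝ) ^ 88 ≤ z ^ 88 := pow_le_pow_left₀ (by norm_num) hz 88
  have p89 : (2 : ℝ) ^ 89 ≤ z ^ 89 := pow_le_pow_left₀ (by norm_num) hz 89
  have Age : z ^ 89 / 1280 ≤ A := by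
    have h1 := nat_div_ge k (8 * (J + 1)) (by omega)
    rw [← hA] at h1
    have h2 : z ^ 89 / 640 ≤ (k : ℝ) / ((8 * (J + 1) : ℕ) : ℝ) := by
      rw [hk, div_le_div_iff₀ (by norm_num) (by positivity)]
      push_cast
      have : z ^ 90 = z ^ 89 * z := by ring
      rw [this]
      have : (0 : ℝ) < z ^ 89 := by positivity
      nlinarith
    linarith
  have Mge : z ^ 88 / 12800 ≤ Ms.card := by
    rw [hMs, Nat.card_Ioc]
    have h1 := nat_div_ge k J (by omega)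
    have h2 : ((k / (J + 1) : ℕ) : ℝ) ≤ (k : ℝ) / (J + 1) := by
      simpa using Nat.cast_div_le (α := ℝ) (m := k) (n := J + 1)
    have h3 : ((k / J : ℕ) : ℝ) - ((k / (J + 1) : ℕ) : ℝ) ≤ ((k / J - k / (J + 1) : ℕ) : ℝ) := by
      rw [Nat.cast_sub (Nat.div_le_div_left (by omega) (by omega))]
    have h4 : (k : ℝ) / J - k / (J + 1) = k / (J * (J + 1)) := by field_simp; ring
    have h5 : z ^ 88 / 6400 ≤ (k : ℝ) / (J * (J + 1)) := by
      rw [hk, div_le_div_iff₀ (by norm_num) (by positivity)]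
      have : z ^ 90 = z ^ 88 * z ^ 2 := by ring
      rw [this]
      have : (0 : ℝ) < z ^ 88 := by positivity
      have : (J : ℝ) * (J + 1) ≤ 6400 * z ^ 2 := by nlinarith
      nlinarith
    linarith
  have A1 : (1 : ℝ) ≤ A := by linarith
  have M1 : (1 : ℝ) ≤ Ms.card := by linarith
  have hMne : Ms.Nonempty := by
    rw [← Finset.card_pos]
    have : (0 : ℝ) < Ms.card := by linarith
    exact_mod_cast this
  have hwin : ∀ m ∈ Ms, Win k J m ∧ 8 * A < m := by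
    intro m hm
    rw [hMs, mem_Ioc] at hm
    have h1 : k < (J + 1) * m := by
      have := (Nat.div_lt_iff_lt_mul (by omega : 0 < J + 1)).mp hm.1
      linarith
    refine ⟨⟨?_, h1⟩, ?_⟩
    · have := (Nat.le_div_iff_mul_le (by omega : 0 < J)).mp hm.2
      linarith
    · have h2 : A * (8 * (J + 1)) ≤ k := by rw [hA]; exact Nat.div_mul_le_self _ _
      by_contra hc
      have : (J + 1) * m ≤ (J + 1) * (8 * A) := Nat.mul_le_mul_left _ (by omega)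
      nlinarith
  refine (numESB_le hwin J1 (by exact_mod_cast A1) hMne).trans
    (mul_le_mul_of_nonneg_right ?_ (by positivity))
  have e1 : (2 : ℝ) ^ (3 * J + 6) = 64 * w ^ 3 := by rw [hw]; ring
  have e2 : (2 : ℝ) ^ (J + 5) = 32 * w := by rw [hw]; ring
  have e3 : (2 : ℝ) ^ (2 * J) = w ^ 2 := by rw [hw]; ring
  rw [e1, e2, e3, ← hw]
  have pw : ∀ a b : ℕ, a ≤ b → z ^ a ≤ z ^ b := fun a b h => pow_le_pow_right₀ z1 h
  have t1 : 64 * w ^ 3 / (Ms.card * A) ≤ 2 * 10 ^ 9 / z ^ 15 := by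
    rw [div_le_div_iff₀ (by positivity) (by positivity)]
    have a1 : w ^ 3 ≤ (z ^ 54) ^ 3 := pow_le_pow_left₀ w0.le wle 3
    have a2 : z ^ 88 / 12800 * (z ^ 89 / 1280) ≤ Ms.card * A :=
      mul_le_mul Mge Age (by positivity) (by positivity)
    have a3 : 64 * w ^ 3 * z ^ 15 ≤ 64 * (z ^ 54) ^ 3 * z ^ 15 := by gcongr
    have a4 : (0 : ℝ) ≤ z ^ 177 := by positivity
    nlinarith
  have t2 : 32 * w / Ms.card ≤ 10 ^ 6 / z ^ 15 := by
    rw [div_le_div_iff₀ (by positivity) (by positivity)]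
    have a3 : 32 * w * z ^ 15 ≤ 32 * z ^ 54 * z ^ 15 := by gcongr
    have := pw 69 88 (by norm_num)
    have a4 : (0 : ℝ) ≤ z ^ 88 := by positivity
    nlinarith
  have t3 : 2 ^ 13 * (18 * J + 25) / (A : ℝ) ≤ 10 ^ 11 / z ^ 15 := by
    rw [div_le_div_iff₀ (by positivity) (by positivity)]
    have a1 : (18 : ℝ) * J + 25 ≤ 2000 * z := by linarith
    have a3 : 2 ^ 13 * (18 * J + 25) * z ^ 15 ≤ 2 ^ 13 * (2000 * z) * z ^ 15 := by gcongr
    have := pw 16 89 (by norm_num)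
    have a4 : (0 : ℝ) ≤ z ^ 89 := by positivity
    nlinarith
  have t4 : 8 / w ≤ 32 / z ^ 15 := by
    rw [div_le_div_iff₀ (by positivity) (by positivity)]
    have := pw 15 54 (by norm_num)
    linarith
  have t5 : 2 * k / w ^ 2 ≤ 32 / z ^ 15 := by
    rw [div_le_div_iff₀ (by positivity) (by positivity), hk]
    have a1 : (z ^ 54) ^ 2 ≤ (4 * w) ^ 2 := pow_le_pow_left₀ (by positivity) wge 2
    have := pw 105 108 (by norm_num)
    nlinarith
  have e4 : ∀ c : ℝ, c / z ^ 15 = c * (1 / z ^ 15) := fun c => by ring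
  have : (0 : ℝ) < 1 / z ^ 15 := by positivity
  rw [e4] at t1 t2 t3 t4 t5 ⊢
  linarith

theorem upper : ∃ C : ℝ, ∀ k : ℕ, 1 ≤ k →
    (numESB k : ℝ) ≤ C * 4 ^ k / (k : ℝ) ^ (1 / 6 : ℝ) := by
  refine ⟨4 * 10 ^ 13, fun k hk => ?_⟩
  have k0 : (0 : ℝ) < k := by exact_mod_cast hk
  obtain ⟨z, hz⟩ : ∃ z : ℝ, z = (k : ℝ) ^ (1 / 90 : ℝ) := ⟨_, rfl⟩
  have z0 : 0 < z := by rw [hz]; positivity
  have e1 : (k : ℝ) = z ^ 90 := by
    rw [hz, ← Real.rpow_natCast, ← Real.rpow_mul k0.le]; norm_num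
  have e2 : (k : ℝ) ^ (1 / 6 : ℝ) = z ^ 15 := by
    rw [hz, ← Real.rpow_natCast, ← Real.rpow_mul k0.le]; norm_num
  have hlog : Real.log k ≤ 90 * z := by
    have := Real.log_le_rpow_div k0.le (by norm_num : (0 : ℝ) < 1 / 90)
    rw [← hz] at this
    linarith
  rw [e2]
  have e3 : 4 * 10 ^ 13 * 4 ^ k / z ^ 15 = 10 ^ 13 / z ^ 15 * 4 ^ (k + 1) := by ring
  rw [e3]
  rcases le_total 2 z with h | h
  · exact large_bound k z h e1 hlog
  · refine (numESB_triv k).trans (le_mul_of_one_le_left (by positivity) ?_)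
    rw [le_div_iff₀ (by positivity)]
    have := pow_le_pow_left₀ z0.le h 15
    linarith

end Pool.Agent.MP_01c7b3_an
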