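import Mathlib
import Pool.Agent.MP_01c7b3_an.UpperAsym
import Pool.Agent.MP_01c7b3_an.Lower

/-! The sequence `E(k)` satisfies no linear recurrence with constant coefficients. -/

open Filter Topology

namespace Pool.Agent.MP_01c7b3_an

namespace NoRec

/-- The companion map of a recurrence. -/
noncomputable def comp {d : ℕ} (c : Fin d → ℂ) : (Fin d → ℂ) →L[ℂ] (Fin d → ℂ) :=
  LinearMap.toContinuousLinearMap (LinearRecurrence.tupleSucc ⟨d, c⟩)

lemma comp_apply {d : ℕ} (c : Fin d → ℂ) (x : Fin d → ℂ) (i : Fin d) :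
    comp c x i = if h : (i : ℕ) + 1 < d then x ⟨i + 1, h⟩ else ∑ j, c j * x j := rfl

/-- An orbit of a linear map that tends to zero is halved in a fixed number of steps. -/
lemma halve {E : Type} [NormedAddCommGroup E] [NormedSpace ℂ E] [FiniteDimensional ℂ E]
    (A : E →L[ℂ] E) (v : ℕ → E) (hv : ∀ k, v (k + 1) = A (v k)) (h0 : Tendsto v atTop (𝓝 0)) :
    ∃ N, 0 < N ∧ ∀ k, ‖v (k + N)‖ ≤ 1 / 2 * ‖v k‖ := by
  have pw : ∀ n k, (A ^ n) (v k) = v (k + n) := fun n k => by
    induction n with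
    | zero => rfl
    | succ n ih => rw [pow_succ', mul_apply_eq_comp, ih, ← hv, add_assoc]
  let W : Submodule ℂ E := Submodule.span ℂ (Set.range v)
  have lim : ∀ w ∈ W, Tendsto (fun n => (A ^ n) w) atTop (𝓝 0) := fun w hw => by
    induction hw using Submodule.span_induction with
    | mem x hx =>
      obtain ⟨k, rfl⟩ := hx
      simp only [pw, add_comm k]
      exact h0.comp (tendsto_add_atTop_nat k)
    | zero => simp
    | add x y _ _ hx hy => simpa using hx.add hy
    | smul a x _ hx => simpa using hx.const_smul a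
  let b := Module.finBasis ℂ W
  obtain ⟨C, hC, hb⟩ := b.exists_opNorm_le (F := E)
  have ev : ∀ᶠ n in atTop, ∀ i, ‖(A ^ n) (b i : E)‖ ≤ 1 / (2 * C) :=
    eventually_all.2 fun i => by
      have := (lim _ (b i).2).norm
      rw [norm_zero] at this
      exact this.eventually (eventually_le_nhds (by positivity))
  obtain ⟨N, h1, h2⟩ := (ev.and (eventually_gt_atTop 0)).exists
  refine ⟨N, h2, fun k => ?_⟩
  have hT : ‖(A ^ N).comp W.subtypeL‖ ≤ C * (1 / (2 * C)) := hb (by positivity) h1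
  have := ((A ^ N).comp W.subtypeL).le_of_opNorm_le hT ⟨v k, Submodule.subset_span ⟨k, rfl⟩⟩
  rw [show C * (1 / (2 * C)) = 1 / 2 by field_simp] at this
  rw [← pw]
  exact this

/-- A recurrent sequence that tends to zero does so at a geometric rate. -/
lemma no_slow (u : ℕ → ℂ) (h0 : Tendsto u atTop (𝓝 0))
    (hl : ∀ δ : ℝ, 0 < δ → ∀ᶠ k : ℕ in atTop, Real.exp (-(δ * k)) ≤ ‖u k‖) (d k₀ : ℕ)
    (c : Fin d → ℂ) (hr : ∀ k, k₀ ≤ k → u (k + d) = ∑ i, c i * u (k + i)) : False := by
  let v : ℕ → Fin d → ℂ := fun k i => u (k₀ + k + i)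
  have hv : ∀ k, v (k + 1) = comp c (v k) := fun k => by
    funext i
    rw [comp_apply]
    split_ifs with h
    · show u _ = u _
      congr 1
      simp only
      omega
    · rw [← hr _ (Nat.le_add_right k₀ k)]
      show u _ = u _
      congr 1
      have := i.2
      omega
  have hv0 : Tendsto v atTop (𝓝 0) := tendsto_pi_nhds.2 fun i => by
    have := h0.comp (tendsto_add_atTop_nat (k₀ + i))
    refine this.congr fun k => ?_
    show u (k + (k₀ + i)) = u (k₀ + k + i)
    congr 1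
    omega
  obtain ⟨N, hN, hh⟩ := halve (comp c) v hv hv0
  have it : ∀ j : ℕ, ‖v (j * N)‖ ≤ (1 / 2) ^ j * ‖v 0‖ := fun j => by
    induction j with
    | zero => simp
    | succ j ih =>
      rw [Nat.succ_mul, pow_succ']
      linarith [hh (j * N)]
  have ub : ∀ j : ℕ, ‖u (k₀ + j * N + d)‖ ≤ (1 / 2) ^ j * ((∑ i, ‖c i‖) * ‖v 0‖) := fun j => by
    rw [hr _ (Nat.le_add_right _ _), mul_left_comm, Finset.sum_mul]
    refine (norm_sum_le _ _).trans (Finset.sum_le_sum fun i _ => ?_)
    rw [norm_mul]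
    exact mul_le_mul_of_nonneg_left ((norm_le_pi_norm (v (j * N)) i).trans (it j)) (norm_nonneg _)
  have hN' : (0 : ℝ) < N := Nat.cast_pos.2 hN
  have hδ : 0 < Real.log (4 / 3) / N := div_pos (Real.log_pos (by norm_num)) hN'
  have ht : Tendsto (fun j : ℕ => k₀ + j * N + d) atTop atTop :=
    tendsto_atTop_mono (fun j => by
      have := Nat.le_mul_of_pos_right j hN
      show j ≤ _
      omega) tendsto_id
  have ev : ∀ᶠ j : ℕ in atTop, Real.exp (-(Real.log (4 / 3) / N * (k₀ + d))) ≤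
      (2 / 3) ^ j * ((∑ i, ‖c i‖) * ‖v 0‖) := by
    filter_upwards [ht.eventually (hl _ hδ)] with j hj
    have e : Real.exp (-(Real.log (4 / 3) / N * ((k₀ + j * N + d : ℕ) : ℝ))) =
        Real.exp (-(Real.log (4 / 3) / N * (k₀ + d))) * (3 / 4) ^ j := by
      rw [show (3 / 4 : ℝ) = Real.exp (-Real.log (4 / 3)) by
        rw [Real.exp_neg, Real.exp_log (by norm_num)]; norm_num, ← Real.exp_nat_mul, ← Real.exp_add]
      congr 1
      push_cast
      field_simp
      ring
    have k := hj.trans (ub j)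
    rw [e, show (1 / 2 : ℝ) = 2 / 3 * (3 / 4) by norm_num, mul_pow, mul_right_comm] at k
    exact le_of_mul_le_mul_right k (by positivity)
  have lim : Tendsto (fun j : ℕ => (2 / 3 : ℝ) ^ j * ((∑ i, ‖c i‖) * ‖v 0‖)) atTop (𝓝 0) := by
    simpa using (tendsto_pow_atTop_nhds_zero_of_lt_one (r := (2 / 3 : ℝ)) (by norm_num)
      (by norm_num)).mul_const ((∑ i, ‖c i‖) * ‖v 0‖)
  exact absurd (ge_of_tendsto lim ev) (not_le.2 (Real.exp_pos _))

lemma norm_eq (k : ℕ) : ‖(numESB k : ℂ) / 4 ^ k‖ = (numESB k : ℝ) / 4 ^ k := by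
  simp

end NoRec

open NoRec in
theorem noRec (d k₀ : ℕ) (c : Fin d → ℂ) :
    ¬ ∀ k, k₀ ≤ k → (numESB (k + d) : ℂ) = ∑ i, c i * (numESB (k + i) : ℂ) := by
  intro hr
  refine no_slow (fun k => (numESB k : ℂ) / 4 ^ k) ?_ (fun δ hδ => ?_) d k₀
    (fun i => c i * 4 ^ (i : ℕ) / 4 ^ d) fun k hk => ?_
  · obtain ⟨C, hC⟩ := upper
    rw [tendsto_zero_iff_norm_tendsto_zero]
    have t : Tendsto (fun k : ℕ => C / (k : ℝ) ^ (1 / 6 : ℝ)) atTop (𝓝 0) :=
      ((tendsto_rpow_atTop (by norm_num)).comp tendsto_natCast_atTop_atTop).const_div_atTop C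
    refine squeeze_zero' (Eventually.of_forall fun _ => norm_nonneg _) ?_ t
    filter_upwards [eventually_ge_atTop 1] with k hk
    rw [norm_eq, div_le_iff₀ (by positivity), div_mul_eq_mul_div]
    exact hC k hk
  · obtain ⟨C, k₁, hC⟩ := lower
    have t : Tendsto (fun k : ℕ => C * (Real.log (Real.log k) / Real.log k)) atTop (𝓝 0) := by
      simpa using ((Real.isLittleO_log_id_atTop.tendsto_div_nhds_zero).comp
        (Real.tendsto_log_atTop.comp tendsto_natCast_atTop_atTop)).const_mul C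
    filter_upwards [eventually_ge_atTop k₁, t.eventually (eventually_le_nhds hδ)] with k h1 h2
    rw [norm_eq, le_div_iff₀ (by positivity), mul_comm]
    refine le_trans (mul_le_mul_of_nonneg_left (Real.exp_le_exp.2 (neg_le_neg ?_))
      (by positivity)) (hC k h1)
    calc C * k * Real.log (Real.log k) / Real.log k
        = C * (Real.log (Real.log k) / Real.log k) * k := by ring
      _ ≤ δ * k := mul_le_mul_of_nonneg_right h2 (Nat.cast_nonneg k)
  · simp only [hr k hk, Finset.sum_div]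
    refine Finset.sum_congr rfl fun i _ => ?_
    rw [pow_add, pow_add]
    field_simp

end Pool.Agent.MP_01c7b3_an
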